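import Pool.Agent.H176RD.Defs

set_option autoImplicit false

/-! Task A1: Kronecker's theorem and the factorisation of `p` in the cyclotomic field. -/

namespace Pool.Agent.H176RD

namespace A1aux

open NumberField

section
variable {p k : ℕ} [hp : Fact p.Prime]

/-- `p` divides a power of `ζ - 1` -/
theorem p_dvd {K : Type} [Field K] [NumberField K] [IsCyclotomicExtension {p ^ (k + 1)} ℚ K]
    {ζ : K} (hζ : IsPrimitiveRoot ζ (p ^ (k + 1))) :
    ∃ F : ℕ, (p : 𝓞 K) ∣ (hζ.toInteger - 1) ^ F := by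
  have h := IsCyclotomicExtension.Rat.map_eq_span_zeta_sub_one_pow p k hζ
  rw [Ideal.map_span, Set.image_singleton, Ideal.span_singleton_pow,
    Ideal.span_singleton_eq_span_singleton] at h
  refine ⟨Module.finrank ℚ K, ?_⟩
  have h2 := h.dvd
  simpa using h2

theorem conj_root {N : ℕ} (hN : 0 < N) {z : ℂ} (hz : z ^ N = 1) :
    (starRingEnd ℂ) z = z ^ (N - 1) := by
  have h1 : ‖z‖ = 1 := Complex.norm_eq_one_of_pow_eq_one hz hN.ne'
  have h2 : z * (starRingEnd ℂ) z = 1 := by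
    rw [Complex.mul_conj, Complex.normSq_eq_norm_sq, h1]
    norm_num
  have h3 : z * z ^ (N - 1) = 1 := by
    rw [← pow_succ', Nat.sub_add_cancel hN]
    exact hz
  have h4 : z ≠ 0 := by
    rintro rfl
    rw [norm_zero] at h1
    exact zero_ne_one h1
  exact mul_left_cancel₀ h4 (h2.trans h3.symm)

end

theorem main (p b k : ℕ) (hp : p.Prime) (hp2 : p ≠ 2) (hk : 1 ≤ k) (ζ : ℂ)
    (hζ : IsPrimitiveRoot ζ (p ^ (k + 1))) (n : ℕ) (a : Fin n → ℕ)
    (h : ∀ t : ℕ, t.Coprime p → ‖∑ i, ζ ^ (t * a i)‖ ^ 2 = (p : ℝ) ^ b) :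
    ∃ u : ℂ, u ^ p = 1 ∧ ∀ s : ℕ, ∑ i, ζ ^ ((1 + s * p ^ k) * a i) = u ^ s * ∑ i, ζ ^ (a i) := by
  have : Fact p.Prime := ⟨hp⟩
  set N : ℕ := p ^ (k + 1) with hN
  have hN0 : 0 < N := Nat.pow_pos hp.pos
  have : NeZero N := ⟨hN0.ne'⟩
  let K := CyclotomicField N ℚ
  have : IsCyclotomicExtension {p ^ (k + 1)} ℚ K := CyclotomicField.isCyclotomicExtension N ℚ
  have : NumberField K := IsCyclotomicExtension.numberField {N} ℚ K
  set z : K := IsCyclotomicExtension.zeta N ℚ K with hz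
  have hzp : IsPrimitiveRoot z N := IsCyclotomicExtension.zeta_spec N ℚ K
  have hirr : Irreducible (Polynomial.cyclotomic N ℚ) := Polynomial.cyclotomic.irreducible_rat hN0
  -- the embedding
  obtain ⟨φ0, hφ0⟩ : ∃ φ : K →ₐ[ℚ] ℂ, φ z = ζ := by
    refine ⟨(hzp.embeddingsEquivPrimitiveRoots ℂ hirr).symm
      ⟨ζ, (mem_primitiveRoots hN0).2 hζ⟩, ?_⟩
    rw [← hzp.embeddingsEquivPrimitiveRoots_apply_coe ℂ hirr, Equiv.apply_symm_apply]
  have hφinj : Function.Injective φ0 := φ0.injective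
  -- coprimality
  have hcop : ∀ t : ℕ, t.Coprime N ↔ t.Coprime p := by
    intro t
    rw [hN, Nat.coprime_pow_right_iff (by omega)]
  have ht0 : (1 + p ^ k).Coprime p := by
    have h1 : p ∣ p ^ k := dvd_pow_self p (by omega)
    obtain ⟨c, hc⟩ := h1
    rw [hc]
    simp
  -- absolute values
  have habs : ∀ (ψ : K →+* ℂ) (t : ℕ), t.Coprime p → ‖ψ (∑ i, z ^ (t * a i))‖ ^ 2 = (p : ℝ) ^ b := by
    intro ψ t ht
    have h1 : IsPrimitiveRoot (ψ z) N := hzp.map_of_injective ψ.injective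
    obtain ⟨t0, ht0, ht1⟩ := hζ.eq_pow_of_pow_eq_one h1.pow_eq_one
    rw [← ht1] at h1
    have h2 := (hζ.pow_iff_coprime hN0 t0).1 h1
    rw [hcop] at h2
    rw [← h (t0 * t) (Nat.Coprime.mul_left h2 ht)]
    congr 2
    rw [map_sum]
    apply Finset.sum_congr rfl
    intro i _
    rw [map_pow, ← ht1, ← pow_mul, mul_assoc]
  -- integers
  set Z : 𝓞 K := hzp.toInteger with hZ
  have hZz : algebraMap (𝓞 K) K Z = z := rfl
  have hinjO : Function.Injective (algebraMap (𝓞 K) K) := RingOfIntegers.coe_injective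
  set x : 𝓞 K := ∑ i, Z ^ (a i) with hx
  have hxK : algebraMap (𝓞 K) K x = ∑ i, z ^ (a i) := by
    rw [hx, map_sum]
    simp only [map_pow, hZz]
  have hx1 : algebraMap (𝓞 K) K x = ∑ i, z ^ (1 * a i) := by
    rw [hxK]
    simp only [one_mul]
  have hnorm : x * (∑ i, Z ^ ((N - 1) * a i)) = (p : 𝓞 K) ^ b := by
    apply hinjO
    apply hφinj
    rw [map_mul, map_mul, hxK, map_sum, map_sum, map_sum, map_pow, map_pow, map_natCast,
      map_natCast]
    simp only [map_pow, hZz, hφ0]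
    have h1 : ∑ i, ζ ^ ((N - 1) * a i) = (starRingEnd ℂ) (∑ i, ζ ^ a i) := by
      rw [map_sum]
      apply Finset.sum_congr rfl
      intro i _
      rw [map_pow, conj_root hN0 hζ.pow_eq_one, ← pow_mul]
    rw [h1, Complex.mul_conj, Complex.normSq_eq_norm_sq]
    have h2 := h 1 (Nat.coprime_one_left p)
    simp only [one_mul] at h2
    rw [h2]
    push_cast
    rfl
  have hprime : Prime (Z - 1) := by
    have := hzp.zeta_sub_one_prime (p := p) (k := k)
    exact this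
  obtain ⟨F, hF⟩ := p_dvd (p := p) (k := k) hzp
  have hdvd : x ∣ (Z - 1) ^ (F * b) := by
    have h1 : x ∣ (p : 𝓞 K) ^ b := ⟨_, hnorm.symm⟩
    rw [pow_mul]
    exact h1.trans (pow_dvd_pow_of_dvd hF b)
  obtain ⟨m, -, hm⟩ := (dvd_prime_pow hprime _).1 hdvd
  obtain ⟨v, hv⟩ := hm.symm
  -- the automorphism
  have hμ : IsPrimitiveRoot (z ^ (1 + p ^ k)) N :=
    hzp.pow_of_coprime _ ((hcop _).2 ht0)
  obtain ⟨σ, hσ⟩ : ∃ σ : K ≃ₐ[ℚ] K, σ z = z ^ (1 + p ^ k) :=
    ⟨IsCyclotomicExtension.fromZetaAut hμ hirr, IsCyclotomicExtension.fromZetaAut_spec hμ hirr⟩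
  let σO : 𝓞 K →+* 𝓞 K := RingOfIntegers.mapRingHom σ
  have hσO : ∀ y : 𝓞 K, algebraMap (𝓞 K) K (σO y) = σ (algebraMap (𝓞 K) K y) := fun y => rfl
  have hσZ : σO Z = Z ^ (1 + p ^ k) := by
    apply hinjO
    rw [hσO, map_pow, hZz, hσ]
  have hσπ : (Z - 1) ∣ σO (Z - 1) := by
    rw [map_sub, map_one, hσZ]
    exact sub_one_dvd_pow_sub_one Z (1 + p ^ k)
  obtain ⟨c, hc⟩ := hσπ
  have hσx : ∃ w : 𝓞 K, σO x = w * x := by
    refine ⟨c ^ m * σO v * (↑v⁻¹ : 𝓞 K), ?_⟩
    rw [← hv, map_mul, map_pow, hc, mul_pow]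
    have h1 : (↑v⁻¹ : 𝓞 K) * (v : 𝓞 K) = 1 := v.inv_mul
    linear_combination (-(c ^ m * σO v * (Z - 1) ^ m)) * h1
  obtain ⟨w, hw⟩ := hσx
  set wK : K := algebraMap (𝓞 K) K w with hwK
  set xK : K := ∑ i, z ^ (a i) with hxK'
  have hσxK : σ xK = wK * xK := by
    rw [← hxK, ← hσO, hw, map_mul]
  have hσxK2 : σ xK = ∑ i, z ^ ((1 + p ^ k) * a i) := by
    rw [hxK', map_sum]
    apply Finset.sum_congr rfl
    intro i _
    rw [map_pow, hσ, ← pow_mul]
  have hx0 : xK ≠ 0 := by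
    intro h0
    have h1 := habs (φ0 : K →+* ℂ) 1 (Nat.coprime_one_left p)
    simp only [one_mul] at h1
    rw [← hxK', h0, map_zero, norm_zero] at h1
    have h2 : (0:ℝ) < (p : ℝ) ^ b := by
      have := hp.pos
      positivity
    norm_num at h1
    linarith
  have hwabs : ∀ ψ : K →+* ℂ, ‖ψ wK‖ = 1 := by
    intro ψ
    have h1 := habs ψ (1 + p ^ k) ht0
    have h2 := habs ψ 1 (Nat.coprime_one_left p)
    simp only [one_mul] at h2
    rw [← hσxK2, hσxK, map_mul, norm_mul, mul_pow, h2] at h1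
    have h3 : (0:ℝ) < (p : ℝ) ^ b := by
      have := hp.pos
      positivity
    have h4 : ‖ψ wK‖ ^ 2 = 1 := by
      have := mul_right_cancel₀ h3.ne' (h1.trans (one_mul _).symm)
      exact this
    nlinarith [norm_nonneg (ψ wK)]
  have hwint : IsIntegral ℤ wK := w.isIntegral_coe
  obtain ⟨m', hm'0, hm'⟩ := NumberField.Embeddings.pow_eq_one_of_norm_eq_one K ℂ hwint hwabs
  have hodd : Odd N := (hp.odd_of_ne_two hp2).pow
  obtain ⟨r, -, hr⟩ := hzp.exists_pow_or_neg_mul_pow_of_isOfFinOrder hodd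
    (isOfFinOrder_iff_pow_eq_one.2 ⟨m', hm'0, hm'⟩)
  -- ω
  set ω : K := z ^ (p ^ k) with hω
  have hωp : IsPrimitiveRoot ω p := hzp.pow hN0 (by rw [hN, pow_succ])
  have hσz : σ z = z * ω := by
    rw [hσ, pow_add, pow_one]
  have hσω : σ ω = ω := by
    rw [hω, map_pow, hσz, mul_pow, ← hω]
    have : ω ^ p ^ k = 1 := by
      obtain ⟨c', hc'⟩ := dvd_pow_self p (show k ≠ 0 by omega)
      rw [hc', pow_mul, hωp.pow_eq_one, one_pow]
    rw [this, mul_one]
  have hσw : σ wK = wK * ω ^ r := by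
    rcases hr with hr | hr
    · rw [hr, map_pow, hσz, mul_pow]
    · rw [hr, map_neg, map_pow, hσz, mul_pow, neg_mul]
  -- the sequence
  let X : ℕ → K := fun s => ∑ i, (z * ω ^ s) ^ (a i)
  have hX0 : X 0 = xK := by
    simp only [X, pow_zero, mul_one, hxK']
  have hXσ : ∀ s, X (s + 1) = σ (X s) := by
    intro s
    simp only [X]
    rw [map_sum]
    apply Finset.sum_congr rfl
    intro i _
    rw [map_pow, map_mul, map_pow, hσω, hσz]
    congr 1
    ring
  have hXs : ∀ s, X s = wK ^ s * ω ^ (r * ∑ i ∈ Finset.range s, i) * xK := by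
    intro s
    induction s with
    | zero => simp [hX0]
    | succ s ih =>
      rw [hXσ, ih, map_mul, map_mul, map_pow, map_pow, hσω, hσw, hσxK, Finset.sum_range_succ,
        mul_add, pow_add, mul_pow, ← pow_mul]
      ring
  have hXp : X p = X 0 := by
    simp only [X, hωp.pow_eq_one, pow_zero]
  have hsum : p ∣ ∑ i ∈ Finset.range p, i := by
    have h1 := Finset.sum_range_id_mul_two p
    have h2 : p ∣ (∑ i ∈ Finset.range p, i) * 2 := by
      rw [h1]
      exact Dvd.intro _ rfl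
    rcases (Nat.Prime.dvd_mul hp).1 h2 with h3 | h3
    · exact h3
    · exact absurd ((Nat.prime_dvd_prime_iff_eq hp Nat.prime_two).1 h3) hp2
  have hwp : wK ^ p = 1 := by
    obtain ⟨c', hc'⟩ := hsum
    have h1 := hXs p
    rw [hXp, hX0, hc'] at h1
    have h2 : ω ^ (r * (p * c')) = 1 := by
      rw [show r * (p * c') = p * (r * c') by ring, pow_mul, hωp.pow_eq_one, one_pow]
    rw [h2, mul_one] at h1
    have h3 : (1 : K) * xK = wK ^ p * xK := by rw [one_mul]; exact h1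
    exact (mul_right_cancel₀ hx0 h3).symm
  obtain ⟨i, -, hi⟩ := hωp.eq_pow_of_pow_eq_one hwp
  have hw0 : wK ≠ 0 := by
    intro h0
    rw [h0, zero_pow hp.ne_zero] at hwp
    exact zero_ne_one hwp
  have hωr : ω ^ r = 1 := by
    have h1 : σ wK = wK := by
      rw [← hi, map_pow, hσω]
    rw [hσw] at h1
    have h2 : wK * ω ^ r = wK * 1 := by rw [h1, mul_one]
    exact mul_left_cancel₀ hw0 h2
  refine ⟨φ0 wK, by rw [← map_pow, hwp, map_one], fun s => ?_⟩
  have h1 := congrArg φ0 (hXs s)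
  rw [pow_mul, hωr, one_pow, mul_one, map_mul, map_pow] at h1
  simp only [X, hxK', map_sum, map_pow, map_mul, hφ0, hω] at h1
  rw [← h1]
  apply Finset.sum_congr rfl
  intro i _
  rw [← pow_mul, ← pow_succ', ← pow_mul]
  congr 1
  ring

end A1aux

theorem A1 : S_A1 := by
  intro p b e hp hp2 he ζ hζ k a h
  obtain ⟨j, rfl⟩ : ∃ j, e = j + 1 := ⟨e - 1, by omega⟩
  have := A1aux.main p b j hp hp2 (by omega) ζ hζ k a h
  simpa using this

end Pool.Agent.H176RD
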