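import Pool.Agent.H176RD.Defs

set_option autoImplicit false

namespace Pool.Agent.H176RD

open Finset

theorem A2 (hA1 : S_A1) (hBF1 : S_BF1) : S_A2 := by
  classical
  intro G _ _ p b e N D h χ hχ
  have hp := h.hp
  have hpe : p ^ e ≠ 0 := pow_ne_zero _ hp.ne_zero
  set ζ : ℂ := Complex.exp (2 * Real.pi * Complex.I / (p ^ e : ℕ)) with hζd
  have hζ : IsPrimitiveRoot ζ (p ^ e) := Complex.isPrimitiveRoot_exp (p ^ e) hpe
  have hpow : ∀ g : G, χ g ^ (p ^ e) = 1 := by
    intro g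
    rw [← AddChar.map_nsmul_eq_pow, h.exp g, AddChar.map_zero_eq_one]
  have hex : ∀ g : G, ∃ a : ℕ, ζ ^ a = χ g := by
    intro g
    have : NeZero (p ^ e) := ⟨hpe⟩
    obtain ⟨i, _, hi⟩ := hζ.eq_pow_of_pow_eq_one (hpow g)
    exact ⟨i, hi⟩
  choose a ha using hex
  have hsum : ∀ f : G → ℂ, ∑ i : Fin D.card, f (D.equivFin.symm i) = ∑ d ∈ D, f d := by
    intro f
    rw [Equiv.sum_comp D.equivFin.symm (fun d : D => f d), Finset.sum_coe_sort]
  have key : ∀ t : ℕ, ∑ i : Fin D.card, ζ ^ (t * a (D.equivFin.symm i)) = ∑ d ∈ D, χ d ^ t := by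
    intro t
    rw [hsum (fun d => ζ ^ (t * a d))]
    refine Finset.sum_congr rfl fun d _ => ?_
    rw [mul_comm, pow_mul, ha]
  obtain ⟨g, hgN, hg⟩ := hχ
  obtain ⟨u, hu, hs⟩ := hA1 p b e hp h.h2 h.he ζ hζ D.card
    (fun i => a (D.equivFin.symm i)) (by
      intro t ht
      rw [key t]
      have h1 := hBF1 G p b e N D h (χ ^ t) ⟨g, hgN, by
        rw [AddChar.pow_apply]
        intro h2
        apply hg
        have d1 : orderOf (χ g) ∣ t := orderOf_dvd_of_pow_eq_one h2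
        have d2 : orderOf (χ g) ∣ p ^ e := orderOf_dvd_of_pow_eq_one (hpow g)
        have d3 : orderOf (χ g) ∣ 1 := by
          have := Nat.dvd_gcd d1 d2
          rwa [(Nat.Coprime.pow_right e ht : Nat.gcd t (p ^ e) = 1)] at this
        exact orderOf_eq_one_iff.1 (Nat.dvd_one.1 d3)⟩
      simpa only [AddChar.pow_apply] using h1)
  refine ⟨u, hu, fun s => ?_⟩
  have h1 := hs s
  rw [key (1 + s * p ^ (e - 1))] at h1
  have h2 : ∑ i : Fin D.card, ζ ^ (a (D.equivFin.symm i)) = ∑ d ∈ D, χ d := by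
    have := key 1
    simpa only [one_mul, pow_one] using this
  rw [h2] at h1
  rw [← h1]
  refine Finset.sum_congr rfl fun d _ => ?_
  have e1 : d + s • lam p e d = (1 + s * p ^ (e - 1)) • d := by
    show d + s • (p ^ (e - 1) • d) = _
    rw [smul_smul, add_smul, one_smul]
  rw [e1, AddChar.map_nsmul_eq_pow]

end Pool.Agent.H176RD
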