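import Pool.Agent.H176RD.Defs

set_option autoImplicit false

/-! Arithmetic lemma (helper509). -/

namespace Pool.Agent.H176RD

open Finset Classical

theorem AR : S_AR := by
  intro p hp h5 ι _ hι m s t hm hs ht hmi hsum
  obtain ⟨β, hβ⟩ : ∃ β : ℕ, m + β = p ^ 2 := ⟨p ^ 2 - m, by omega⟩
  choose τ hτ using fun i => Nat.exists_eq_add_of_le (ht i)
  choose σ hσ using fun i => Nat.exists_eq_add_of_le (hs i)
  have hpt : ∀ i, p - t i = τ i := fun i => by have := hτ i; omega
  have hps : ∀ i, p - s i = σ i := fun i => by have := hσ i; omega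
  simp only [hpt] at hsum ⊢
  simp only [hps] at hmi
  have hprod : ∀ i, σ i * τ i = β := by
    intro i
    have h2 := hτ i
    have h3 := hσ i
    have h1 := hmi i
    have e1 : (m : ℤ) = s i * p + σ i * t i := by exact_mod_cast h1
    have e2 : (p : ℤ) = t i + τ i := by exact_mod_cast h2
    have e3 : (p : ℤ) = s i + σ i := by exact_mod_cast h3
    have e4 : (m : ℤ) + β = p ^ 2 := by exact_mod_cast hβ
    have e5 : (σ i : ℤ) * τ i = β := by
      linear_combination -e4 + e1 - (σ i : ℤ) * e2 - (p : ℤ) * e3
    exact_mod_cast e5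
  have hτsum : ∑ i, τ i = p + β := by
    have h1 : p * ∑ i, τ i = ∑ i, s i * τ i + ∑ i, σ i * τ i := by
      rw [Finset.mul_sum, ← Finset.sum_add_distrib]
      refine Finset.sum_congr rfl fun i _ => ?_
      rw [← add_mul, ← hσ i]
    rw [hsum, Finset.sum_congr rfl (fun i _ => hprod i), Finset.sum_const, Finset.card_univ, hι,
      smul_eq_mul] at h1
    have h2 : p * ∑ i, τ i = p * (p + β) := by
      rw [h1]
      nlinarith
    exact Nat.eq_of_mul_eq_mul_left hp.pos h2
  have hne : Nonempty ι := by
    rw [← Fintype.card_pos_iff, hι]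
    omega
  have hτp : ∀ i, τ i ≤ p := fun i => by have := hτ i; omega
  by_cases hd : p ∣ β
  · rcases Nat.eq_zero_or_pos β with h0 | hpos
    · right
      have hmp : m = p ^ 2 := by omega
      refine ⟨?_, ?_⟩
      · rw [hmp]
        have : 5 * p ≤ p ^ 2 := by nlinarith
        omega
      · intro h
        rw [hmp, h]
        norm_num
    · left
      by_cases hall : ∃ i, τ i = p
      · obtain ⟨i, hi⟩ := hall
        refine ⟨i, ?_⟩
        have h1 : t i = 0 := by have := hτ i; omega
        rw [hi, hmi i, h1, mul_zero, add_zero]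
      · push Not at hall
        have hs0 : ∀ i, s i = 0 := by
          intro i
          have hpi := hprod i
          have hσ0 : 0 < σ i := by
            rcases Nat.eq_zero_or_pos (σ i) with h | h
            · rw [h, zero_mul] at hpi; omega
            · exact h
          have hτ0 : 0 < τ i := by
            rcases Nat.eq_zero_or_pos (τ i) with h | h
            · rw [h, mul_zero] at hpi; omega
            · exact h
          rw [← hpi] at hd
          rcases (hp.dvd_mul).1 hd with h | h
          · have h1 := Nat.le_of_dvd hσ0 h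
            have := hσ i
            omega
          · have h1 := Nat.le_of_dvd hτ0 h
            exact absurd (le_antisymm (hτp i) h1) (hall i)
        have hm0 : m = 0 := by
          rw [← hsum]
          exact Finset.sum_eq_zero fun i _ => by rw [hs0 i, zero_mul]
        obtain ⟨i⟩ := hne
        exact ⟨i, by rw [hs0 i, zero_mul, hm0]⟩
  · right
    have hs1 : ∀ i, 1 ≤ s i := by
      intro i
      by_contra h
      have h1 : s i = 0 := by omega
      have h2 : σ i = p := by have := hσ i; omega
      apply hd
      rw [← hprod i, h2]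
      exact dvd_mul_right _ _
    obtain ⟨k, hk⟩ : Odd p := hp.odd_of_ne_two (by omega)
    have hσk : ∀ i, σ i ≤ 2 * k := fun i => by have := hσ i; have := hs1 i; omega
    have hb : ∀ i, β ≤ 2 * k * τ i := fun i => by
      rw [← hprod i]
      exact Nat.mul_le_mul_right _ (hσk i)
    have hβ2 : β ≤ 2 * k ^ 2 := by
      by_contra hcon
      push Not at hcon
      have hτk : ∀ i, k + 1 ≤ τ i := by
        intro i
        by_contra h
        have h1 : τ i ≤ k := by omega
        have h2 := hb i
        have h3 : 2 * k * τ i ≤ 2 * k * k := Nat.mul_le_mul_left _ h1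
        nlinarith
      have h1 : (p + 1) * (k + 1) ≤ ∑ i, τ i := by
        have h2 : ∑ _i : ι, (k + 1) ≤ ∑ i, τ i := Finset.sum_le_sum fun i _ => hτk i
        rwa [Finset.sum_const, Finset.card_univ, hι, smul_eq_mul] at h2
      have h3 : (p + 1) * β ≤ 2 * k * ∑ i, τ i := by
        have h4 : ∑ _i : ι, β ≤ ∑ i, 2 * k * τ i := Finset.sum_le_sum fun i _ => hb i
        rwa [Finset.sum_const, Finset.card_univ, hι, smul_eq_mul, ← Finset.mul_sum] at h4
      rw [hτsum] at h1 h3
      rw [hk] at h1 h3
      nlinarith
    refine ⟨?_, ?_⟩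
    · rw [hk] at hβ ⊢
      have e1 : (2 * k + 1) ^ 2 = 4 * k ^ 2 + 4 * k + 1 := by ring
      rw [e1] at hβ ⊢
      omega
    · intro hp5
      have hk2 : k = 2 := by omega
      have hβ8 : β ≤ 8 := by rw [hk2] at hβ2; norm_num at hβ2; exact hβ2
      have hm25 : m + β = 25 := by rw [hβ, hp5]; norm_num
      suffices hβ4 : β ≤ 4 by omega
      have hτ5 : ∀ i, τ i ≤ 5 := fun i => by have := hτp i; omega
      have hσ4 : ∀ i, σ i ≤ 4 := fun i => by have := hσk i; omega
      by_contra hcon
      have hcases : β = 5 ∨ β = 6 ∨ β = 7 ∨ β = 8 := by omega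
      rcases hcases with h | h | h | h
      · apply hd
        rw [h, hp5]
      · have h2 : ∀ i, 2 ≤ τ i := by
          intro i
          have h3 := hprod i
          rw [h] at h3
          by_contra h4
          have h5 : τ i = 0 ∨ τ i = 1 := by omega
          have h6 := hσ4 i
          rcases h5 with h5 | h5 <;> rw [h5] at h3 <;> omega
        have h7 : ∑ _i : ι, 2 ≤ ∑ i, τ i := Finset.sum_le_sum fun i _ => h2 i
        rw [Finset.sum_const, Finset.card_univ, hι, smul_eq_mul, hτsum] at h7
        omega
      · obtain ⟨i⟩ := hne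
        have h3 := hprod i
        rw [h] at h3
        have h4 := hτ5 i
        have h6 := hσ4 i
        interval_cases (σ i) <;> omega
      · have h2 : ∀ i, 2 ∣ τ i := by
          intro i
          have h3 := hprod i
          rw [h] at h3
          have h4 := hτ5 i
          have h6 := hσ4 i
          interval_cases (σ i) <;> omega
        have h7 : 2 ∣ ∑ i, τ i := Finset.dvd_sum fun i _ => h2 i
        rw [hτsum] at h7
        omega

end Pool.Agent.H176RD
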