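import Pool.Agent.H176RD.Defs

set_option autoImplicit false

/-! B1: the fourth moment identity. -/

namespace Pool.Agent.H176RD

open Finset Classical

namespace B1aux

variable {G : Type} [AddCommGroup G] [Fintype G]

/-- the characters that are trivial on `H` -/
noncomputable def TT1 (H : AddSubgroup G) : Finset (AddChar G ℂ) :=
  univ.filter (fun χ => ∀ h ∈ H, χ h = 1)

theorem mem_TT1 {H : AddSubgroup G} {χ : AddChar G ℂ} : χ ∈ TT1 H ↔ ∀ h ∈ H, χ h = 1 := by
  unfold TT1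
  rw [mem_filter]
  exact ⟨fun h => h.2, fun h => ⟨mem_univ _, h⟩⟩

theorem exists_char {H : AddSubgroup G} {g : G} (hg : g ∉ H) : ∃ χ ∈ TT1 H, χ g ≠ 1 := by
  have h0 : (QuotientAddGroup.mk' H g : G ⧸ H) ≠ 0 := by
    intro h
    exact hg ((QuotientAddGroup.eq_zero_iff g).mp h)
  obtain ⟨ψ, hψ⟩ := AddChar.exists_apply_ne_zero.mpr h0
  refine ⟨ψ.compAddMonoidHom (QuotientAddGroup.mk' H), ?_, ?_⟩
  · rw [mem_TT1]
    intro h hh
    rw [AddChar.compAddMonoidHom_apply]
    have : (QuotientAddGroup.mk' H h : G ⧸ H) = 0 := (QuotientAddGroup.eq_zero_iff h).mpr hh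
    rw [this, AddChar.map_zero_eq_one]
  · rw [AddChar.compAddMonoidHom_apply]
    exact hψ

theorem sum_TT1 (H : AddSubgroup G) (g : G) :
    ∑ χ ∈ TT1 H, χ g = if g ∈ H then ((TT1 H).card : ℂ) else 0 := by
  split_ifs with hg
  · rw [Finset.sum_congr rfl (fun χ hχ => mem_TT1.mp hχ g hg), Finset.sum_const, nsmul_eq_mul,
      mul_one]
  · obtain ⟨χ₀, h0, h1⟩ := exists_char hg
    have hs : ∑ χ ∈ TT1 H, χ g = ∑ χ ∈ TT1 H, χ₀ g * χ g := by
      refine (Finset.sum_equiv (Equiv.mulLeft χ₀) ?_ ?_).symm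
      · intro χ
        rw [mem_TT1, mem_TT1]
        constructor
        · intro h x hx
          rw [Equiv.coe_mulLeft, AddChar.mul_apply, mem_TT1.mp h0 x hx, h x hx, mul_one]
        · intro h x hx
          have := h x hx
          rwa [Equiv.coe_mulLeft, AddChar.mul_apply, mem_TT1.mp h0 x hx, one_mul] at this
      · intro χ _
        rw [Equiv.coe_mulLeft, AddChar.mul_apply]
    rw [← Finset.mul_sum] at hs
    have h2 : (1 - χ₀ g) * ∑ χ ∈ TT1 H, χ g = 0 := by
      rw [sub_mul, one_mul, ← hs, sub_self]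
    rcases mul_eq_zero.mp h2 with h3 | h3
    · exact absurd (sub_eq_zero.mp h3).symm h1
    · exact h3

theorem card_TT1 (H : AddSubgroup G) : (TT1 H).card * Nat.card H = Fintype.card G := by
  have h1 : ∑ g : G, ∑ χ ∈ TT1 H, χ g = (Fintype.card G : ℂ) := by
    rw [Finset.sum_comm]
    have h2 : ∀ χ ∈ TT1 H, ∑ g : G, χ g = if χ = 0 then (Fintype.card G : ℂ) else 0 :=
      fun χ _ => AddChar.sum_eq_ite χ
    rw [Finset.sum_congr rfl h2, Finset.sum_ite_eq' (TT1 H) (0 : AddChar G ℂ), if_pos]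
    rw [mem_TT1]
    intro h _
    exact AddChar.zero_apply h
  rw [Finset.sum_congr rfl (fun g _ => sum_TT1 H g), ← Finset.sum_filter, Finset.sum_const,
    nsmul_eq_mul] at h1
  have h3 : (univ.filter (fun g : G => g ∈ H)).card = Nat.card H := by
    rw [Nat.card_eq_fintype_card, Fintype.card_subtype]
  rw [h3] at h1
  have h4 : ((TT1 H).card : ℂ) * (Nat.card H : ℂ) = (Fintype.card G : ℂ) := by
    rw [mul_comm]; exact h1
  exact_mod_cast h4

omit [AddCommGroup G] [Fintype G] in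
theorem cnt_eq_sum (D : Finset G) (Q : G → G → Prop) :
    (cnt D Q : ℂ) = ∑ d1 ∈ D, ∑ d2 ∈ D, if Q d1 d2 then 1 else 0 := by
  unfold cnt
  rw [Finset.card_filter]
  push_cast
  rw [Finset.sum_product]

omit [AddCommGroup G] [Fintype G] in
theorem cnt4_eq_sum (D : Finset G) (Q : G → G → G → G → Prop) :
    (cnt4 D Q : ℂ) = ∑ d1 ∈ D, ∑ d2 ∈ D, ∑ d3 ∈ D, ∑ d4 ∈ D,
      if Q d1 d2 d3 d4 then 1 else 0 := by
  unfold cnt4
  rw [Finset.card_filter]
  push_cast
  rw [Finset.sum_product]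
  refine Finset.sum_congr rfl fun d1 _ => ?_
  rw [Finset.sum_product]
  refine Finset.sum_congr rfl fun d2 _ => ?_
  rw [Finset.sum_product]

/-- second moment -/
noncomputable def AA (D : Finset G) (R : G → G → Prop) (χ : AddChar G ℂ) : ℂ :=
  ∑ d1 ∈ D, ∑ d2 ∈ D, if R d1 d2 then χ (d1 - d2) else 0

/-- fourth moment -/
noncomputable def BB (D : Finset G) (R : G → G → Prop) (χ : AddChar G ℂ) : ℂ :=
  ∑ d1 ∈ D, ∑ d2 ∈ D, ∑ d3 ∈ D, ∑ d4 ∈ D,
    if R d1 d2 ∧ R d1 d3 ∧ R d1 d4 then χ (d1 - d2 + d3 - d4) else 0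

theorem sum_AA (D : Finset G) (R : G → G → Prop) (H : AddSubgroup G) :
    ∑ χ ∈ TT1 H, AA D R χ =
      ((TT1 H).card : ℂ) * (cnt D (fun x y => R x y ∧ x - y ∈ H) : ℂ) := by
  unfold AA
  rw [cnt_eq_sum, Finset.sum_comm, Finset.mul_sum]
  refine Finset.sum_congr rfl fun d1 _ => ?_
  rw [Finset.sum_comm, Finset.mul_sum]
  refine Finset.sum_congr rfl fun d2 _ => ?_
  by_cases hR : R d1 d2
  · simp only [hR, if_true, true_and]
    rw [sum_TT1]
    split_ifs <;> simp
  · simp [hR]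

theorem sum_BB (D : Finset G) (R : G → G → Prop) (H : AddSubgroup G) :
    ∑ χ ∈ TT1 H, BB D R χ =
      ((TT1 H).card : ℂ) * (cnt4 D (fun d1 d2 d3 d4 => R d1 d2 ∧ R d1 d3 ∧ R d1 d4 ∧
        d1 - d2 + d3 - d4 ∈ H) : ℂ) := by
  unfold BB
  rw [cnt4_eq_sum, Finset.sum_comm, Finset.mul_sum]
  refine Finset.sum_congr rfl fun d1 _ => ?_
  rw [Finset.sum_comm, Finset.mul_sum]
  refine Finset.sum_congr rfl fun d2 _ => ?_
  rw [Finset.sum_comm, Finset.mul_sum]
  refine Finset.sum_congr rfl fun d3 _ => ?_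
  rw [Finset.sum_comm, Finset.mul_sum]
  refine Finset.sum_congr rfl fun d4 _ => ?_
  by_cases hR : R d1 d2 ∧ R d1 d3 ∧ R d1 d4
  · obtain ⟨h1, h2, h3⟩ := hR
    simp only [h1, h2, h3, if_true, true_and]
    rw [sum_TT1]
    split_ifs <;> simp
  · have hR' : ¬ (R d1 d2 ∧ R d1 d3 ∧ R d1 d4 ∧ d1 - d2 + d3 - d4 ∈ H) :=
      fun h => hR ⟨h.1, h.2.1, h.2.2.1⟩
    simp [hR, hR']

theorem conj_char (χ : AddChar G ℂ) (g : G) : (starRingEnd ℂ) (χ g) = χ (-g) :=
  (AddChar.map_neg_eq_conj χ g).symm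

omit [AddCommGroup G] [Fintype G] in
theorem prod_sums (D : Finset G) (c : ℂ) (u v w : G → ℂ) :
    c * (∑ d ∈ D, u d) * ((∑ d ∈ D, v d) * ∑ d ∈ D, w d) =
      ∑ d2 ∈ D, ∑ d3 ∈ D, ∑ d4 ∈ D, c * u d2 * (v d3 * w d4) := by
  rw [Finset.mul_sum, Finset.sum_mul]
  refine Finset.sum_congr rfl fun d2 _ => ?_
  rw [Finset.sum_mul_sum, Finset.mul_sum]
  refine Finset.sum_congr rfl fun d3 _ => ?_
  rw [Finset.mul_sum]

/-- the key identity -/
theorem BB_eq (D : Finset G) (R : G → G → Prop) (χ : AddChar G ℂ) (f : G → ℂ) (n : ℂ)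
    (hR : ∀ x y, R x y ↔ f x = f y)
    (hX : ∀ z : ℂ, (∑ d ∈ D.filter (fun d => f d = z), χ d) = 0 ∨
      (∑ d ∈ D.filter (fun d => f d = z), χ d) *
        (starRingEnd ℂ) (∑ d ∈ D.filter (fun d => f d = z), χ d) = n) :
    BB D R χ = n * AA D R χ := by
  unfold AA BB
  rw [Finset.mul_sum]
  refine Finset.sum_congr rfl fun d1 _ => ?_
  set X : ℂ := ∑ d ∈ D.filter (fun d => f d = f d1), χ d with hXd
  have hXc : (starRingEnd ℂ) X = ∑ d ∈ D, if R d1 d then χ (-d) else 0 := by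
    rw [hXd, map_sum, Finset.sum_filter]
    refine Finset.sum_congr rfl fun d _ => ?_
    have : R d1 d ↔ f d = f d1 := by rw [hR]; exact eq_comm
    simp only [this]
    split_ifs
    · exact conj_char χ d
    · rfl
  have hXs : X = ∑ d ∈ D, if R d1 d then χ d else 0 := by
    rw [hXd, Finset.sum_filter]
    refine Finset.sum_congr rfl fun d _ => ?_
    have : R d1 d ↔ f d = f d1 := by rw [hR]; exact eq_comm
    simp only [this]
  have hA : (∑ d2 ∈ D, if R d1 d2 then χ (d1 - d2) else 0) = χ d1 * (starRingEnd ℂ) X := by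
    rw [hXc, Finset.mul_sum]
    refine Finset.sum_congr rfl fun d2 _ => ?_
    split_ifs
    · rw [sub_eq_add_neg, AddChar.map_add_eq_mul]
    · rw [mul_zero]
  have hB : (∑ d2 ∈ D, ∑ d3 ∈ D, ∑ d4 ∈ D,
      if R d1 d2 ∧ R d1 d3 ∧ R d1 d4 then χ (d1 - d2 + d3 - d4) else 0) =
      χ d1 * (starRingEnd ℂ) X * (X * (starRingEnd ℂ) X) := by
    calc _ = ∑ d2 ∈ D, ∑ d3 ∈ D, ∑ d4 ∈ D, χ d1 * (if R d1 d2 then χ (-d2) else 0) *
          ((if R d1 d3 then χ d3 else 0) * (if R d1 d4 then χ (-d4) else 0)) := by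
          refine Finset.sum_congr rfl fun d2 _ => Finset.sum_congr rfl fun d3 _ =>
            Finset.sum_congr rfl fun d4 _ => ?_
          by_cases h2 : R d1 d2
          · by_cases h3 : R d1 d3
            · by_cases h4 : R d1 d4
              · simp only [h2, h3, h4, and_self, if_true]
                rw [sub_eq_add_neg, sub_eq_add_neg, AddChar.map_add_eq_mul,
                  AddChar.map_add_eq_mul, AddChar.map_add_eq_mul]
                ring
              · simp [h4]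
            · simp [h3]
          · simp [h2]
      _ = χ d1 * (∑ d ∈ D, if R d1 d then χ (-d) else 0) *
          ((∑ d ∈ D, if R d1 d then χ d else 0) * ∑ d ∈ D, if R d1 d then χ (-d) else 0) :=
          (prod_sums D (χ d1) _ _ _).symm
      _ = _ := by rw [← hXc, ← hXs]
  rw [hA, hB]
  rcases hX (f d1) with h | h
  · rw [← hXd] at h
    rw [h]; simp
  · rw [← hXd] at h
    rw [h]; ring

omit [AddCommGroup G] [Fintype G] in
theorem exp_eq_one_of {z : ℂ} {n : ℕ} {r : ℝ} (_ : n = n) (h : ‖z‖ ^ 2 = r) :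
    z * (starRingEnd ℂ) z = (r : ℂ) := by
  rw [Complex.mul_conj, Complex.normSq_eq_norm_sq, h]

/-- the kernel on `P` of a character that is trivial on `L` and not on `P` is `L` -/
theorem ker_eq {p : ℕ} (hp : p.Prime) {L P : AddSubgroup G} (hLP : L ≤ P)
    (hc : p * Nat.card L = Nat.card P) {χ : AddChar G ℂ} (hL : χ ∈ TT1 L) (hP : χ ∉ TT1 P)
    {x : G} (hx : x ∈ P) (h1 : χ x = 1) : x ∈ L := by
  rw [mem_TT1] at hL hP
  let K : AddSubgroup G :=
    { carrier := {y | y ∈ P ∧ χ y = 1}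
      zero_mem' := ⟨P.zero_mem, AddChar.map_zero_eq_one χ⟩
      add_mem' := by
        rintro a b ⟨ha, ha'⟩ ⟨hb, hb'⟩
        exact ⟨P.add_mem ha hb, by rw [AddChar.map_add_eq_mul, ha', hb', mul_one]⟩
      neg_mem' := by
        rintro a ⟨ha, ha'⟩
        refine ⟨P.neg_mem ha, ?_⟩
        have : χ (-a) * χ a = 1 := by
          rw [← AddChar.map_add_eq_mul, neg_add_cancel, AddChar.map_zero_eq_one]
        rwa [ha', mul_one] at this }
  have hKP : K ≤ P := fun y hy => hy.1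
  have hLK : L ≤ K := fun y hy => ⟨hLP hy, hL y hy⟩
  have hd1 : Nat.card L ∣ Nat.card K := AddSubgroup.card_dvd_of_le hLK
  have hd2 : Nat.card K ∣ Nat.card P := AddSubgroup.card_dvd_of_le hKP
  have hLpos : 0 < Nat.card L := Nat.card_pos
  obtain ⟨q, hq⟩ := hd1
  rw [← hc, hq, mul_comm p] at hd2
  have hqp : q ∣ p := Nat.dvd_of_mul_dvd_mul_left hLpos hd2
  rcases (Nat.dvd_prime hp).mp hqp with rfl | rfl
  · rw [mul_one] at hq
    have hKL : (K : Set G) = L := by
      symm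
      apply Set.eq_of_subset_of_ncard_le (by exact hLK)
      · have e1 : (K : Set G).ncard = Nat.card K := rfl
        have e2 : (L : Set G).ncard = Nat.card L := rfl
        rw [e1, e2, hq]
    have hxK : x ∈ (K : Set G) := ⟨hx, h1⟩
    rw [hKL] at hxK
    exact hxK
  · exfalso
    apply hP
    have hKP' : (K : Set G) = P := by
      apply Set.eq_of_subset_of_ncard_le (by exact hKP)
      · have e1 : (K : Set G).ncard = Nat.card K := rfl
        have e2 : (P : Set G).ncard = Nat.card P := rfl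
        rw [e1, e2, ← hc, hq, mul_comm]
    intro h hh
    have : h ∈ (K : Set G) := by rw [hKP']; exact hh
    exact this.2

end B1aux

open B1aux

theorem B1 (hSL : S_SL) (hBF1 : S_BF1) : S_B1 := by
  intro G _ _ p b e N D hyp L hLP hc
  set P := PP G p e with hP
  set R : G → G → Prop := fun x y => lam p e x - lam p e y ∈ L with hR
  have hsub : TT1 P ⊆ TT1 L := by
    intro χ hχ
    rw [mem_TT1] at hχ ⊢
    exact fun h hh => hχ h (hLP hh)
  have hkey : ∀ χ ∈ TT1 L \ TT1 P, BB D R χ = (p : ℂ) ^ b * AA D R χ := by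
    intro χ hχ
    rw [Finset.mem_sdiff] at hχ
    obtain ⟨hχL, hχP⟩ := hχ
    refine BB_eq D R χ (fun x => χ (lam p e x)) _ ?_ ?_
    · intro x y
      constructor
      · intro h
        have h1 := mem_TT1.mp hχL _ h
        have h2 : χ (lam p e x) = χ (lam p e x - lam p e y) * χ (lam p e y) := by
          rw [← AddChar.map_add_eq_mul, sub_add_cancel]
        rw [h2, h1, one_mul]
      · intro h
        refine ker_eq hyp.hp hLP hc hχL hχP ?_ ?_
        · exact P.sub_mem ⟨x, rfl⟩ ⟨y, rfl⟩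
        · have h2 : χ (lam p e x - lam p e y) * χ (lam p e y) = 1 * χ (lam p e y) := by
            rw [← AddChar.map_add_eq_mul, sub_add_cancel, one_mul]
            exact h
          have h3 : χ (lam p e y) ≠ 0 := by
            intro h0
            have h4 : χ (lam p e y) * χ (-(lam p e y)) = 1 := by
              rw [← AddChar.map_add_eq_mul, add_neg_cancel, AddChar.map_zero_eq_one]
            rw [h0, zero_mul] at h4
            exact zero_ne_one h4
          exact mul_right_cancel₀ h3 h2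
    · intro z
      obtain ⟨h1, h2⟩ := hSL G p b e N D hyp χ
      by_cases hN : ∃ g ∈ N, χ g ≠ 1
      · obtain ⟨u, -, hu⟩ := h1 hN
        rw [hu z]
        split_ifs
        · right
          have := hBF1 G p b e N D hyp χ hN
          have h3 := exp_eq_one_of (n := 0) rfl this
          rw [h3]
          push_cast
          rfl
        · left; rfl
      · push Not at hN
        left
        refine h2 hN ?_ z
        by_contra hcon
        push Not at hcon
        exact hχP (mem_TT1.mpr fun h _ => hcon h)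
  have hsum : ∑ χ ∈ TT1 L, BB D R χ - ∑ χ ∈ TT1 P, BB D R χ =
      (p : ℂ) ^ b * (∑ χ ∈ TT1 L, AA D R χ - ∑ χ ∈ TT1 P, AA D R χ) := by
    rw [← Finset.sum_sdiff_eq_sub hsub, ← Finset.sum_sdiff_eq_sub hsub, Finset.mul_sum]
    exact Finset.sum_congr rfl hkey
  rw [sum_BB, sum_BB, sum_AA, sum_AA] at hsum
  have hcL := card_TT1 L
  have hcP := card_TT1 P
  have hGpos : 0 < Fintype.card G := Fintype.card_pos
  have hPpos : 0 < (TT1 P).card := by
    rcases Nat.eq_zero_or_pos (TT1 P).card with h | h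
    · rw [h, zero_mul] at hcP; omega
    · exact h
  have hLpos : 0 < Nat.card L := Nat.card_pos
  have hcard : (TT1 L).card = p * (TT1 P).card := by
    have h1 : (TT1 L).card * Nat.card L = (p * (TT1 P).card) * Nat.card L := by
      rw [hcL, ← hcP, ← hc]; ring
    exact Nat.eq_of_mul_eq_mul_right hLpos h1
  rw [hcard] at hsum
  push_cast at hsum
  have hPne : ((TT1 P).card : ℂ) ≠ 0 := by exact_mod_cast hPpos.ne'
  have hfin : (p : ℂ) * (Rf p e D L L : ℂ) - (Rf p e D L P : ℂ) =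
      (p : ℂ) ^ b * ((p : ℂ) * (Qf p e D L L : ℂ) - (Qf p e D L P : ℂ)) := by
    apply mul_left_cancel₀ hPne
    have e1 : (Rf p e D L L : ℂ) = (cnt4 D (fun d1 d2 d3 d4 => R d1 d2 ∧ R d1 d3 ∧ R d1 d4 ∧
        d1 - d2 + d3 - d4 ∈ L) : ℂ) := rfl
    have e2 : (Rf p e D L P : ℂ) = (cnt4 D (fun d1 d2 d3 d4 => R d1 d2 ∧ R d1 d3 ∧ R d1 d4 ∧
        d1 - d2 + d3 - d4 ∈ P) : ℂ) := rfl
    have e3 : (Qf p e D L L : ℂ) = (cnt D (fun x y => R x y ∧ x - y ∈ L) : ℂ) := rfl
    have e4 : (Qf p e D L P : ℂ) = (cnt D (fun x y => R x y ∧ x - y ∈ P) : ℂ) := rfl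
    rw [e1, e2, e3, e4]
    linear_combination hsum
  exact_mod_cast hfin

end Pool.Agent.H176RD
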