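import Pool.Agent.H176RD.Defs

/-!
# B2 (helper51): trivial upper bound for the number of quadruples
-/

set_option autoImplicit false

namespace Pool.Agent.H176RD

open Finset Classical

namespace B2x

variable {G : Type} [AddCommGroup G] [Fintype G]

theorem card_L (L : AddSubgroup G) : (univ.filter (fun g : G => g ∈ L)).card = Nat.card L :=
  (Nat.subtype_card _ (by simp)).symm

/-- pairs of different elements with difference in `L` -/
noncomputable def Pr (D : Finset G) (L : AddSubgroup G) : Finset (G × G) :=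
  (D ×ˢ D).filter (fun x => x.1 ≠ x.2 ∧ x.1 - x.2 ∈ L)

/-- pairs of different elements of the same class -/
noncomputable def Off (p e : ℕ) (D : Finset G) (L : AddSubgroup G) : Finset (G × G) :=
  (D ×ˢ D).filter (fun x => x.1 ≠ x.2 ∧ lam p e x.1 - lam p e x.2 ∈ L)

theorem card_Pr {D : Finset G} (hS : ∀ d1 ∈ D, ∀ d2 ∈ D, ∀ d3 ∈ D, ∀ d4 ∈ D, d1 - d2 = d3 - d4 →
    d1 ≠ d2 → d1 = d3 ∧ d2 = d4) (L : AddSubgroup G) : (Pr D L).card + 1 ≤ Nat.card L := by
  have h0 : (0 : G) ∈ univ.filter (fun g : G => g ∈ L) := by simp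
  have h1 : (Pr D L).card ≤ ((univ.filter (fun g : G => g ∈ L)).erase 0).card := by
    refine Finset.card_le_card_of_injOn (fun x => x.1 - x.2) ?_ ?_
    · intro x hx
      simp only [Pr, coe_filter, mem_product, Set.mem_ofPred_eq] at hx
      simp only [coe_erase, coe_filter, mem_univ, true_and, Set.mem_sdiff, Set.mem_ofPred_eq,
        Set.mem_singleton_iff]
      exact ⟨hx.2.2, fun h => hx.2.1 (sub_eq_zero.1 h)⟩
    · intro x hx y hy hxy
      simp only [Pr, coe_filter, mem_product, Set.mem_ofPred_eq] at hx hy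
      obtain ⟨e1, e2⟩ := hS x.1 hx.1.1 x.2 hx.1.2 y.1 hy.1.1 y.2 hy.1.2 hxy hx.2.1
      exact Prod.ext e1 e2
  rw [Finset.card_erase_of_mem h0, card_L] at h1
  have h2 : 0 < Nat.card L := by rw [← card_L]; exact Finset.card_pos.2 ⟨0, h0⟩
  omega

omit [Fintype G] in
theorem card_Off (p e : ℕ) (D : Finset G) (L : AddSubgroup G) :
    (Off p e D L).card + D.card = N2 p e D L := by
  have h1 : (D ×ˢ D).filter (fun x => lam p e x.1 - lam p e x.2 ∈ L) =
      Off p e D L ∪ D.image (fun d => (d, d)) := by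
    ext ⟨x, y⟩
    simp only [Off, mem_filter, mem_product, mem_union, mem_image, Prod.mk.injEq]
    constructor
    · rintro ⟨⟨hx, hy⟩, h⟩
      by_cases hxy : x = y
      · exact Or.inr ⟨x, hx, rfl, hxy⟩
      · exact Or.inl ⟨⟨hx, hy⟩, hxy, h⟩
    · rintro (⟨h1, h2, h3⟩ | ⟨d, hd, rfl, rfl⟩)
      · exact ⟨h1, h3⟩
      · refine ⟨⟨hd, hd⟩, ?_⟩
        rw [sub_self]; exact L.zero_mem
  have h2 : Disjoint (Off p e D L) (D.image (fun d => (d, d))) := by
    rw [Finset.disjoint_left]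
    rintro ⟨x, y⟩ hx hy
    simp only [Off, mem_filter, mem_image, Prod.mk.injEq] at hx hy
    obtain ⟨d, -, rfl, rfl⟩ := hy
    exact hx.2.1 rfl
  unfold N2 cnt
  rw [h1, Finset.card_union_of_disjoint h2, Finset.card_image_of_injective]
  intro x y h
  exact (Prod.mk.inj h).1

end B2x

open B2x in
theorem B2 (hBF3 : S_BF3) (_hBF6 : S_BF6) : S_B2 := by
  intro G _ _ p b e N D hyp L _
  have hS := (hBF3 G p b e N D hyp).2.1
  have hD : D.card = p ^ b := hyp.card_D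
  set S := (D ×ˢ D ×ˢ D ×ˢ D).filter (fun x : G × G × G × G =>
    lam p e x.1 - lam p e x.2.1 ∈ L ∧ lam p e x.1 - lam p e x.2.2.1 ∈ L ∧
    lam p e x.1 - lam p e x.2.2.2 ∈ L ∧ x.1 - x.2.1 + x.2.2.1 - x.2.2.2 ∈ L) with hSdef
  have hR : Rf p e D L L = S.card := by
    unfold Rf cnt4
    rw [hSdef]
    congr 1
    ext x
    simp only [mem_filter]
  have memS : ∀ x ∈ S, (x.1 ∈ D ∧ x.2.1 ∈ D ∧ x.2.2.1 ∈ D ∧ x.2.2.2 ∈ D) ∧
      (lam p e x.1 - lam p e x.2.1 ∈ L ∧ lam p e x.1 - lam p e x.2.2.1 ∈ L ∧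
      lam p e x.1 - lam p e x.2.2.2 ∈ L ∧ x.1 - x.2.1 + x.2.2.1 - x.2.2.2 ∈ L) := by
    intro x hx
    simpa only [hSdef, mem_filter, mem_product] using hx
  -- the four kinds
  have c1 : (S.filter (fun x => x.1 = x.2.1 ∧ x.2.2.1 = x.2.2.2)).card ≤ N2 p e D L := by
    refine Finset.card_le_card_of_injOn (fun x => (x.1, x.2.2.1)) ?_ ?_
    · intro x hx
      simp only [coe_filter, Set.mem_ofPred_eq] at hx
      obtain ⟨⟨d1, d2, d3, d4⟩, l1, l2, l3, l4⟩ := memS x hx.1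
      simp only [coe_filter, mem_product, Set.mem_ofPred_eq]
      exact ⟨⟨d1, d3⟩, l2⟩
    · intro x hx y hy hxy
      simp only [coe_filter, Set.mem_ofPred_eq] at hx hy
      obtain ⟨e1, e2⟩ := Prod.mk.inj hxy
      refine Prod.ext e1 (Prod.ext ?_ (Prod.ext e2 ?_))
      · rw [← hx.2.1, ← hy.2.1]; exact e1
      · rw [← hx.2.2, ← hy.2.2]; exact e2
  have c2 : (S.filter (fun x => x.1 = x.2.1 ∧ x.2.2.1 ≠ x.2.2.2)).card ≤ (D ×ˢ Pr D L).card := by
    refine Finset.card_le_card_of_injOn (fun x => (x.1, (x.2.2.1, x.2.2.2))) ?_ ?_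
    · intro x hx
      simp only [coe_filter, Set.mem_ofPred_eq] at hx
      obtain ⟨⟨d1, d2, d3, d4⟩, l1, l2, l3, l4⟩ := memS x hx.1
      simp only [Pr, coe_product, coe_filter, mem_product, Set.mem_prod, mem_coe,
        Set.mem_ofPred_eq]
      refine ⟨d1, ⟨d3, d4⟩, hx.2.2, ?_⟩
      rw [hx.2.1, sub_self, zero_add] at l4
      exact l4
    · intro x hx y hy hxy
      simp only [coe_filter, Set.mem_ofPred_eq] at hx hy
      obtain ⟨e1, e2⟩ := Prod.mk.inj hxy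
      obtain ⟨e2, e3⟩ := Prod.mk.inj e2
      refine Prod.ext e1 (Prod.ext ?_ (Prod.ext e2 e3))
      rw [← hx.2.1, ← hy.2.1]; exact e1
  have c3 : (S.filter (fun x => x.1 ≠ x.2.1 ∧ x.2.2.1 = x.2.2.2)).card ≤ (Pr D L ×ˢ D).card := by
    refine Finset.card_le_card_of_injOn (fun x => ((x.1, x.2.1), x.2.2.1)) ?_ ?_
    · intro x hx
      simp only [coe_filter, Set.mem_ofPred_eq] at hx
      obtain ⟨⟨d1, d2, d3, d4⟩, l1, l2, l3, l4⟩ := memS x hx.1
      simp only [Pr, coe_product, coe_filter, mem_product, Set.mem_prod, mem_coe,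
        Set.mem_ofPred_eq]
      refine ⟨⟨⟨d1, d2⟩, hx.2.1, ?_⟩, d3⟩
      rw [hx.2.2, add_sub_cancel_right] at l4
      exact l4
    · intro x hx y hy hxy
      simp only [coe_filter, Set.mem_ofPred_eq] at hx hy
      obtain ⟨e1, e2⟩ := Prod.mk.inj hxy
      obtain ⟨e1, e3⟩ := Prod.mk.inj e1
      refine Prod.ext e1 (Prod.ext e3 (Prod.ext e2 ?_))
      rw [← hx.2.2, ← hy.2.2]; exact e2
  have c4 : (S.filter (fun x => x.1 ≠ x.2.1 ∧ x.2.2.1 ≠ x.2.2.2)).card ≤
      (Off p e D L ×ˢ univ.filter (fun g : G => g ∈ L)).card := by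
    refine Finset.card_le_card_of_injOn
      (fun x => ((x.1, x.2.1), x.1 - x.2.1 + x.2.2.1 - x.2.2.2)) ?_ ?_
    · intro x hx
      simp only [coe_filter, Set.mem_ofPred_eq] at hx
      obtain ⟨⟨d1, d2, d3, d4⟩, l1, l2, l3, l4⟩ := memS x hx.1
      simp only [Off, coe_product, coe_filter, mem_product, Set.mem_prod, mem_univ, true_and,
        Set.mem_ofPred_eq]
      exact ⟨⟨⟨d1, d2⟩, hx.2.1, l1⟩, l4⟩
    · intro x hx y hy hxy
      simp only [coe_filter, Set.mem_ofPred_eq] at hx hy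
      obtain ⟨e1, e2⟩ := Prod.mk.inj hxy
      obtain ⟨e1, e3⟩ := Prod.mk.inj e1
      obtain ⟨⟨d1, d2, d3, d4⟩, -⟩ := memS x hx.1
      obtain ⟨⟨d1', d2', d3', d4'⟩, -⟩ := memS y hy.1
      have e4 : x.2.2.1 - x.2.2.2 = y.2.2.1 - y.2.2.2 := by
        rw [e1, e3, add_sub_assoc, add_sub_assoc] at e2
        exact add_left_cancel e2
      obtain ⟨e5, e6⟩ := hS _ d3 _ d4 _ d3' _ d4' e4 hx.2.2
      exact Prod.ext e1 (Prod.ext e3 (Prod.ext e5 e6))
  have hcov : S ⊆ (S.filter (fun x => x.1 = x.2.1 ∧ x.2.2.1 = x.2.2.2) ∪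
      S.filter (fun x => x.1 = x.2.1 ∧ x.2.2.1 ≠ x.2.2.2)) ∪
      (S.filter (fun x => x.1 ≠ x.2.1 ∧ x.2.2.1 = x.2.2.2) ∪
      S.filter (fun x => x.1 ≠ x.2.1 ∧ x.2.2.1 ≠ x.2.2.2)) := by
    intro x hx
    simp only [mem_union, mem_filter, hx, true_and]
    by_cases h1 : x.1 = x.2.1 <;> by_cases h2 : x.2.2.1 = x.2.2.2 <;> simp [h1, h2]
  have h5 := (Finset.card_le_card hcov).trans ((Finset.card_union_le _ _).trans
    (add_le_add (Finset.card_union_le _ _) (Finset.card_union_le _ _)))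
  rw [Finset.card_product, hD] at c2 c3
  rw [Finset.card_product, card_L] at c4
  have hPr := card_Pr hS L
  have hOff := card_Off p e D L
  rw [hD] at hOff
  rw [hR]
  have h6 : S.card ≤ N2 p e D L + p ^ b * (Pr D L).card + ((Pr D L).card * p ^ b +
      (Off p e D L).card * Nat.card L) := h5.trans (add_le_add (add_le_add c1 c2)
        (add_le_add c3 c4))
  obtain ⟨l, hl⟩ : ∃ l, Nat.card L = l + 1 := ⟨Nat.card L - 1, by omega⟩
  have hPr' : (Pr D L).card ≤ l := by omega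
  rw [hl] at h6 ⊢
  have h7 : p ^ b * (Pr D L).card ≤ p ^ b * l := Nat.mul_le_mul_left _ hPr'
  have h8 : (Pr D L).card * p ^ b = p ^ b * (Pr D L).card := mul_comm _ _
  have h9 : (l + 1 + 1) * N2 p e D L = N2 p e D L + (Off p e D L).card * (l + 1) +
      (l + 1) * p ^ b := by
    rw [← hOff]; ring
  have h10 : 2 * p ^ b * (l + 1 - 1) = p ^ b * l + p ^ b * l := by
    rw [Nat.add_sub_cancel]; ring
  rw [h9, h10]
  omega

end Pool.Agent.H176RD
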