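import Pool.Agent.H176RD.Defs

set_option autoImplicit false

/-! B3: size of the classes mod `L` -/

namespace Pool.Agent.H176RD

open Finset Classical

theorem B3 (hBF6 : S_BF6) : S_B3 := by
  intro G _ _ p b e N D hyp L hL
  have h6 := hBF6 G p b e N D hyp (L.comap (lam p e))
  have hN2 : cnt D (fun x y => x - y ∈ L.comap (lam p e)) = N2 p e D L := by
    unfold N2
    congr 1
    funext x y
    rw [AddSubgroup.mem_comap, map_sub]
  rw [hN2] at h6
  set H : AddSubgroup G := L.comap (lam p e) with hH
  have hidx : H.index = L.relIndex (PP G p e) := by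
    rw [hH, AddSubgroup.index_comap]
    rfl
  have hc1 : Nat.card L * L.relIndex (PP G p e) = Nat.card (PP G p e) := by
    have h := AddSubgroup.relIndex_mul_relIndex (⊥ : AddSubgroup G) L (PP G p e) bot_le hL
    rwa [AddSubgroup.relIndex_bot_left, AddSubgroup.relIndex_bot_left] at h
  have hc2 : Nat.card H * H.index = p ^ (2 * b) := by
    rw [AddSubgroup.card_mul_index, Nat.card_eq_fintype_card, hyp.card_G]
  have hc3 : Nat.card (H ⊓ N : AddSubgroup G) * H.relIndex N = p ^ b := by
    have h := AddSubgroup.relIndex_mul_relIndex (⊥ : AddSubgroup G) (H ⊓ N) N bot_le inf_le_right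
    rw [AddSubgroup.relIndex_bot_left, AddSubgroup.relIndex_bot_left, AddSubgroup.inf_relIndex_right,
      hyp.card_N] at h
    exact h
  have hle : H.relIndex N ≤ H.index := by
    have hne : H.index ≠ 0 := by
      intro h0
      rw [h0, Nat.mul_zero] at hc2
      have := pow_pos hyp.hp.pos (2 * b)
      omega
    exact Nat.le_of_dvd (Nat.pos_of_ne_zero hne) (AddSubgroup.relIndex_dvd_index_of_normal H N)
  -- combine
  rw [← hc1, ← hidx]
  have e1 : Nat.card L * H.index * Nat.card H = Nat.card L * p ^ (2 * b) := by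
    rw [← hc2]; ring
  have e2 : Nat.card L * p ^ b ≤ Nat.card L * H.index * Nat.card (H ⊓ N : AddSubgroup G) := by
    rw [← hc3]
    calc Nat.card L * (Nat.card (H ⊓ N : AddSubgroup G) * H.relIndex N) ≤
        Nat.card L * (Nat.card (H ⊓ N : AddSubgroup G) * H.index) :=
          Nat.mul_le_mul_left _ (Nat.mul_le_mul_left _ hle)
      _ = _ := by ring
  have e3 := congrArg (fun t => Nat.card L * H.index * t) h6
  simp only [Nat.mul_add] at e3
  omega

end Pool.Agent.H176RD
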