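import Pool.Agent.H176RD.Defs

set_option autoImplicit false

/-! B4: energy bound if `|P| = p ^ 2`. -/

namespace Pool.Agent.H176RD

open Finset Classical

theorem b4_lam {G : Type} [AddCommGroup G] [Fintype G] {p b e : ℕ} {N : AddSubgroup G}
    {D : Finset G} (h : Hyp p b e N D) {g : G} (hg : g ∈ PP G p e) : lam p e g = 0 := by
  obtain ⟨x, rfl⟩ := hg
  change p ^ (e - 1) • (p ^ (e - 1) • x) = 0
  rw [← mul_nsmul', ← pow_add]
  have he := h.he
  obtain ⟨k, hk⟩ : ∃ k, e - 1 + (e - 1) = e + k := ⟨e - 1 + (e - 1) - e, by omega⟩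
  rw [hk, pow_add, mul_nsmul', h.exp]

theorem b4_Qf {G : Type} [AddCommGroup G] [Fintype G] {p b e : ℕ} {N : AddSubgroup G}
    {D : Finset G} (h : Hyp p b e N D) (L H : AddSubgroup G) (hH : H ≤ PP G p e) :
    Qf p e D L H = cnt D (fun x y => x - y ∈ H) := by
  unfold Qf
  congr 1
  funext x y
  rw [eq_iff_iff]
  refine ⟨fun h' => h'.2, fun h' => ⟨?_, h'⟩⟩
  rw [← map_sub, b4_lam h (hH h')]
  exact zero_mem _

theorem B4 (hB1 : S_B1) (hB2 : S_B2) (hB3 : S_B3) (hBF6 : S_BF6) : S_B4 := by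
  intro G _ _ p b e N D h hP L hL hLp
  have h1 := hB1 G p b e N D h L hL (by rw [hLp, hP]; ring)
  have h2 := hB2 G p b e N D h L hL
  have h3 := hB3 G p b e N D h L hL
  have h4 := hBF6 G p b e N D h L
  have h5 := hBF6 G p b e N D h (PP G p e)
  rw [← b4_Qf h L L hL] at h4
  rw [← b4_Qf h L (PP G p e) le_rfl] at h5
  rw [hP, hLp] at h3
  rw [hLp] at h2 h4
  rw [hP] at h5
  have hp2 : 2 ≤ p := h.hp.two_le
  have hLN : Nat.card (L ⊓ N : AddSubgroup G) ≤ p := by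
    rw [← hLp]
    exact Nat.card_mono (Set.toFinite _) (inf_le_left : L ⊓ N ≤ L)
  have hPN : 1 ≤ Nat.card (PP G p e ⊓ N : AddSubgroup G) := Nat.card_pos
  obtain ⟨q, hq⟩ : ∃ q, p = q + 1 := ⟨p - 1, by omega⟩
  have hq' : p - 1 = q := by omega
  rw [hq'] at h2
  have hn0 : (0 : ℤ) ≤ (p : ℤ) ^ b := by positivity
  have hp0 : (2 : ℤ) ≤ p := by exact_mod_cast hp2
  have hqz : (q : ℤ) = p - 1 := by rw [hq]; push_cast; ring
  have hsq : (p : ℤ) ^ (2 * b) = (p : ℤ) ^ b * (p : ℤ) ^ b := by rw [← pow_add]; congr 1; ring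
  zify at h2 h3 h4 h5 hLN hPN
  rw [hqz] at h2
  rw [hsq] at h3 ⊢
  generalize (p : ℤ) ^ b = n at *
  have e1 : (p : ℤ) * N2 p e D L ≤ n * n + (p - 1) * n := by
    have : (p : ℤ) * ((p : ℤ) * N2 p e D L) ≤ p * (n * n + (p - 1) * n) := by linarith
    exact le_of_mul_le_mul_left this (by linarith)
  have e2 : ((p : ℤ) + 1) * ((p : ℤ) * N2 p e D L) ≤ (p + 1) * (n * n + (p - 1) * n) :=
    mul_le_mul_of_nonneg_left e1 (by linarith)
  have e3 : (p : ℤ) * Rf p e D L L ≤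
      p * ((p + 1) * N2 p e D L + 2 * n * (p - 1) - p * n) :=
    mul_le_mul_of_nonneg_left (by linarith) (by linarith)
  have e4 : (n * p) * n ≤ (n * p) * (Qf p e D L L : ℤ) :=
    mul_le_mul_of_nonneg_left (by linarith) (by positivity)
  have e5 : n * (Qf p e D L (PP G p e) : ℤ) ≤ n * (n + p ^ 2 - 1) :=
    mul_le_mul_of_nonneg_left (by linarith) hn0
  linarith

end Pool.Agent.H176RD
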