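import Pool.Agent.H176RD.Defs

set_option autoImplicit false

/-! Basic facts: BF1, BF2, BF3, BF6. -/

namespace Pool.Agent.H176RD

open Finset Classical

namespace BFaux

variable {G : Type} [AddCommGroup G] [Fintype G] {p b e : ℕ} {N : AddSubgroup G} {D : Finset G}

theorem mem_cnt {Q : G → G → Prop} {x y : G} (hx : x ∈ D) (hy : y ∈ D) (h : Q x y) :
    (x, y) ∈ (D ×ˢ D).filter (fun x => Q x.1 x.2) := by
  rw [Finset.mem_filter, Finset.mem_product]
  exact ⟨⟨hx, hy⟩, h⟩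

theorem cnt_zero (D : Finset G) : cnt D (fun x y => x - y = 0) = D.card := by
  rw [cnt]
  symm
  refine Finset.card_bij (fun d _ => (d, d)) ?_ ?_ ?_
  · intro d hd
    exact mem_cnt (Q := fun x y => x - y = 0) hd hd (sub_self d)
  · intro a _ b _ h
    exact (Prod.ext_iff.1 h).1
  · rintro ⟨x, y⟩ h
    rw [Finset.mem_filter, Finset.mem_product] at h
    refine ⟨x, h.1.1, ?_⟩
    have := sub_eq_zero.1 h.2
    exact Prod.ext rfl this

theorem cnt_sum {M : Type} [AddCommMonoid M] (D : Finset G) (f : G → M) :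
    ∑ q ∈ D ×ˢ D, f (q.1 - q.2) = ∑ g : G, cnt D (fun x y => x - y = g) • f g := by
  rw [← Finset.sum_fiberwise (D ×ˢ D) (fun q => q.1 - q.2) (fun q => f (q.1 - q.2))]
  refine Finset.sum_congr rfl fun g _ => ?_
  rw [cnt, ← Finset.sum_const]
  refine Finset.sum_congr rfl fun q hq => ?_
  rw [(Finset.mem_filter.1 hq).2]

theorem master {M : Type} [AddCommMonoid M] (h : Hyp p b e N D) (f : G → M) :
    ∑ q ∈ D ×ˢ D, f (q.1 - q.2) + ∑ g ∈ univ.filter (fun g => g ∈ N), f g =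
      p ^ b • f 0 + ∑ g, f g := by
  rw [cnt_sum, Finset.sum_filter, ← Finset.sum_add_distrib]
  have e1 : p ^ b • f 0 = ∑ g : G, if g = 0 then p ^ b • f g else 0 := by
    rw [Finset.sum_ite_eq' univ (0 : G) (fun g => p ^ b • f g), if_pos (Finset.mem_univ _)]
  rw [e1, ← Finset.sum_add_distrib]
  refine Finset.sum_congr rfl fun g _ => ?_
  by_cases hg : g ∈ N
  · by_cases h0 : g = 0
    · subst h0
      rw [cnt_zero, h.card_D, if_pos hg, if_pos rfl]
    · rw [h.zero g hg h0, if_pos hg, if_neg h0, zero_smul]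
  · have h0 : g ≠ 0 := fun h0 => hg (by rw [h0]; exact N.zero_mem)
    rw [h.one g hg, if_neg hg, if_neg h0, one_smul, add_zero, zero_add]

theorem sum_char (χ : AddChar G ℂ) (H : AddSubgroup G) (g₀ : G) (hg₀ : g₀ ∈ H) (h1 : χ g₀ ≠ 1) :
    ∑ g ∈ univ.filter (fun g => g ∈ H), χ g = 0 := by
  have h2 : ∑ g ∈ univ.filter (fun g => g ∈ H), χ g =
      ∑ g ∈ univ.filter (fun g => g ∈ H), χ g₀ * χ g := by
    symm
    refine Finset.sum_bij' (fun g _ => g₀ + g) (fun g _ => g - g₀) ?_ ?_ ?_ ?_ ?_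
    · intro g hg
      rw [Finset.mem_filter] at hg ⊢
      exact ⟨Finset.mem_univ _, H.add_mem hg₀ hg.2⟩
    · intro g hg
      rw [Finset.mem_filter] at hg ⊢
      exact ⟨Finset.mem_univ _, H.sub_mem hg.2 hg₀⟩
    · intro g _
      exact add_sub_cancel_left _ _
    · intro g _
      exact add_sub_cancel _ _
    · intro g _
      rw [AddChar.map_add_eq_mul]
  rw [← Finset.mul_sum] at h2
  have h3 : (χ g₀ - 1) * ∑ g ∈ univ.filter (fun g => g ∈ H), χ g = 0 := by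
    linear_combination -h2
  rcases mul_eq_zero.1 h3 with h4 | h4
  · exact absurd (sub_eq_zero.1 h4) h1
  · exact h4

theorem normsq (h : Hyp p b e N D) (χ : AddChar G ℂ) (hχ : ∃ g, χ g ≠ 1) :
    ((‖∑ d ∈ D, χ d‖ ^ 2 : ℝ) : ℂ) + ∑ g ∈ univ.filter (fun g => g ∈ N), χ g = (p : ℂ) ^ b := by
  have h1 := master h (fun g => χ g)
  have h2 : ∑ g : G, χ g = 0 := by
    obtain ⟨g₀, hg₀⟩ := hχ
    have := sum_char χ ⊤ g₀ (AddSubgroup.mem_top _) hg₀
    rw [← this]
    refine Finset.sum_congr ?_ fun _ _ => rfl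
    ext g
    simp
  have h3 : ((‖∑ d ∈ D, χ d‖ ^ 2 : ℝ) : ℂ) = ∑ q ∈ D ×ˢ D, χ (q.1 - q.2) := by
    rw [Complex.ofReal_pow, ← Complex.mul_conj', map_sum, Finset.sum_mul_sum, Finset.sum_product]
    refine Finset.sum_congr rfl fun x _ => Finset.sum_congr rfl fun y _ => ?_
    rw [← AddChar.map_neg_eq_conj, ← AddChar.map_add_eq_mul, sub_eq_add_neg]
  rw [h3, h1, h2, add_zero, AddChar.map_zero_eq_one]
  simp

theorem part3 (h : Hyp p b e N D) : ∀ d ∈ D, ∀ d' ∈ D, d - d' ∈ N → d = d' := by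
  intro d hd d' hd' hN
  by_contra hne
  have h1 := h.zero (d - d') hN (sub_ne_zero.2 hne)
  rw [cnt, Finset.card_eq_zero] at h1
  have h2 := mem_cnt (Q := fun x y => x - y = d - d') hd hd' rfl
  rw [h1] at h2
  exact absurd h2 (Finset.notMem_empty _)

theorem part2 (h : Hyp p b e N D) : ∀ d1 ∈ D, ∀ d2 ∈ D, ∀ d3 ∈ D, ∀ d4 ∈ D,
    d1 - d2 = d3 - d4 → d1 ≠ d2 → d1 = d3 ∧ d2 = d4 := by
  intro d1 h1 d2 h2 d3 h3 d4 h4 he hne
  have hN : d1 - d2 ∉ N := fun hN => hne (part3 h d1 h1 d2 h2 hN)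
  have hc := h.one _ hN
  rw [cnt, Finset.card_eq_one] at hc
  obtain ⟨q, hq⟩ := hc
  have e1 := mem_cnt (Q := fun x y => x - y = d1 - d2) h1 h2 rfl
  have e2 := mem_cnt (Q := fun x y => x - y = d1 - d2) h3 h4 he.symm
  rw [hq, Finset.mem_singleton] at e1 e2
  have e3 := e1.trans e2.symm
  exact ⟨(Prod.ext_iff.1 e3).1, (Prod.ext_iff.1 e3).2⟩

end BFaux

open BFaux

theorem BF1 : S_BF1 := by
  intro G _ _ p b e N D h χ hχ
  obtain ⟨g₀, hg₀, h1⟩ := hχ
  have h2 := normsq h χ ⟨g₀, h1⟩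
  rw [sum_char χ N g₀ hg₀ h1, add_zero] at h2
  exact_mod_cast h2

theorem BF2 : S_BF2 := by
  intro G _ _ p b e N D h χ hN hχ
  have h2 := normsq h χ hχ
  have h3 : ∑ g ∈ univ.filter (fun g => g ∈ N), χ g = (p : ℂ) ^ b := by
    have h4 : ∑ g ∈ univ.filter (fun g => g ∈ N), χ g =
        ∑ g ∈ univ.filter (fun g => g ∈ N), (1 : ℂ) :=
      Finset.sum_congr rfl fun g hg => hN g (Finset.mem_filter.1 hg).2
    rw [h4, Finset.sum_const, nsmul_eq_mul, mul_one]
    have h5 : (univ.filter (fun g => g ∈ N)).card = p ^ b := by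
      rw [← h.card_N, Nat.card_eq_fintype_card, Fintype.card_subtype]
    rw [h5]
    push_cast
    rfl
  rw [h3, add_eq_right, Complex.ofReal_eq_zero, sq_eq_zero_iff, norm_eq_zero] at h2
  exact h2

theorem BF3 : S_BF3 := by
  intro G _ _ p b e N D h
  refine ⟨?_, part2 h, part3 h⟩
  intro d1 h1 d2 h2 d3 h3 d4 h4 he
  by_cases h13 : d1 = d3
  · left
    refine ⟨h13, ?_⟩
    rw [h13] at he
    exact add_left_cancel he
  · right
    have h5 : d1 - d3 = d4 - d2 := by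
      rw [sub_eq_sub_iff_add_eq_add, he, add_comm]
    have h6 := part2 h d1 h1 d3 h3 d4 h4 d2 h2 h5 h13
    exact ⟨h6.1, h6.2.symm⟩

theorem BF6 : S_BF6 := by
  intro G _ _ p b e N D h H
  have h1 := master h (fun g => if g ∈ H then 1 else 0)
  have e1 : ∑ q ∈ D ×ˢ D, (if q.1 - q.2 ∈ H then 1 else 0) = cnt D (fun x y => x - y ∈ H) := by
    rw [cnt, Finset.card_filter]
  have e2 : ∑ g ∈ univ.filter (fun g => g ∈ N), (if g ∈ H then 1 else 0) =
      Nat.card (H ⊓ N : AddSubgroup G) := by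
    rw [Nat.card_eq_fintype_card, Fintype.card_subtype, ← Finset.card_filter, Finset.filter_filter]
    congr 1
    ext g
    simp only [Finset.mem_filter, Finset.mem_univ, true_and, AddSubgroup.mem_inf]
    tauto
  have e3 : ∑ g : G, (if g ∈ H then 1 else 0) = Nat.card H := by
    rw [Nat.card_eq_fintype_card, Fintype.card_subtype, ← Finset.card_filter]
  rw [e1, e2, e3, if_pos H.zero_mem] at h1
  simpa using h1

end Pool.Agent.H176RD
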