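import Mathlib

set_option autoImplicit false

/-! Relative difference sets with parameters `(p^b, p^b, p^b, 1)` in abelian groups that are not
elementary abelian: definitions and exact task statements (helper176). -/

namespace Pool.Agent.H176RD

open Finset Classical

/-- number of pairs of elements of `D` with the property `Q` -/
noncomputable def cnt {G : Type} (D : Finset G) (Q : G → G → Prop) : ℕ :=
  ((D ×ˢ D).filter (fun x => Q x.1 x.2)).card

/-- number of quadruples `(d1,d2,d3,d4)` of elements of `D` with the property `Q` -/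
noncomputable def cnt4 {G : Type} (D : Finset G) (Q : G → G → G → G → Prop) : ℕ :=
  ((D ×ˢ D ×ˢ D ×ˢ D).filter (fun x => Q x.1 x.2.1 x.2.2.1 x.2.2.2)).card

/-- `G` abelian of order `p^(2b)` and exponent dividing `p^e`, `e ≥ 2`, `p` odd, `D` a
`(p^b,p^b,p^b,1)` relative difference set relative to `N`. -/
structure Hyp {G : Type} [AddCommGroup G] [Fintype G] (p b e : ℕ) (N : AddSubgroup G)
    (D : Finset G) : Prop where
  hp : p.Prime
  h2 : p ≠ 2
  he : 2 ≤ e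
  hb : 1 ≤ b
  card_G : Fintype.card G = p ^ (2 * b)
  card_N : Nat.card N = p ^ b
  card_D : D.card = p ^ b
  exp : ∀ g : G, p ^ e • g = 0
  one : ∀ g : G, g ∉ N → cnt D (fun x y => x - y = g) = 1
  zero : ∀ g : G, g ∈ N → g ≠ 0 → cnt D (fun x y => x - y = g) = 0

section
variable {G : Type} [AddCommGroup G]

/-- multiplication by `p^(e-1)` -/
def lam (p e : ℕ) : G →+ G := nsmulAddMonoidHom (p ^ (e - 1))

/-- `P = p^(e-1) G` -/
def PP (G : Type) [AddCommGroup G] (p e : ℕ) : AddSubgroup G := (lam (G := G) p e).range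

/-- pairs with `lam d1 - lam d2 ∈ L` and `d1 - d2 ∈ H` -/
noncomputable def Qf (p e : ℕ) (D : Finset G) (L H : AddSubgroup G) : ℕ :=
  cnt D (fun x y => lam p e x - lam p e y ∈ L ∧ x - y ∈ H)

/-- quadruples in one class mod `L` with `d1 - d2 + d3 - d4 ∈ H` -/
noncomputable def Rf (p e : ℕ) (D : Finset G) (L H : AddSubgroup G) : ℕ :=
  cnt4 D (fun d1 d2 d3 d4 => lam p e d1 - lam p e d2 ∈ L ∧ lam p e d1 - lam p e d3 ∈ L ∧
    lam p e d1 - lam p e d4 ∈ L ∧ d1 - d2 + d3 - d4 ∈ H)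

/-- pairs in one class mod `L` -/
noncomputable def N2 (p e : ℕ) (D : Finset G) (L : AddSubgroup G) : ℕ :=
  cnt D (fun x y => lam p e x - lam p e y ∈ L)

/-- pairs with sum in `y + P` -/
noncomputable def tot (p e : ℕ) (D : Finset G) (y : G) : ℕ :=
  cnt D (fun x z => x + z - y ∈ PP G p e)

/-- pairs with sum in `y + P` and difference of classes in `L` -/
noncomputable def Kf (p e : ℕ) (D : Finset G) (L : AddSubgroup G) (y : G) : ℕ :=
  cnt D (fun x z => x + z - y ∈ PP G p e ∧ lam p e x - lam p e z ∈ L)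

/-- moving pairs with sum in `y + P` -/
noncomputable def mu (p e : ℕ) (D : Finset G) (y : G) : ℕ :=
  cnt D (fun x z => x + z - y ∈ PP G p e ∧ lam p e x ≠ lam p e z)

/-- moving pairs with sum in `y + P` and velocity in `L` -/
noncomputable def zf (p e : ℕ) (D : Finset G) (L : AddSubgroup G) (y : G) : ℕ :=
  cnt D (fun x z => x + z - y ∈ PP G p e ∧ lam p e x - lam p e z ∈ L ∧ lam p e x ≠ lam p e z)

/-- moving pairs with sum `g` -/
noncomputable def mv (p e : ℕ) (D : Finset G) (g : G) : ℕ :=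
  cnt D (fun x y => lam p e x ≠ lam p e y ∧ x + y = g)

end

/-- BF1: characters nontrivial on N have absolute value squared p^b -/
def S_BF1 : Prop := ∀ (G : Type) [AddCommGroup G] [Fintype G] (p b e : ℕ) (N : AddSubgroup G)
    (D : Finset G), Hyp p b e N D → ∀ χ : AddChar G ℂ, (∃ g ∈ N, χ g ≠ 1) →
    ‖∑ d ∈ D, χ d‖ ^ 2 = (p : ℝ) ^ b

/-- BF2: nontrivial characters that are trivial on N vanish on D -/
def S_BF2 : Prop := ∀ (G : Type) [AddCommGroup G] [Fintype G] (p b e : ℕ) (N : AddSubgroup G)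
    (D : Finset G), Hyp p b e N D → ∀ χ : AddChar G ℂ, (∀ g ∈ N, χ g = 1) → (∃ g, χ g ≠ 1) →
    ∑ d ∈ D, χ d = 0

/-- BF3: sums are Sidon; BF4: differences are Sidon; BF5: one point per coset of N -/
def S_BF3 : Prop := ∀ (G : Type) [AddCommGroup G] [Fintype G] (p b e : ℕ) (N : AddSubgroup G)
    (D : Finset G), Hyp p b e N D →
    (∀ d1 ∈ D, ∀ d2 ∈ D, ∀ d3 ∈ D, ∀ d4 ∈ D, d1 + d2 = d3 + d4 →
      (d1 = d3 ∧ d2 = d4) ∨ (d1 = d4 ∧ d2 = d3)) ∧
    (∀ d1 ∈ D, ∀ d2 ∈ D, ∀ d3 ∈ D, ∀ d4 ∈ D, d1 - d2 = d3 - d4 → d1 ≠ d2 → d1 = d3 ∧ d2 = d4) ∧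
    (∀ d ∈ D, ∀ d' ∈ D, d - d' ∈ N → d = d')

/-- BF6: number of pairs with difference in a subgroup H -/
def S_BF6 : Prop := ∀ (G : Type) [AddCommGroup G] [Fintype G] (p b e : ℕ) (N : AddSubgroup G)
    (D : Finset G), Hyp p b e N D → ∀ H : AddSubgroup G,
    cnt D (fun x y => x - y ∈ H) + Nat.card (H ⊓ N : AddSubgroup G) = p ^ b + Nat.card H

/-- A1 (Kronecker + prime factorisation of p in the cyclotomic field) -/
def S_A1 : Prop := ∀ (p b e : ℕ), p.Prime → p ≠ 2 → 2 ≤ e → ∀ ζ : ℂ, IsPrimitiveRoot ζ (p ^ e) →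
    ∀ (k : ℕ) (a : Fin k → ℕ),
    (∀ t : ℕ, t.Coprime p → ‖∑ i, ζ ^ (t * a i)‖ ^ 2 = (p : ℝ) ^ b) →
    ∃ u : ℂ, u ^ p = 1 ∧ ∀ s : ℕ, ∑ i, ζ ^ ((1 + s * p ^ (e - 1)) * a i) = u ^ s * ∑ i, ζ ^ (a i)

/-- A2: the same for characters (from A1 and BF1) -/
def S_A2 : Prop := ∀ (G : Type) [AddCommGroup G] [Fintype G] (p b e : ℕ) (N : AddSubgroup G)
    (D : Finset G), Hyp p b e N D → ∀ χ : AddChar G ℂ, (∃ g ∈ N, χ g ≠ 1) →
    ∃ u : ℂ, u ^ p = 1 ∧ ∀ s : ℕ, ∑ d ∈ D, χ (d + s • lam p e d) = u ^ s * ∑ d ∈ D, χ d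

/-- SL: exactly one slice is nonzero (from A2), and none if χ is trivial on N (from BF2) -/
def S_SL : Prop := ∀ (G : Type) [AddCommGroup G] [Fintype G] (p b e : ℕ) (N : AddSubgroup G)
    (D : Finset G), Hyp p b e N D → ∀ χ : AddChar G ℂ,
    ((∃ g ∈ N, χ g ≠ 1) → ∃ u : ℂ, u ^ p = 1 ∧ ∀ z : ℂ,
      ∑ d ∈ D.filter (fun d => χ (lam p e d) = z), χ d = if z = u then ∑ d ∈ D, χ d else 0) ∧
    ((∀ g ∈ N, χ g = 1) → (∃ g, χ g ≠ 1) → ∀ z : ℂ,
      ∑ d ∈ D.filter (fun d => χ (lam p e d) = z), χ d = 0)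

/-- C1: time invariance of the multiset of sums (from A2, BF2) -/
def S_C1 : Prop := ∀ (G : Type) [AddCommGroup G] [Fintype G] (p b e : ℕ) (N : AddSubgroup G)
    (D : Finset G), Hyp p b e N D → ∀ (s : ℕ) (g : G),
    cnt D (fun x y => x + y + s • (lam p e x - lam p e y) = g) = cnt D (fun x y => x + y = g)

/-- B1: fourth moment identity (from SL, BF1) -/
def S_B1 : Prop := ∀ (G : Type) [AddCommGroup G] [Fintype G] (p b e : ℕ) (N : AddSubgroup G)
    (D : Finset G), Hyp p b e N D → ∀ L : AddSubgroup G, L ≤ PP G p e →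
    p * Nat.card L = Nat.card (PP G p e) →
    (p : ℤ) * Rf p e D L L - Rf p e D L (PP G p e) =
      (p : ℤ) ^ b * ((p : ℤ) * Qf p e D L L - Qf p e D L (PP G p e))

/-- B2: trivial upper bound for the number of quadruples (from BF3, BF6) -/
def S_B2 : Prop := ∀ (G : Type) [AddCommGroup G] [Fintype G] (p b e : ℕ) (N : AddSubgroup G)
    (D : Finset G), Hyp p b e N D → ∀ L : AddSubgroup G, L ≤ PP G p e →
    Rf p e D L L + Nat.card L * p ^ b ≤
      (Nat.card L + 1) * N2 p e D L + 2 * p ^ b * (Nat.card L - 1)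

/-- B3: size of the classes mod L (from BF6) -/
def S_B3 : Prop := ∀ (G : Type) [AddCommGroup G] [Fintype G] (p b e : ℕ) (N : AddSubgroup G)
    (D : Finset G), Hyp p b e N D → ∀ L : AddSubgroup G, L ≤ PP G p e →
    Nat.card (PP G p e) * N2 p e D L + Nat.card L * p ^ b ≤
      Nat.card L * p ^ (2 * b) + Nat.card (PP G p e) * p ^ b

/-- B4: energy bound if |P| = p^2 (from B1, B2, B3, BF6) -/
def S_B4 : Prop := ∀ (G : Type) [AddCommGroup G] [Fintype G] (p b e : ℕ) (N : AddSubgroup G)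
    (D : Finset G), Hyp p b e N D → Nat.card (PP G p e) = p ^ 2 →
    ∀ L : AddSubgroup G, L ≤ PP G p e → Nat.card L = p →
    (Rf p e D L (PP G p e) : ℤ) ≤ 2 * (p : ℤ) ^ (2 * b) + (p : ℤ) ^ b * (3 * p ^ 2 - 2 * p - 2)

/-- EN: energy as a sum over translates -/
def S_EN : Prop := ∀ (G : Type) [AddCommGroup G] [Fintype G] (p b e : ℕ) (N : AddSubgroup G)
    (D : Finset G), Hyp p b e N D → ∀ L : AddSubgroup G, L ≤ PP G p e →
    ∑ y : G, Kf p e D L y ^ 2 = Nat.card (PP G p e) * Rf p e D L (PP G p e)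

/-- TT: variance of the number of sums in a coset of P (from BF1, BF2) -/
def S_TT : Prop := ∀ (G : Type) [AddCommGroup G] [Fintype G] (p b e : ℕ) (N : AddSubgroup G)
    (D : Finset G), Hyp p b e N D →
    ∑ y : G, ((tot p e D y : ℤ) - Nat.card (PP G p e)) ^ 2 ≤ Nat.card (PP G p e) * (p : ℤ) ^ (2 * b)

/-- MU: total number of moving pairs -/
def S_MU : Prop := ∀ (G : Type) [AddCommGroup G] [Fintype G] (p b e : ℕ) (N : AddSubgroup G)
    (D : Finset G), Hyp p b e N D →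
    ∑ y : G, mu p e D y + Nat.card (PP G p e) * N2 p e D ⊥ = Nat.card (PP G p e) * p ^ (2 * b)

/-- D1: number of lines of motion through a point (from C1) -/
def S_D1 : Prop := ∀ (G : Type) [AddCommGroup G] [Fintype G] (p b e : ℕ) (N : AddSubgroup G)
    (D : Finset G), Hyp p b e N D → ∀ g : G,
    cnt D (fun x y => lam p e x ≠ lam p e y ∧ ∃ s : ℕ, x + y + s • (lam p e x - lam p e y) = g) =
      p * mv p e D g

/-- D2: the pairs whose velocity is not in L are equidistributed over the cosets of L (from C1) -/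
def S_D2 : Prop := ∀ (G : Type) [AddCommGroup G] [Fintype G] (p b e : ℕ) (N : AddSubgroup G)
    (D : Finset G), Hyp p b e N D → ∀ L : AddSubgroup G, L ≤ PP G p e →
    p * Nat.card L = Nat.card (PP G p e) → ∀ g : G,
    p * cnt D (fun x y => x + y - g ∈ L ∧ lam p e x - lam p e y ∉ L) =
      cnt D (fun x y => x + y - g ∈ PP G p e ∧ lam p e x - lam p e y ∉ L)

/-- D3: (from BF3) -/
def S_D3 : Prop := ∀ (G : Type) [AddCommGroup G] [Fintype G] (p b e : ℕ) (N : AddSubgroup G)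
    (D : Finset G), Hyp p b e N D → ∀ g : G, mv p e D g = 0 ∨ mv p e D g = 2

/-- AR: arithmetic lemma -/
def S_AR : Prop := ∀ (p : ℕ), p.Prime → 5 ≤ p → ∀ (ι : Type) [Fintype ι],
    Fintype.card ι = p + 1 → ∀ (m : ℕ) (s t : ι → ℕ), m ≤ p ^ 2 →
    (∀ i, s i ≤ p) → (∀ i, t i ≤ p) → (∀ i, m = s i * p + (p - s i) * t i) →
    ∑ i, s i * (p - t i) = m →
    (∃ i, s i * (p - t i) = m) ∨ (p ^ 2 + 2 * p - 1 ≤ 2 * m ∧ (p = 5 → 42 ≤ 2 * m))

/-- SG: the p+1 lines of an elementary abelian group of order p^2 -/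
def S_SG : Prop := ∀ (G : Type) [AddCommGroup G] [Fintype G] (p : ℕ) (P : AddSubgroup G),
    p.Prime → Nat.card P = p ^ 2 → (∀ g ∈ P, p • g = 0) →
    ∃ 𝓛 : Finset (AddSubgroup G), 𝓛.card = p + 1 ∧ (∀ L ∈ 𝓛, L ≤ P ∧ Nat.card L = p) ∧
      ∀ v ∈ P, v ≠ 0 → ∃! L, L ∈ 𝓛 ∧ v ∈ L

/-- D4: dichotomy for a coset of P (from D1, D2, D3, AR, SG) -/
def S_D4 : Prop := ∀ (G : Type) [AddCommGroup G] [Fintype G] (p b e : ℕ) (N : AddSubgroup G)
    (D : Finset G), Hyp p b e N D → 5 ≤ p → Nat.card (PP G p e) = p ^ 2 → ∀ y : G,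
    (∃ L : AddSubgroup G, L ≤ PP G p e ∧ Nat.card L = p ∧ zf p e D L y = mu p e D y) ∨
      (p ^ 2 + 2 * p - 1 ≤ mu p e D y ∧ (p = 5 → 42 ≤ mu p e D y))

/-- FI: final numerical inequality -/
def S_FI : Prop := ∀ (p n k : ℤ), (p = 5 ∧ k = 17 ∨ 7 ≤ p ∧ k = 2 * p - 1) → p ^ 3 ≤ n →
    (p ^ 2 + k) ^ 2 * p ^ 2 * n ^ 2 +
      k ^ 2 * p ^ 2 * (p + 1) * (2 * n ^ 2 + n * (3 * p ^ 2 - 2 * p - 2)) <
    (n - 1) ^ 2 * (p ^ 2 - 1) ^ 2 * k ^ 2

/-- M1: the case |P| = p is impossible (from B1, B2, B3, BF6, BJ) -/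
def S_M1 : Prop := ∀ (G : Type) [AddCommGroup G] [Fintype G] (p b e : ℕ) (N : AddSubgroup G)
    (D : Finset G), Hyp p b e N D → Nat.card (PP G p e) ≠ p

/-- BJ: inequality of Blokhuis, Jungnickel and Schmidt (weak form) -/
def S_BJ : Prop := ∀ (G : Type) [AddCommGroup G] [Fintype G] (p b e : ℕ) (N : AddSubgroup G)
    (D : Finset G), Hyp p b e N D → (p - 2) * p ^ b < Nat.card {g : G // p • g = 0}

/-- GT: orders of the subgroups p^i G -/
def S_GT : Prop := ∀ (G : Type) [AddCommGroup G] [Fintype G] (p e : ℕ), p.Prime → 2 ≤ e →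
    (∀ g : G, p ^ e • g = 0) → Nat.card (PP G p e) ^ e ≤ Fintype.card G ∧
    (e = 2 → Nat.card {g : G // p • g = 0} * Nat.card (PP G p e) = Fintype.card G)

/-- M2: the case |P| = p^2 is impossible for p at least 5
(from B4, EN, TT, MU, B3, D4, FI, SG, and BJ, GT for b = 1, 2) -/
def S_M2 : Prop := ∀ (G : Type) [AddCommGroup G] [Fintype G] (p b e : ℕ) (N : AddSubgroup G)
    (D : Finset G), Hyp p b e N D → 5 ≤ p → Nat.card (PP G p e) ≠ p ^ 2

/-- T1: the theorem on relative difference sets (from M1, M2, BJ, GT) -/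
def S_T1 : Prop := ∀ (p b : ℕ), p.Prime → Odd p → 1 ≤ b →
    ∀ (G : Type) [AddCommGroup G] [Fintype G] [DecidableEq G],
    Fintype.card G = p ^ (2 * b) →
    ∀ (N : AddSubgroup G), Nat.card N = p ^ b →
    ∀ (D : Finset G), D.card = p ^ b →
    (∀ g : G, g ∉ N → ((D ×ˢ D).filter (fun x => x.1 - x.2 = g)).card = 1) →
    (∀ g : G, g ∈ N → g ≠ 0 → ((D ×ˢ D).filter (fun x => x.1 - x.2 = g)).card = 0) →
    ((∀ g : G, p • g = 0) ∨ ∃ e : ℕ, 2 ≤ e ∧ AddMonoid.exponent G = p ^ e ∧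
      p ^ 2 ≤ Nat.card (nsmulAddMonoidHom (p ^ (e - 1)) : G →+ G).range ∧
      (5 ≤ p → p ^ 3 ≤ Nat.card (nsmulAddMonoidHom (p ^ (e - 1)) : G →+ G).range)) ∧
    (5 ≤ p → b ≤ 3 → ∀ g : G, p • g = 0)

/-- T2: planar functions (from T1) -/
def S_T2 : Prop := ∀ (p r : ℕ), p.Prime → Odd p → 1 ≤ r →
    ∀ (H K : Type) [AddCommGroup H] [Fintype H] [AddCommGroup K] [Fintype K],
    Fintype.card H = p ^ r → Fintype.card K = p ^ r → ∀ f : H → K,
    (∀ h : H, h ≠ 0 → Function.Bijective (fun x => f (h + x) - f x)) →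
    (((∀ h : H, p • h = 0) ∧ (∀ k : K, p • k = 0)) ∨ ∃ e : ℕ, 2 ≤ e ∧
      AddMonoid.exponent (H × K) = p ^ e ∧
      p ^ 2 ≤ Nat.card (nsmulAddMonoidHom (p ^ (e - 1)) : H × K →+ H × K).range ∧
      (5 ≤ p → p ^ 3 ≤ Nat.card (nsmulAddMonoidHom (p ^ (e - 1)) : H × K →+ H × K).range)) ∧
    (5 ≤ p → r ≤ 3 → (∀ h : H, p • h = 0) ∧ (∀ k : K, p • k = 0))

end Pool.Agent.H176RD
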