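import Mathlib
import Pool.Agent.H176RD.Defs

set_option autoImplicit false
set_option linter.unusedSectionVars false

/-! Task BJ: the inequality of Blokhuis, Jungnickel and Schmidt (weak form). -/

namespace Pool.Agent.H176RD

open Finset Classical

namespace BJaux

variable {G : Type} [AddCommGroup G] [Fintype G]

/-- the basis elements of the group algebra -/
noncomputable def ee (p : ℕ) (g : G) : AddMonoidAlgebra (ZMod p) G :=
  AddMonoidAlgebra.single g 1

theorem ee_add (p : ℕ) (g h : G) : ee p (g + h) = ee p g * ee p h := by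
  unfold ee
  rw [AddMonoidAlgebra.single_mul_single, one_mul]

theorem ee_pow (p k : ℕ) (g : G) : ee p g ^ k = ee p (k • g) := by
  unfold ee
  rw [AddMonoidAlgebra.single_pow, one_pow]

theorem coef (p : ℕ) (c : G → ℕ) (h : ∑ g, c g • ee p g = 0) (g : G) :
    (c g : ZMod p) = 0 := by
  have h1 : (∑ g, c g • ee p g).coeff g = (0 : AddMonoidAlgebra (ZMod p) G).coeff g := by rw [h]
  rw [AddMonoidAlgebra.coeff_sum, Finsupp.finsetSum_apply] at h1
  simp only [AddMonoidAlgebra.coeff_smul, ee, AddMonoidAlgebra.coeff_single, Finsupp.smul_apply,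
    Finsupp.single_apply, AddMonoidAlgebra.coeff_zero, Finsupp.zero_apply] at h1
  rw [Finset.sum_eq_single g] at h1
  · simpa using h1
  · intro b _ hb
    simp [hb]
  · simp

theorem cnt_eq (D : Finset G) (Q : G → G → Prop)
    (h : ∀ x y, Q x y ↔ x = y) : cnt D Q = D.card := by
  have h1 : (D ×ˢ D).filter (fun x => Q x.1 x.2) = D.diag := by
    ext ⟨x, y⟩
    rw [Finset.mem_filter, Finset.mem_product, Finset.mem_diag, h]
    constructor
    · rintro ⟨⟨hx, _⟩, h⟩
      exact ⟨hx, h⟩
    · rintro ⟨hx, h⟩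
      exact ⟨⟨hx, h ▸ hx⟩, h⟩
  unfold cnt
  rw [h1, Finset.diag_card]

theorem fib (p : ℕ) (D : Finset G) (f : G → G → G) :
    ∑ x ∈ D, ∑ y ∈ D, ee p (f x y) = ∑ g, cnt D (fun x y => f x y = g) • ee p g := by
  rw [← Finset.sum_product', ← Finset.sum_fiberwise (D ×ˢ D) (fun x => f x.1 x.2)]
  refine Finset.sum_congr rfl (fun g _ => ?_)
  unfold cnt
  rw [← Finset.sum_const]
  refine Finset.sum_congr ?_ ?_
  · ext x; simp
  · intro x hx
    rw [(Finset.mem_filter.1 hx).2]

theorem cnt_zero_eq (p b e : ℕ) (N : AddSubgroup G) (D : Finset G) (hyp : Hyp p b e N D) :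
    cnt D (fun x y => x - y = 0) = p ^ b := by
  rw [cnt_eq D _ (fun x y => sub_eq_zero), hyp.card_D]

theorem key (p b e : ℕ) (N : AddSubgroup G) (D : Finset G) (hyp : Hyp p b e N D)
    (hT : ∀ d ∈ D, ∀ d' ∈ D, d - d' ∈ N → d = d') (g : G) :
    p ∣ cnt D (fun x y => p • x - y = g) := by
  have : Fact p.Prime := ⟨hyp.hp⟩
  have hch : CharP (AddMonoidAlgebra (ZMod p) G) p :=
    charP_of_injective_algebraMap (algebraMap (ZMod p) (AddMonoidAlgebra (ZMod p) G)).injective p
  have hp3 : 3 ≤ p := by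
    have h1 := hyp.hp.two_le
    have h2 := hyp.h2
    omega
  have hpk : ∀ x : AddMonoidAlgebra (ZMod p) G, (p ^ b) • x = 0 := by
    intro x
    rw [nsmul_eq_mul]
    push_cast
    rw [CharP.cast_eq_zero, zero_pow (by have := hyp.hb; omega), zero_mul]
  set X : AddMonoidAlgebra (ZMod p) G := ∑ d ∈ D, ee p d with hX
  set Y : AddMonoidAlgebra (ZMod p) G := ∑ d ∈ D, ee p (-d) with hY
  set GG : AddMonoidAlgebra (ZMod p) G := ∑ g : G, ee p g with hGG
  set NN : AddMonoidAlgebra (ZMod p) G := ∑ g ∈ univ.filter (fun g : G => g ∈ N), ee p g with hNN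
  have h1 : X * GG = 0 := by
    rw [hX, Finset.sum_mul]
    have h : ∀ d ∈ D, ee p d * GG = GG := by
      intro d _
      rw [hGG, Finset.mul_sum]
      exact Fintype.sum_equiv (Equiv.addLeft d) _ _ (fun x => (ee_add p d x).symm)
    rw [Finset.sum_congr rfl h, Finset.sum_const, hyp.card_D, hpk]
  have h2 : X * Y + NN = GG := by
    have hXY : X * Y = ∑ g, cnt D (fun x y => x - y = g) • ee p g := by
      rw [← fib, hX, hY, Finset.sum_mul_sum]
      refine Finset.sum_congr rfl (fun x _ => Finset.sum_congr rfl (fun y _ => ?_))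
      rw [← ee_add, sub_eq_add_neg]
    have hN : NN = ∑ g : G, (if g ∈ N then ee p g else 0) := by
      rw [hNN, Finset.sum_filter]
    rw [hXY, hN, ← Finset.sum_add_distrib, hGG]
    refine Finset.sum_congr rfl (fun g _ => ?_)
    by_cases hg : g ∈ N
    · rw [if_pos hg]
      by_cases h0 : g = 0
      · subst h0
        rw [cnt_zero_eq p b e N D hyp, hpk, zero_add]
      · rw [hyp.zero g hg h0, zero_smul, zero_add]
    · rw [if_neg hg, hyp.one g hg, one_smul, add_zero]
  have h3 : X * NN = GG := by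
    rw [hX, hNN, Finset.sum_mul_sum]
    have e1 : ∑ i ∈ D, ∑ j ∈ univ.filter (fun g : G => g ∈ N), ee p i * ee p j =
        ∑ x ∈ D ×ˢ univ.filter (fun g : G => g ∈ N), ee p (x.1 + x.2) := by
      rw [Finset.sum_product]
      refine Finset.sum_congr rfl (fun x _ => Finset.sum_congr rfl (fun y _ => ?_))
      rw [ee_add]
    rw [e1]
    have inj : Set.InjOn (fun x : G × G => x.1 + x.2)
        (D ×ˢ univ.filter (fun g : G => g ∈ N) : Finset (G × G)) := by
      rintro ⟨a, c⟩ hx ⟨a', c'⟩ hy hxy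
      simp only [Finset.coe_product, Finset.coe_filter, Finset.mem_univ, true_and, Set.mem_prod,
        Finset.mem_coe, Set.mem_ofPred_eq] at hx hy hxy
      have h : a - a' ∈ N := by
        have : a - a' = c' - c := by
          rw [sub_eq_sub_iff_add_eq_add, hxy]; abel
        rw [this]
        exact N.sub_mem hy.2 hx.2
      have h' := hT a hx.1 a' hy.1 h
      subst h'
      have := add_left_cancel hxy
      subst this
      rfl
    have cN : (univ.filter (fun g : G => g ∈ N)).card = p ^ b := by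
      rw [← hyp.card_N, Nat.card_eq_fintype_card, Fintype.card_subtype]
    have im : (D ×ˢ univ.filter (fun g : G => g ∈ N)).image (fun x : G × G => x.1 + x.2) =
        univ := by
      apply Finset.eq_univ_of_card
      rw [Finset.card_image_of_injOn inj, Finset.card_product, hyp.card_D, cN, hyp.card_G]
      ring
    exact (Finset.sum_image (f := fun g => ee p g) inj).symm.trans (by rw [im])
  have h4 : X ^ p * Y = 0 := by
    obtain ⟨k, hk⟩ : ∃ k, p = k + 3 := ⟨p - 3, by omega⟩
    have hY' : X * Y = GG - NN := by rw [← h2]; ring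
    have : X ^ p * Y = X ^ (k + 1) * (X * (X * Y)) := by
      have hXp : X ^ p = X ^ (k + 3) := congrArg (fun i => X ^ i) hk
      rw [hXp]
      ring
    rw [this, hY', mul_sub, h1, h3, zero_sub, pow_succ, mul_assoc, mul_neg, h1]
    simp
  have h5 : X ^ p = ∑ d ∈ D, ee p (p • d) := by
    rw [hX, sum_pow_char p]
    exact Finset.sum_congr rfl (fun x _ => ee_pow p p x)
  have h6 : ∑ g, cnt D (fun x y => p • x - y = g) • ee p g = 0 := by
    rw [← fib, ← h4, h5, hY, Finset.sum_mul_sum]
    refine Finset.sum_congr rfl (fun x _ => Finset.sum_congr rfl (fun y _ => ?_))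
    rw [← ee_add, sub_eq_add_neg]
  exact (ZMod.natCast_eq_zero_iff _ _).1 (coef p _ h6 g)

theorem cnt_sum (D : Finset G) (Q : G → G → Prop) :
    cnt D Q = ∑ x ∈ D, ∑ y ∈ D, (if Q x y then 1 else 0) := by
  unfold cnt
  rw [Finset.card_filter, Finset.sum_product]

theorem sum_fib (D : Finset G) (f : G → G → G) :
    ∑ g, cnt D (fun x y => f x y = g) = D.card * D.card := by
  simp only [cnt_sum]
  rw [Finset.sum_comm]
  have h : ∀ x ∈ D, ∑ g, ∑ y ∈ D, (if f x y = g then 1 else 0) = D.card := by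
    intro x _
    rw [Finset.sum_comm]
    simp
  rw [Finset.sum_congr rfl h, Finset.sum_const, smul_eq_mul]

theorem sum_sq (D : Finset G) (p : ℕ) :
    ∑ g, cnt D (fun x y => p • x - y = g) * cnt D (fun x y => p • x - y = g) =
      ∑ x ∈ D, ∑ x' ∈ D, cnt D (fun y y' => y - y' = p • x - p • x') := by
  have h1 : ∀ g, cnt D (fun x y => p • x - y = g) * cnt D (fun x y => p • x - y = g) =
      ∑ x ∈ D, ∑ y ∈ D, (if p • x - y = g then cnt D (fun x y => p • x - y = g) else 0) := by
    intro g
    nth_rewrite 1 [cnt_sum]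
    rw [Finset.sum_mul]
    refine Finset.sum_congr rfl (fun x _ => ?_)
    rw [Finset.sum_mul]
    refine Finset.sum_congr rfl (fun y _ => ?_)
    split_ifs <;> simp
  simp only [h1]
  rw [Finset.sum_comm]
  refine Finset.sum_congr rfl (fun x _ => ?_)
  rw [Finset.sum_comm]
  have h2 : ∀ y ∈ D, ∑ g, (if p • x - y = g then cnt D (fun x y => p • x - y = g) else 0) =
      ∑ x' ∈ D, ∑ y' ∈ D, (if p • x' - y' = p • x - y then 1 else 0) := by
    intro y _
    rw [Finset.sum_ite_eq univ (p • x - y), if_pos (Finset.mem_univ _), cnt_sum]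
  rw [Finset.sum_congr rfl h2, Finset.sum_comm]
  refine Finset.sum_congr rfl (fun x' _ => ?_)
  rw [cnt_sum]
  refine Finset.sum_congr rfl (fun y _ => Finset.sum_congr rfl (fun y' _ => ?_))
  congr 1
  apply propext
  constructor
  · intro h
    have : y - y' = p • x - (p • x - y) - y' := by abel
    rw [this, ← h]; abel
  · intro h
    have : p • x' - y' = p • x' + (y - y') - y := by abel
    rw [this, h]; abel

end BJaux

theorem BJ (hBF3 : S_BF3) (hBF6 : S_BF6) : S_BJ := by
  intro G _ _ p b e N D hyp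
  have hp := hyp.hp
  have hp3 : 3 ≤ p := by
    have h1 := hyp.hp.two_le
    have h2 := hyp.h2
    omega
  have hn1 : 1 ≤ p ^ b := Nat.one_le_pow _ _ hp.pos
  have hkey := BJaux.key p b e N D hyp (hBF3 G p b e N D hyp).2.2
  have hS := BJaux.sum_sq D p
  have hT := BJaux.sum_fib D (fun x y => p • x - y)
  rw [hyp.card_D] at hT
  -- lower bound
  have hlow : p * (p ^ b * p ^ b) ≤
      ∑ x ∈ D, ∑ x' ∈ D, cnt D (fun y y' => y - y' = p • x - p • x') := by
    rw [← hS, ← hT, Finset.mul_sum]
    refine Finset.sum_le_sum (fun g _ => ?_)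
    obtain ⟨k, hk⟩ := hkey g
    rcases Nat.eq_zero_or_pos k with h0 | h0
    · rw [hk, h0]; simp
    · refine Nat.mul_le_mul_right _ ?_
      rw [hk]
      exact Nat.le_mul_of_pos_right p h0
  -- the subgroup of elements of order p
  set H : AddSubgroup G := (nsmulAddMonoidHom p : G →+ G).ker with hH
  have hmem : ∀ g : G, g ∈ H ↔ p • g = 0 := by
    intro g
    rw [hH, AddMonoidHom.mem_ker, nsmulAddMonoidHom_apply]
  have hcard : Nat.card H = Nat.card {g : G // p • g = 0} :=
    Nat.card_congr (Equiv.subtypeEquivRight hmem)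
  have h6 := hBF6 G p b e N D hyp H
  rw [hcard] at h6
  have h7 : 1 ≤ Nat.card (H ⊓ N : AddSubgroup G) := Nat.card_pos
  -- upper bound
  have hup : ∑ x ∈ D, ∑ x' ∈ D, cnt D (fun y y' => y - y' = p • x - p • x') ≤
      p ^ b * p ^ b + (p ^ b - 1) * cnt D (fun x y => x - y ∈ H) := by
    have hb : ∀ x x' : G, cnt D (fun y y' => y - y' = p • x - p • x') ≤
        1 + (p ^ b - 1) * (if x - x' ∈ H then 1 else 0) := by
      intro x x'
      by_cases h0 : p • x - p • x' = 0
      · rw [h0, BJaux.cnt_zero_eq p b e N D hyp, if_pos ((hmem _).2 (by rw [smul_sub]; exact h0))]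
        omega
      · by_cases hN : p • x - p • x' ∈ N
        · rw [hyp.zero _ hN h0]
          exact Nat.zero_le _
        · rw [hyp.one _ hN]
          exact Nat.le_add_right _ _
    calc ∑ x ∈ D, ∑ x' ∈ D, cnt D (fun y y' => y - y' = p • x - p • x')
        ≤ ∑ x ∈ D, ∑ x' ∈ D, (1 + (p ^ b - 1) * (if x - x' ∈ H then 1 else 0)) :=
          Finset.sum_le_sum (fun x _ => Finset.sum_le_sum (fun x' _ => hb x x'))
      _ = p ^ b * p ^ b + (p ^ b - 1) * cnt D (fun x y => x - y ∈ H) := by
          simp only [Finset.sum_add_distrib, Finset.sum_const, hyp.card_D, smul_eq_mul, mul_one,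
            ← Finset.mul_sum]
          rw [BJaux.cnt_sum]
          congr!
  -- conclusion
  by_contra hcon
  rw [not_lt] at hcon
  have hfin := hlow.trans hup
  generalize Nat.card {g : G // p • g = 0} = h at *
  generalize Nat.card (H ⊓ N : AddSubgroup G) = t at *
  generalize cnt D (fun x y => x - y ∈ H) = c at *
  generalize p ^ b = n at *
  obtain ⟨q, rfl⟩ : ∃ q, p = q + 3 := ⟨p - 3, by omega⟩
  obtain ⟨m, rfl⟩ : ∃ m, n = m + 1 := ⟨n - 1, by omega⟩
  have e1 : q + 3 - 2 = q + 1 := by omega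
  have e2 : m + 1 - 1 = m := by omega
  rw [e1] at hcon
  rw [e2] at hfin
  have hc : c + 1 ≤ (q + 2) * (m + 1) := by
    have : (q + 2) * (m + 1) = (q + 1) * (m + 1) + (m + 1) := by ring
    omega
  have hmc : m * c ≤ m * ((q + 2) * (m + 1)) := Nat.mul_le_mul_left _ (by omega)
  nlinarith

end Pool.Agent.H176RD
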