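import Pool.Agent.H176RD.Defs

set_option autoImplicit false

/-! Task C1 (helper415): time invariance of the multiset of sums. -/

namespace Pool.Agent.H176RD

open Finset Classical

namespace C1aux

/-- Fourier inversion for the number of pairs -/
lemma key {G : Type} [AddCommGroup G] [Fintype G] (D : Finset G) (φ : G → G → G) (g : G) :
    ((cnt D (fun x y => φ x y = g) : ℕ) : ℂ) * (Fintype.card G : ℂ) =
      ∑ χ : AddChar G ℂ, χ (-g) * ∑ x ∈ D, ∑ y ∈ D, χ (φ x y) := by
  have h1 : ∀ χ : AddChar G ℂ, χ (-g) * ∑ x ∈ D, ∑ y ∈ D, χ (φ x y) =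
      ∑ z ∈ D ×ˢ D, χ (φ z.1 z.2 - g) := by
    intro χ
    rw [← Finset.sum_product', Finset.mul_sum]
    apply Finset.sum_congr rfl
    intro z _
    rw [← AddChar.map_add_eq_mul]
    congr 1
    abel
  rw [Finset.sum_congr rfl fun χ _ => h1 χ, Finset.sum_comm]
  have h2 : ∀ z ∈ D ×ˢ D, ∑ χ : AddChar G ℂ, χ (φ z.1 z.2 - g) =
      if φ z.1 z.2 = g then (Fintype.card G : ℂ) else 0 := by
    intro z _
    rw [AddChar.sum_apply_eq_ite]
    simp only [sub_eq_zero]
  rw [Finset.sum_congr rfl h2, ← Finset.sum_filter, Finset.sum_const, nsmul_eq_mul]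
  unfold cnt
  congr

/-- equal character sums give equal counts -/
lemma cnt_eq {G : Type} [AddCommGroup G] [Fintype G] (D : Finset G) (φ ψ : G → G → G) (g : G)
    (h : ∀ χ : AddChar G ℂ, ∑ x ∈ D, ∑ y ∈ D, χ (φ x y) = ∑ x ∈ D, ∑ y ∈ D, χ (ψ x y)) :
    cnt D (fun x y => φ x y = g) = cnt D (fun x y => ψ x y = g) := by
  have h1 := key D φ g
  have h2 := key D ψ g
  rw [Finset.sum_congr rfl fun χ _ => by rw [h χ], ← h2] at h1
  have h3 : (Fintype.card G : ℂ) ≠ 0 := Nat.cast_ne_zero.2 Fintype.card_ne_zero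
  exact_mod_cast mul_right_cancel₀ h3 h1

lemma lam_apply {G : Type} [AddCommGroup G] (p e : ℕ) (g : G) : lam p e g = p ^ (e - 1) • g := rfl

lemma p_lam {G : Type} [AddCommGroup G] [Fintype G] {p b e : ℕ} {N : AddSubgroup G}
    {D : Finset G} (h : Hyp p b e N D) (g : G) : p • lam p e g = 0 := by
  rw [lam_apply, ← mul_nsmul', ← pow_succ', Nat.sub_add_cancel (by have := h.he; omega)]
  exact h.exp g

lemma lam_lam {G : Type} [AddCommGroup G] [Fintype G] {p b e : ℕ} {N : AddSubgroup G}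
    {D : Finset G} (h : Hyp p b e N D) (g : G) : lam p e (lam p e g) = 0 := by
  have he := h.he
  rw [lam_apply p e (lam p e g), show e - 1 = (e - 2) + 1 by omega, pow_succ, mul_nsmul']
  have h1 := p_lam h g
  rw [lam_apply] at h1
  rw [lam_apply, show e - 1 = (e - 2) + 1 by omega] at *
  rw [h1, nsmul_zero]

lemma neg_s {G : Type} [AddCommGroup G] [Fintype G] {p b e : ℕ} {N : AddSubgroup G}
    {D : Finset G} (h : Hyp p b e N D) (s : ℕ) (g : G) :
    -(s • lam p e g) = (s * (p - 1)) • lam p e g := by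
  rw [neg_eq_iff_add_eq_zero, ← add_nsmul]
  have hp := h.hp.pos
  have h1 : s + s * (p - 1) = s * p := by
    obtain ⟨q, rfl⟩ : ∃ q, p = q + 1 := ⟨p - 1, by omega⟩
    rw [Nat.add_sub_cancel]; ring
  rw [h1, mul_nsmul', p_lam h, nsmul_zero]

end C1aux

open C1aux

theorem C1 (hA2 : S_A2) (hBF2 : S_BF2) : S_C1 := by
  intro G _ _ p b e N D h s g
  apply cnt_eq D (fun x y => x + y + s • (lam p e x - lam p e y)) (fun x y => x + y) g
  intro χ
  have e1 : ∑ x ∈ D, ∑ y ∈ D, χ (x + y + s • (lam p e x - lam p e y)) =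
      (∑ x ∈ D, χ (x + s • lam p e x)) * ∑ y ∈ D, χ (y + (s * (p - 1)) • lam p e y) := by
    rw [Finset.sum_mul_sum]
    apply Finset.sum_congr rfl
    intro x _
    apply Finset.sum_congr rfl
    intro y _
    rw [← AddChar.map_add_eq_mul, ← neg_s h, smul_sub]
    congr 1
    abel
  have e2 : ∑ x ∈ D, ∑ y ∈ D, χ (x + y) = (∑ x ∈ D, χ x) * ∑ y ∈ D, χ y := by
    rw [Finset.sum_mul_sum]
    apply Finset.sum_congr rfl
    intro x _
    apply Finset.sum_congr rfl
    intro y _
    rw [AddChar.map_add_eq_mul]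
  rw [e1, e2]
  by_cases hN : ∃ g ∈ N, χ g ≠ 1
  · obtain ⟨u, hu, hs⟩ := hA2 G p b e N D h χ hN
    rw [hs s, hs (s * (p - 1))]
    have hp := h.hp.pos
    have h1 : u ^ s * u ^ (s * (p - 1)) = 1 := by
      rw [← pow_add]
      have h1 : s + s * (p - 1) = p * s := by
        obtain ⟨q, rfl⟩ : ∃ q, p = q + 1 := ⟨p - 1, by omega⟩
        rw [Nat.add_sub_cancel]; ring
      rw [h1, pow_mul, hu, one_pow]
    linear_combination (∑ d ∈ D, χ d) ^ 2 * h1
  · push Not at hN
    by_cases h1 : ∃ g, χ g ≠ 1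
    · have h2 := hBF2 G p b e N D h χ hN h1
      have h3 : ∑ x ∈ D, χ (x + s • lam p e x) = 0 := by
        obtain ⟨χ', hχ'⟩ : ∃ χ' : AddChar G ℂ, ∀ g, χ' g = χ (g + s • lam p e g) := by
          refine ⟨χ.compAddMonoidHom (AddMonoidHom.id G + s • lam p e), fun g => ?_⟩
          simp
        have h4 := hBF2 G p b e N D h χ' (by
          intro g hg
          rw [hχ']
          apply hN
          apply N.add_mem hg
          rw [lam_apply]
          exact N.nsmul_mem (N.nsmul_mem hg _) _) (by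
          obtain ⟨g, hg⟩ := h1
          refine ⟨g - s • lam p e g, ?_⟩
          rw [hχ', map_sub, map_nsmul, lam_lam h, nsmul_zero, sub_zero, sub_add_cancel]
          exact hg)
        rw [← h4]
        exact Finset.sum_congr rfl fun x _ => (hχ' x).symm
      rw [h3, h2, zero_mul, zero_mul]
    · push Not at h1
      simp only [h1]

end Pool.Agent.H176RD
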