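import Mathlib
import Pool.Agent.H176RD.Defs

set_option autoImplicit false

/-! The number of lines of motion through a point. -/

namespace Pool.Agent.H176RD

open Finset Classical

theorem D13_cnt {G : Type} (D : Finset G) (Q : G → G → Prop) :
    cnt D Q = ∑ x ∈ D ×ˢ D, if Q x.1 x.2 then 1 else 0 := by
  unfold cnt
  rw [Finset.card_filter]

theorem D13_split {G : Type} (D : Finset G) (Q R : G → G → Prop) :
    cnt D Q = cnt D (fun x y => ¬ R x y ∧ Q x y) + cnt D (fun x y => R x y ∧ Q x y) := by
  rw [D13_cnt, D13_cnt, D13_cnt, ← Finset.sum_add_distrib]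
  refine Finset.sum_congr rfl fun x _ => ?_
  by_cases h1 : Q x.1 x.2 <;> by_cases h2 : R x.1 x.2 <;> simp [h1, h2]

theorem D13_lam {G : Type} [AddCommGroup G] [Fintype G] {p b e : ℕ} {N : AddSubgroup G}
    {D : Finset G} (h : Hyp p b e N D) (x : G) : p • lam p e x = 0 := by
  have h1 : p • lam p e x = p ^ e • x := by
    change p • (p ^ (e - 1) • x) = p ^ e • x
    rw [← mul_smul]
    congr 1
    have := h.he
    obtain ⟨k, rfl⟩ : ∃ k, e = k + 1 := ⟨e - 1, by omega⟩
    rw [Nat.add_sub_cancel, pow_succ]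
    ring
  rw [h1, h.exp]

/-- uniqueness of the time -/
theorem D13_time {G : Type} [AddCommGroup G] {p : ℕ} (hp : p.Prime) (v w : G) (hv : v ≠ 0)
    (hpv : p • v = 0) :
    ((Finset.range p).filter (fun s => s • v = w)).card = if ∃ s : ℕ, s • v = w then 1 else 0 := by
  have hord : addOrderOf v = p := by
    have _ : Fact p.Prime := ⟨hp⟩
    exact addOrderOf_eq_prime hpv hv
  split_ifs with hex
  · obtain ⟨s, hs⟩ := hex
    rw [Finset.card_eq_one]
    refine ⟨s % p, ?_⟩
    ext r
    simp only [mem_filter, Finset.mem_range, mem_singleton]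
    constructor
    · rintro ⟨hr, hrw⟩
      rw [← hs] at hrw
      have h1 := (nsmul_eq_nsmul_iff_modEq (x := v)).1 hrw
      rw [hord] at h1
      have h2 : r % p = s % p := h1
      rw [Nat.mod_eq_of_lt hr] at h2
      exact h2
    · rintro rfl
      refine ⟨Nat.mod_lt _ hp.pos, ?_⟩
      rw [← hs, ← hord]
      exact mod_addOrderOf_nsmul v s
  · rw [Finset.card_eq_zero, Finset.filter_eq_empty_iff]
    intro s _ hs
    exact hex ⟨s, hs⟩

theorem D1 (hC1 : S_C1) : S_D1 := by
  intro G _ _ p b e N D h g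
  have hC := hC1 G p b e N D h
  have h1 : ∑ s ∈ Finset.range p, cnt D (fun x y => x + y + s • (lam p e x - lam p e y) = g) =
      p * cnt D (fun x y => x + y = g) := by
    rw [Finset.sum_congr rfl fun s _ => hC s g, Finset.sum_const, Finset.card_range, smul_eq_mul]
  have h2 : ∑ s ∈ Finset.range p, cnt D (fun x y => x + y + s • (lam p e x - lam p e y) = g) =
      p * cnt D (fun x y => ¬ lam p e x ≠ lam p e y ∧ x + y = g) +
      cnt D (fun x y => lam p e x ≠ lam p e y ∧
        ∃ s : ℕ, x + y + s • (lam p e x - lam p e y) = g) := by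
    simp only [D13_cnt]
    rw [Finset.sum_comm, Finset.mul_sum, ← Finset.sum_add_distrib]
    refine Finset.sum_congr rfl fun x _ => ?_
    by_cases hx : lam p e x.1 = lam p e x.2
    · simp only [hx, sub_self, smul_zero, add_zero, ne_eq, not_true_eq_false, not_false_eq_true,
        true_and, false_and, if_false, Finset.sum_const, Finset.card_range, smul_eq_mul]
    · simp only [ne_eq, hx, not_false_eq_true, not_true_eq_false, false_and, if_false, mul_zero,
        zero_add, true_and]
      have hv : lam p e x.1 - lam p e x.2 ≠ 0 := sub_ne_zero.2 hx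
      have hpv : p • (lam p e x.1 - lam p e x.2) = 0 := by
        rw [smul_sub, D13_lam h, D13_lam h, sub_zero]
      have key := D13_time h.hp (lam p e x.1 - lam p e x.2) (g - (x.1 + x.2)) hv hpv
      have e1 : ∀ s : ℕ, (x.1 + x.2 + s • (lam p e x.1 - lam p e x.2) = g) ↔
          s • (lam p e x.1 - lam p e x.2) = g - (x.1 + x.2) := by
        intro s
        rw [eq_sub_iff_add_eq']
      simp only [e1]
      rw [← Finset.card_filter]
      exact key
  have h3 := D13_split D (fun x y => x + y = g) (fun x y => lam p e x ≠ lam p e y)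
  have h4 : mv p e D g = cnt D (fun x y => lam p e x ≠ lam p e y ∧ x + y = g) := rfl
  rw [h4]
  rw [h1, h3, mul_add] at h2
  omega

theorem D3 (hBF3 : S_BF3) : S_D3 := by
  intro G _ _ p b e N D h g
  have hB := (hBF3 G p b e N D h).1
  have hcnt : mv p e D g = ((D ×ˢ D).filter
      (fun x => lam p e x.1 ≠ lam p e x.2 ∧ x.1 + x.2 = g)).card := by
    unfold mv cnt
    congr
  rw [hcnt]
  by_cases hne : ((D ×ˢ D).filter
      (fun x => lam p e x.1 ≠ lam p e x.2 ∧ x.1 + x.2 = g)).Nonempty
  · right
    obtain ⟨⟨x, y⟩, hxy⟩ := hne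
    simp only [mem_filter, mem_product] at hxy
    obtain ⟨⟨hx, hy⟩, hl, hs⟩ := hxy
    have hxy : x ≠ y := fun h => hl (by rw [h])
    rw [Finset.card_eq_two]
    refine ⟨(x, y), (y, x), ?_, ?_⟩
    · intro h
      exact hxy (Prod.mk.inj h).1
    · ext ⟨a, c⟩
      simp only [mem_filter, mem_product, mem_insert, mem_singleton, Prod.mk.injEq]
      constructor
      · rintro ⟨⟨ha, hc⟩, hl', hs'⟩
        exact hB a ha c hc x hx y hy (hs'.trans hs.symm)
      · rintro (⟨rfl, rfl⟩ | ⟨rfl, rfl⟩)
        · exact ⟨⟨hx, hy⟩, hl, hs⟩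
        · exact ⟨⟨hy, hx⟩, fun h => hl h.symm, by rw [add_comm]; exact hs⟩
  · left
    rw [Finset.not_nonempty_iff_eq_empty] at hne
    rw [hne, Finset.card_empty]

end Pool.Agent.H176RD
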