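import Pool.Agent.H176RD.Defs

set_option autoImplicit false

/-! D2: equidistribution over the cosets of `L`. -/

namespace Pool.Agent.H176RD

open Finset Classical

theorem d2_count {G : Type} [AddCommGroup G] [Fintype G] (p : ℕ) (hp : p.Prime)
    (P L : AddSubgroup G) (hLP : L ≤ P) (hc : p * Nat.card L = Nat.card P) (v : G) (hv : v ∈ P)
    (hvL : v ∉ L) (hpv : p • v = 0) (w : G) :
    ((Finset.range p).filter (fun s => w + s • v ∈ L)).card = if w ∈ P then 1 else 0 := by
  have huniq : ∀ s1 ∈ Finset.range p, ∀ s2 ∈ Finset.range p, s1 ≤ s2 →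
      w + s1 • v - (w + s2 • v) ∈ L → s1 = s2 := by
    intro s1 h1 s2 h2 hle h
    by_contra hne
    have h3 : (s2 - s1) • v ∈ L := by
      have : (s2 - s1) • v = -(w + s1 • v - (w + s2 • v)) := by
        have e : s2 • v = s1 • v + (s2 - s1) • v := by
          rw [← add_nsmul]; congr 1; omega
        rw [e]; abel
      rw [this]
      exact L.neg_mem h
    have hco : Nat.Coprime (s2 - s1) p := by
      rw [Nat.coprime_comm]
      refine (Nat.Prime.coprime_iff_not_dvd hp).2 fun hd => ?_
      have := Nat.le_of_dvd (by omega) hd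
      simp only [Finset.mem_range] at h1 h2
      omega
    have hb := Nat.gcd_eq_gcd_ab (s2 - s1) p
    rw [hco] at hb
    apply hvL
    have : v = (Nat.gcdA (s2 - s1) p) • ((s2 - s1) • v) + (Nat.gcdB (s2 - s1) p) • (p • v) := by
      rw [← natCast_zsmul v (s2 - s1), ← natCast_zsmul v p, smul_smul, smul_smul, ← add_zsmul]
      have e : Nat.gcdA (s2 - s1) p * ((s2 - s1 : ℕ) : ℤ) + Nat.gcdB (s2 - s1) p * (p : ℤ) = 1 := by
        have := hb
        push_cast at this ⊢
        linarith
      rw [e, one_zsmul]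
    rw [this, hpv, smul_zero, add_zero]
    exact L.zsmul_mem h3 _
  by_cases hw : w ∈ P
  · rw [if_pos hw]
    have hmem : ∀ s : ℕ, w + s • v ∈ P := fun s => P.add_mem hw (P.nsmul_mem hv s)
    let L' : AddSubgroup P := L.addSubgroupOf P
    have hL' : Nat.card L' = Nat.card L :=
      Nat.card_congr (AddSubgroup.addSubgroupOfEquivOfLe hLP).toEquiv
    have hq : Nat.card (P ⧸ L') = p := by
      have h1 := AddSubgroup.card_eq_card_quotient_mul_card_addSubgroup L'
      rw [hL', ← hc] at h1
      have h2 : 0 < Nat.card L := Nat.card_pos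
      exact (Nat.eq_of_mul_eq_mul_right h2 h1).symm
    let f : Fin p → P ⧸ L' := fun s => QuotientAddGroup.mk ⟨w + (s : ℕ) • v, hmem s⟩
    have hinj : Function.Injective f := by
      intro s1 s2 h
      have h1 := (QuotientAddGroup.eq (s := L')).1 h
      have h2 : -(w + (s1 : ℕ) • v) + (w + (s2 : ℕ) • v) ∈ L := by
        simpa [L', AddSubgroup.mem_addSubgroupOf] using h1
      have e1 : w + (s2 : ℕ) • v - (w + (s1 : ℕ) • v) ∈ L := by
        have : w + (s2 : ℕ) • v - (w + (s1 : ℕ) • v) =
          -(w + (s1 : ℕ) • v) + (w + (s2 : ℕ) • v) := by abel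
        rw [this]; exact h2
      have e2 : w + (s1 : ℕ) • v - (w + (s2 : ℕ) • v) ∈ L := by
        have := L.neg_mem e1
        rwa [neg_sub] at this
      rcases le_total (s1 : ℕ) (s2 : ℕ) with hle | hle
      · exact Fin.ext (huniq _ (Finset.mem_range.2 s1.2) _ (Finset.mem_range.2 s2.2) hle e2)
      · exact Fin.ext (huniq _ (Finset.mem_range.2 s2.2) _ (Finset.mem_range.2 s1.2) hle e1).symm
    haveI : Finite (P ⧸ L') := inferInstance
    haveI : Fintype (P ⧸ L') := Fintype.ofFinite _
    have hbij : Function.Bijective f := by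
      rw [Fintype.bijective_iff_injective_and_card]
      refine ⟨hinj, ?_⟩
      rw [Fintype.card_fin, ← Nat.card_eq_fintype_card, hq]
    obtain ⟨s0, hs0⟩ := hbij.2 (QuotientAddGroup.mk 0)
    have hiff : ∀ s : Fin p, f s = QuotientAddGroup.mk 0 ↔ w + (s : ℕ) • v ∈ L := by
      intro s
      change (QuotientAddGroup.mk (⟨w + (s : ℕ) • v, hmem s⟩ : P) : P ⧸ L') =
        QuotientAddGroup.mk (0 : P) ↔ _
      rw [QuotientAddGroup.mk_zero, QuotientAddGroup.eq_zero_iff]
      exact AddSubgroup.mem_addSubgroupOf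
    rw [Finset.card_eq_one]
    refine ⟨(s0 : ℕ), ?_⟩
    ext s
    simp only [Finset.mem_filter, Finset.mem_range, Finset.mem_singleton]
    constructor
    · rintro ⟨hs, h⟩
      have := (hiff ⟨s, hs⟩).2 h
      have h3 := hinj (this.trans hs0.symm)
      exact congrArg Fin.val h3
    · rintro rfl
      exact ⟨s0.2, (hiff s0).1 hs0⟩
  · rw [if_neg hw, Finset.card_eq_zero]
    rw [Finset.filter_eq_empty_iff]
    intro s _ h
    apply hw
    have : w = (w + s • v) - s • v := by abel
    rw [this]
    exact P.sub_mem (hLP h) (P.nsmul_mem hv s)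

theorem d2_shift (hC1 : S_C1) {G : Type} [AddCommGroup G] [Fintype G] (p b e : ℕ)
    (N : AddSubgroup G) (D : Finset G) (hH : Hyp p b e N D) (L : AddSubgroup G) (g : G) (s : ℕ) :
    cnt D (fun x y => x + y + s • (lam p e x - lam p e y) - g ∈ L) =
      cnt D (fun x y => x + y - g ∈ L) := by
  have key : ∀ F : G → G → G, cnt D (fun x y => F x y - g ∈ L) =
      ∑ g' ∈ (Finset.univ : Finset G).filter (fun g' => g' - g ∈ L),
        cnt D (fun x y => F x y = g') := by
    intro F
    unfold cnt
    rw [Finset.card_eq_sum_card_fiberwise (f := fun x : G × G => F x.1 x.2)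
      (t := (Finset.univ : Finset G).filter (fun g' => g' - g ∈ L))]
    · refine Finset.sum_congr rfl fun g' hg' => ?_
      congr 1
      ext x
      simp only [Finset.mem_filter, Finset.mem_univ, true_and] at hg' ⊢
      constructor
      · rintro ⟨⟨h1, h2⟩, h3⟩
        exact ⟨h1, h3⟩
      · rintro ⟨h1, h3⟩
        exact ⟨⟨h1, by rw [h3]; exact hg'⟩, h3⟩
    · intro x hx
      simp only [Finset.coe_filter, Set.mem_setOf_eq, Finset.mem_univ, true_and] at hx ⊢
      exact hx.2
  rw [key (fun x y => x + y + s • (lam p e x - lam p e y)), key (fun x y => x + y)]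
  exact Finset.sum_congr rfl fun g' _ => hC1 G p b e N D hH s g'

theorem D2 (hC1 : S_C1) : S_D2 := by
  intro G _ _ p b e N D hH L hLP hc g
  have hp := hH.hp
  have hpv : ∀ x y : G, p • (lam p e x - lam p e y) = 0 := by
    intro x y
    have h1 : ∀ x : G, p • lam p e x = 0 := by
      intro x
      change p • (p ^ (e - 1) • x) = 0
      rw [smul_smul, ← pow_succ', Nat.sub_add_cancel (by have := hH.he; omega)]
      exact hH.exp x
    rw [smul_sub, h1, h1, sub_zero]
  have hvP : ∀ x y : G, lam p e x - lam p e y ∈ PP G p e := fun x y =>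
    AddSubgroup.sub_mem _ ⟨x, rfl⟩ ⟨y, rfl⟩
  have h1 : ∑ s ∈ Finset.range p, cnt D (fun x y => x + y + s • (lam p e x - lam p e y) - g ∈ L) =
      p * cnt D (fun x y => x + y - g ∈ L) := by
    rw [Finset.sum_congr rfl fun s _ => d2_shift hC1 p b e N D hH L g s]
    simp
  have h2 : ∑ s ∈ Finset.range p, cnt D (fun x y => x + y + s • (lam p e x - lam p e y) - g ∈ L) =
      p * cnt D (fun x y => x + y - g ∈ L ∧ lam p e x - lam p e y ∈ L) +
      cnt D (fun x y => x + y - g ∈ PP G p e ∧ lam p e x - lam p e y ∉ L) := by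
    unfold cnt
    simp only [Finset.card_filter]
    rw [Finset.sum_comm, Finset.mul_sum, ← Finset.sum_add_distrib]
    refine Finset.sum_congr rfl fun x _ => ?_
    by_cases hv : lam p e x.1 - lam p e x.2 ∈ L
    · have : ∀ s ∈ Finset.range p, (if x.1 + x.2 + s • (lam p e x.1 - lam p e x.2) - g ∈ L then 1
          else 0) = if x.1 + x.2 - g ∈ L then 1 else 0 := by
        intro s _
        have hiff : x.1 + x.2 + s • (lam p e x.1 - lam p e x.2) - g ∈ L ↔ x.1 + x.2 - g ∈ L := by
          have e1 : x.1 + x.2 + s • (lam p e x.1 - lam p e x.2) - g =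
            (x.1 + x.2 - g) + s • (lam p e x.1 - lam p e x.2) := by abel
          rw [e1]
          exact L.add_mem_cancel_right (L.nsmul_mem hv s)
        simp only [hiff]
      rw [Finset.sum_congr rfl this]
      simp [hv]
    · have h3 := d2_count p hp (PP G p e) L hLP hc _ (hvP x.1 x.2) hv (hpv x.1 x.2) (x.1 + x.2 - g)
      rw [Finset.card_filter] at h3
      have e1 : ∀ s : ℕ, x.1 + x.2 + s • (lam p e x.1 - lam p e x.2) - g =
            (x.1 + x.2 - g) + s • (lam p e x.1 - lam p e x.2) := fun s => by abel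
      simp only [e1]
      rw [h3]
      simp [hv]
  have h3 : cnt D (fun x y => x + y - g ∈ L) =
      cnt D (fun x y => x + y - g ∈ L ∧ lam p e x - lam p e y ∈ L) +
      cnt D (fun x y => x + y - g ∈ L ∧ lam p e x - lam p e y ∉ L) := by
    unfold cnt
    simp only [Finset.card_filter]
    rw [← Finset.sum_add_distrib]
    refine Finset.sum_congr rfl fun x _ => ?_
    by_cases hv : lam p e x.1 - lam p e x.2 ∈ L <;> simp [hv]
  rw [h3, mul_add] at h1
  omega

end Pool.Agent.H176RD
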