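import Pool.Agent.H176RD.Defs

set_option autoImplicit false

open Finset Classical

namespace Pool.Agent.H176RD

namespace D4aux

variable {G : Type}

theorem cnt_congr {D : Finset G} {Q R : G → G → Prop} (h : ∀ x z, Q x z ↔ R x z) :
    cnt D Q = cnt D R := by
  have : Q = R := by
    funext x z
    exact propext (h x z)
  rw [this]

theorem cnt_fiber {κ : Type} {D : Finset G} {Q : G → G → Prop} (T : Finset κ) (f : G → G → κ)
    (h : ∀ x z, Q x z → f x z ∈ T) :
    cnt D Q = ∑ q ∈ T, cnt D (fun x z => Q x z ∧ f x z = q) := by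
  unfold cnt
  rw [Finset.card_eq_sum_card_fiberwise (f := fun x => f x.1 x.2) (t := T)]
  · apply Finset.sum_congr rfl
    intro q _
    rw [Finset.filter_filter]
    apply congrArg
    ext x
    simp only [Finset.mem_filter]
  · intro x hx
    have hx' := Finset.mem_coe.mp hx
    rw [Finset.mem_filter] at hx'
    exact h _ _ hx'.2

theorem cnt_split {D : Finset G} (Q R : G → G → Prop) :
    cnt D Q = cnt D (fun x z => Q x z ∧ R x z) + cnt D (fun x z => Q x z ∧ ¬ R x z) := by
  unfold cnt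
  rw [← Finset.card_filter_add_card_filter_not (s := (D ×ˢ D).filter (fun x => Q x.1 x.2))
    (fun x => R x.1 x.2), Finset.filter_filter, Finset.filter_filter]
  refine congrArg₂ (· + ·) ?_ ?_
  · apply congrArg
    ext x
    simp only [Finset.mem_filter]
  · apply congrArg
    ext x
    simp only [Finset.mem_filter]

theorem cnt_even {D : Finset G} {Q : G → G → Prop} (hs : ∀ x z, Q x z → Q z x)
    (hd : ∀ x, ¬ Q x x) : Even (cnt D Q) := by
  rw [← ZMod.natCast_eq_zero_iff_even]
  unfold cnt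
  have h : (((D ×ˢ D).filter (fun x => Q x.1 x.2)).card : ZMod 2) =
      ∑ x ∈ (D ×ˢ D).filter (fun x => Q x.1 x.2), (1 : ZMod 2) := by simp
  rw [h]
  refine Finset.sum_involution (fun x _ => (x.2, x.1)) ?_ ?_ ?_ ?_
  · intro x _
    decide
  · intro x hx _ heq
    rw [Finset.mem_filter] at hx
    have h1 : x.2 = x.1 := congrArg Prod.fst heq
    have h2 := hx.2
    rw [h1] at h2
    exact hd _ h2
  · intro x hx
    rw [Finset.mem_filter, Finset.mem_product] at hx ⊢
    exact ⟨⟨hx.1.2, hx.1.1⟩, hs _ _ hx.2⟩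
  · intro x _
    rfl

theorem cnt_pos {D : Finset G} {Q : G → G → Prop} (h : 0 < cnt D Q) :
    ∃ x ∈ D, ∃ z ∈ D, Q x z := by
  unfold cnt at h
  rw [Finset.card_pos] at h
  obtain ⟨x, hx⟩ := h
  rw [Finset.mem_filter, Finset.mem_product] at hx
  exact ⟨x.1, hx.1.1, x.2, hx.1.2, hx.2⟩

theorem pos_cnt {D : Finset G} {Q : G → G → Prop} {x z : G} (hx : x ∈ D) (hz : z ∈ D)
    (h : Q x z) : 0 < cnt D Q := by
  unfold cnt
  rw [Finset.card_pos]
  exact ⟨(x, z), by rw [Finset.mem_filter, Finset.mem_product]; exact ⟨⟨hx, hz⟩, h⟩⟩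

theorem cnt_eq_zero {D : Finset G} {Q : G → G → Prop} (h : ∀ x z, ¬ Q x z) : cnt D Q = 0 := by
  rcases Nat.eq_zero_or_pos (cnt D Q) with h0 | h0
  · exact h0
  · obtain ⟨x, _, z, _, hq⟩ := cnt_pos h0
    exact absurd hq (h x z)

/-- pure counting lemma -/
theorem comb {κ : Type} (T : Finset κ) (p t : ℕ) (W R M : κ → ℕ) (hT : T.card = p)
    (hne : T.Nonempty)
    (h1 : ∀ q ∈ T, W q = 2 * t + R q) (h2 : ∀ q ∈ T, W q = 2 * M q) (h3 : ∀ q ∈ T, M q ≤ p)
    (h4 : ∀ q ∈ T, 0 < R q → M q = p) :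
    ∃ s, s ≤ p ∧ t ≤ p ∧ ∑ q ∈ T, W q = 2 * (s * p + (p - s) * t) ∧
      ∑ q ∈ T, R q = 2 * (s * (p - t)) := by
  have htp : t ≤ p := by
    obtain ⟨q, hq⟩ := hne
    have := h1 q hq
    have := h2 q hq
    have := h3 q hq
    omega
  have hs : (T.filter (fun q => 0 < R q)).card ≤ p := by
    rw [← hT]; exact Finset.card_filter_le _ _
  have hc : (T.filter (fun q => ¬ 0 < R q)).card = p - (T.filter (fun q => 0 < R q)).card := by
    have := Finset.card_filter_add_card_filter_not (s := T) (fun q => 0 < R q)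
    omega
  refine ⟨(T.filter (fun q => 0 < R q)).card, hs, htp, ?_, ?_⟩
  · rw [← Finset.sum_filter_add_sum_filter_not T (fun q => 0 < R q)]
    have e1 : ∑ q ∈ T.filter (fun q => 0 < R q), W q =
        ∑ q ∈ T.filter (fun q => 0 < R q), 2 * p := by
      apply Finset.sum_congr rfl
      intro q hq
      rw [Finset.mem_filter] at hq
      rw [h2 q hq.1, h4 q hq.1 hq.2]
    have e2 : ∑ q ∈ T.filter (fun q => ¬ 0 < R q), W q =
        ∑ q ∈ T.filter (fun q => ¬ 0 < R q), 2 * t := by
      apply Finset.sum_congr rfl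
      intro q hq
      rw [Finset.mem_filter] at hq
      rw [h1 q hq.1]
      omega
    rw [e1, e2, Finset.sum_const, Finset.sum_const, hc, smul_eq_mul, smul_eq_mul]
    ring
  · rw [← Finset.sum_filter_add_sum_filter_not T (fun q => 0 < R q)]
    have e1 : ∑ q ∈ T.filter (fun q => 0 < R q), R q =
        ∑ q ∈ T.filter (fun q => 0 < R q), 2 * (p - t) := by
      apply Finset.sum_congr rfl
      intro q hq
      rw [Finset.mem_filter] at hq
      have a1 := h1 q hq.1
      have a2 := h2 q hq.1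
      have a3 := h4 q hq.1 hq.2
      omega
    have e2 : ∑ q ∈ T.filter (fun q => ¬ 0 < R q), R q = 0 := by
      apply Finset.sum_eq_zero
      intro q hq
      rw [Finset.mem_filter] at hq
      omega
    rw [e1, e2, Finset.sum_const, smul_eq_mul]
    ring

variable [AddCommGroup G]

theorem card_coset [Fintype G] (L : AddSubgroup G) (g0 : G) :
    ((Finset.univ : Finset G).filter (fun g => g - g0 ∈ L)).card = Nat.card L := by
  have e : (Finset.univ : Finset G).filter (fun g => g - g0 ∈ L) =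
      ((Finset.univ : Finset G).filter (fun g => g ∈ L)).map (addRightEmbedding g0) := by
    ext g
    simp only [Finset.mem_filter, Finset.mem_univ, true_and, Finset.mem_map,
      addRightEmbedding_apply]
    constructor
    · intro h
      exact ⟨g - g0, h, by abel⟩
    · rintro ⟨a, ha, rfl⟩
      simpa using ha
  rw [e, Finset.card_map, Nat.card_eq_fintype_card, Fintype.card_subtype]

theorem lam_mem (p e : ℕ) (x : G) : lam p e x ∈ PP G p e := ⟨x, rfl⟩

theorem perL (hD1 : S_D1) (hD2 : S_D2) (hD3 : S_D3) [Fintype G] {p b e : ℕ}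
    {N : AddSubgroup G} {D : Finset G} (H : Hyp p b e N D) (hP : Nat.card (PP G p e) = p ^ 2)
    (L : AddSubgroup G) (hLP : L ≤ PP G p e) (hL : Nat.card L = p) (y : G) :
    ∃ s t : ℕ, s ≤ p ∧ t ≤ p ∧ mu p e D y = 2 * (s * p + (p - s) * t) ∧
      zf p e D L y = 2 * (s * (p - t)) := by
  have hp := H.hp
  have : Fact p.Prime := ⟨hp⟩
  set P := PP G p e with hPdef
  set Y : Finset G := Finset.univ.filter (fun g => g - y ∈ P) with hY
  obtain ⟨π, hmk⟩ : ∃ π : G → G ⧸ L, ∀ a c, π a = π c ↔ a - c ∈ L :=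
    ⟨fun g => (g : G ⧸ L), fun a c => QuotientAddGroup.eq_iff_sub_mem⟩
  set T : Finset (G ⧸ L) := Y.image π with hT
  -- fibres
  have hF : ∀ q ∈ T, (Y.filter (fun g => π g = q)).card = p := by
    intro q hq
    rw [hT, Finset.mem_image] at hq
    obtain ⟨g0, hg0, rfl⟩ := hq
    rw [hY, Finset.mem_filter] at hg0
    have : Y.filter (fun g => π g = π g0) =
        Finset.univ.filter (fun g => g - g0 ∈ L) := by
      ext g
      rw [Finset.mem_filter, hY, Finset.mem_filter, Finset.mem_filter, hmk]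
      constructor
      · rintro ⟨⟨h1, _⟩, h2⟩
        exact ⟨h1, h2⟩
      · rintro ⟨h1, h2⟩
        refine ⟨⟨h1, ?_⟩, h2⟩
        have h3 := P.add_mem (hLP h2) hg0.2
        simpa using h3
    rw [this, card_coset, hL]
  have hTc : T.card = p := by
    have h1 : Y.card = ∑ q ∈ T, (Y.filter (fun g => π g = q)).card :=
      Finset.card_eq_sum_card_image _ _
    rw [Finset.sum_congr rfl hF, Finset.sum_const, smul_eq_mul, hY, card_coset, hP, sq] at h1
    exact (Nat.eq_of_mul_eq_mul_right hp.pos h1).symm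
  have hTne : T.Nonempty := by
    rw [← Finset.card_pos, hTc]; exact hp.pos
  have hPne : p * Nat.card L = Nat.card (PP G p e) := by rw [hL, hP, sq]
  -- the common number of nonparallel pairs
  have hnp := hD2 G p b e N D H L hLP hPne
  -- even
  have heven : Even (cnt D (fun x z => x + z - y ∈ L ∧ lam p e x - lam p e z ∉ L)) := by
    apply cnt_even
    · rintro x z ⟨h1, h2⟩
      refine ⟨by rwa [add_comm z x], fun h3 => h2 ?_⟩
      have := L.neg_mem h3
      rwa [neg_sub] at this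
    · rintro x ⟨_, h2⟩
      exact h2 (by rw [sub_self]; exact L.zero_mem)
  obtain ⟨t, ht⟩ := heven
  have hnon : ∀ q ∈ T, cnt D (fun x z => (x + z - y ∈ P ∧ lam p e x - lam p e z ∉ L) ∧
      π (x + z) = q) = 2 * t := by
    intro q hq
    rw [hT, Finset.mem_image] at hq
    obtain ⟨g0, hg0, rfl⟩ := hq
    rw [hY, Finset.mem_filter] at hg0
    have e1 : cnt D (fun x z => (x + z - y ∈ P ∧ lam p e x - lam p e z ∉ L) ∧
      π (x + z) = π g0) =
      cnt D (fun x z => x + z - g0 ∈ L ∧ lam p e x - lam p e z ∉ L) := by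
      apply cnt_congr
      intro x z
      rw [hmk]
      constructor
      · rintro ⟨⟨_, h2⟩, h3⟩
        exact ⟨h3, h2⟩
      · rintro ⟨h3, h2⟩
        refine ⟨⟨?_, h2⟩, h3⟩
        have h4 := P.add_mem (hLP h3) hg0.2
        simpa using h4
    have e2 : cnt D (fun x z => x + z - g0 ∈ P ∧ lam p e x - lam p e z ∉ L) =
        cnt D (fun x z => x + z - y ∈ P ∧ lam p e x - lam p e z ∉ L) := by
      apply cnt_congr
      intro x z
      constructor
      · rintro ⟨h3, h2⟩
        refine ⟨?_, h2⟩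
        have h4 := P.add_mem h3 hg0.2
        simpa using h4
      · rintro ⟨h3, h2⟩
        refine ⟨?_, h2⟩
        have h4 := P.sub_mem h3 hg0.2
        have h5 : x + z - y - (g0 - y) = x + z - g0 := by abel
        rwa [h5] at h4
    have e3 := hnp g0
    have e4 := hnp y
    rw [e2, ← e4] at e3
    rw [e1, Nat.eq_of_mul_eq_mul_left hp.pos e3, ht]
    ring
  -- W = 2t + R
  have hA1 : ∀ q ∈ T, cnt D (fun x z => (x + z - y ∈ P ∧ lam p e x ≠ lam p e z) ∧
      π (x + z) = q) = 2 * t + cnt D (fun x z => (x + z - y ∈ P ∧ lam p e x - lam p e z ∈ L ∧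
      lam p e x ≠ lam p e z) ∧ π (x + z) = q) := by
    intro q hq
    rw [← hnon q hq, cnt_split (D := D) (fun x z => (x + z - y ∈ P ∧ lam p e x ≠ lam p e z) ∧
      π (x + z) = q) (fun x z => lam p e x - lam p e z ∈ L), add_comm]
    refine congrArg₂ (· + ·) ?_ ?_
    · apply cnt_congr
      intro x z
      constructor
      · rintro ⟨⟨⟨h1, h2⟩, h3⟩, h4⟩
        exact ⟨⟨h1, h4⟩, h3⟩
      · rintro ⟨⟨h1, h4⟩, h3⟩
        refine ⟨⟨⟨h1, fun h5 => h4 ?_⟩, h3⟩, h4⟩
        rw [h5, sub_self]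
        exact L.zero_mem
    · apply cnt_congr
      intro x z
      constructor
      · rintro ⟨⟨⟨h1, h2⟩, h3⟩, h4⟩
        exact ⟨⟨h1, h4, h2⟩, h3⟩
      · rintro ⟨⟨h1, h4, h2⟩, h3⟩
        exact ⟨⟨⟨h1, h2⟩, h3⟩, h4⟩
  -- W = 2 M
  have hA2 : ∀ q ∈ T, cnt D (fun x z => (x + z - y ∈ P ∧ lam p e x ≠ lam p e z) ∧
      π (x + z) = q) = 2 * ((Y.filter (fun g => π g = q)).filter
      (fun g => mv p e D g = 2)).card := by
    intro q hq
    rw [cnt_fiber (D := D) (Y.filter (fun g => π g = q)) (fun x z => x + z)]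
    · have e1 : ∀ g ∈ Y.filter (fun g => π g = q),
          cnt D (fun x z => ((x + z - y ∈ P ∧ lam p e x ≠ lam p e z) ∧
            π (x + z) = q) ∧ x + z = g) = if mv p e D g = 2 then 2 else 0 := by
        intro g hg
        rw [Finset.mem_filter, hY, Finset.mem_filter] at hg
        have e2 : cnt D (fun x z => ((x + z - y ∈ P ∧ lam p e x ≠ lam p e z) ∧
            π (x + z) = q) ∧ x + z = g) = mv p e D g := by
          unfold mv
          apply cnt_congr
          intro x z
          constructor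
          · rintro ⟨⟨⟨h1, h2⟩, h3⟩, h4⟩
            exact ⟨h2, h4⟩
          · rintro ⟨h2, h4⟩
            subst h4
            exact ⟨⟨⟨hg.1.2, h2⟩, hg.2⟩, rfl⟩
        rw [e2]
        rcases hD3 G p b e N D H g with h | h
        · rw [h]; rfl
        · rw [h]; rfl
      rw [Finset.sum_congr rfl e1, ← Finset.sum_filter, Finset.sum_const, smul_eq_mul, mul_comm]
    · rintro x z ⟨⟨h1, _⟩, h2⟩
      rw [Finset.mem_filter, hY, Finset.mem_filter]
      exact ⟨⟨Finset.mem_univ _, h1⟩, h2⟩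
  have hA3 : ∀ q ∈ T, ((Y.filter (fun g => π g = q)).filter
      (fun g => mv p e D g = 2)).card ≤ p := by
    intro q hq
    exact (Finset.card_filter_le _ _).trans (hF q hq).le
  have hA4 : ∀ q ∈ T, 0 < cnt D (fun x z => (x + z - y ∈ P ∧ lam p e x - lam p e z ∈ L ∧
      lam p e x ≠ lam p e z) ∧ π (x + z) = q) →
      ((Y.filter (fun g => π g = q)).filter (fun g => mv p e D g = 2)).card = p := by
    intro q hq hpos
    obtain ⟨x, hx, z, hz, ⟨h1, h2, h3⟩, h4⟩ := cnt_pos hpos
    have hall : (Y.filter (fun g => π g = q)).filter (fun g => mv p e D g = 2) =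
        Y.filter (fun g => π g = q) := by
      apply Finset.filter_true_of_mem
      intro g hg
      rw [Finset.mem_filter] at hg
      have hgl : g - (x + z) ∈ L := by
        rw [← hmk, hg.2, h4]
      have hv0 : (⟨lam p e x - lam p e z, h2⟩ : L) ≠ 0 := by
        intro h
        apply h3
        have := congrArg Subtype.val h
        exact sub_eq_zero.mp this
      have hmul := mem_multiples_of_prime_card (p := p) hL
        (g := (⟨lam p e x - lam p e z, h2⟩ : L)) (g' := ⟨g - (x + z), hgl⟩) hv0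
      obtain ⟨n, hn⟩ := hmul
      have hn' : n • (lam p e x - lam p e z) = g - (x + z) := congrArg Subtype.val hn
      have hd := hD1 G p b e N D H g
      have hposc : 0 < cnt D (fun x y => lam p e x ≠ lam p e y ∧
          ∃ s : ℕ, x + y + s • (lam p e x - lam p e y) = g) :=
        pos_cnt hx hz ⟨h3, n, by rw [hn']; abel⟩
      rw [hd] at hposc
      rcases hD3 G p b e N D H g with h | h
      · rw [h] at hposc
        simp at hposc
      · exact h
    rw [hall, hF q hq]
  obtain ⟨s, hs, htp, hW, hR⟩ := comb T p t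
    (fun q => cnt D (fun x z => (x + z - y ∈ P ∧ lam p e x ≠ lam p e z) ∧
      π (x + z) = q))
    (fun q => cnt D (fun x z => (x + z - y ∈ P ∧ lam p e x - lam p e z ∈ L ∧
      lam p e x ≠ lam p e z) ∧ π (x + z) = q))
    (fun q => ((Y.filter (fun g => π g = q)).filter (fun g => mv p e D g = 2)).card)
    hTc hTne hA1 hA2 hA3 hA4
  refine ⟨s, t, hs, htp, ?_, ?_⟩
  · rw [← hW]
    unfold mu
    apply cnt_fiber T
    rintro x z ⟨h1, _⟩
    rw [hT, Finset.mem_image]
    exact ⟨x + z, by rw [hY, Finset.mem_filter]; exact ⟨Finset.mem_univ _, h1⟩, rfl⟩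
  · rw [← hR]
    unfold zf
    apply cnt_fiber T
    rintro x z ⟨h1, _⟩
    rw [hT, Finset.mem_image]
    exact ⟨x + z, by rw [hY, Finset.mem_filter]; exact ⟨Finset.mem_univ _, h1⟩, rfl⟩

end D4aux

open D4aux in
theorem D4 (hD1 : S_D1) (hD2 : S_D2) (hD3 : S_D3) (hAR : S_AR) (hSG : S_SG) : S_D4 := by
  intro G _ _ p b e N D H h5 hP y
  have hp := H.hp
  have hpP : ∀ g ∈ PP G p e, p • g = 0 := by
    rintro g ⟨x, rfl⟩
    show p • (p ^ (e - 1) • x) = 0
    rw [← mul_smul, ← pow_succ']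
    have : e - 1 + 1 = e := by have := H.he; omega
    rw [this]
    exact H.exp x
  obtain ⟨LL, hc, hLL, huniq⟩ := hSG G p (PP G p e) hp hP hpP
  have hper : ∀ L : {L // L ∈ LL}, ∃ s t : ℕ, s ≤ p ∧ t ≤ p ∧
      mu p e D y = 2 * (s * p + (p - s) * t) ∧ zf p e D L.1 y = 2 * (s * (p - t)) :=
    fun L => perL hD1 hD2 hD3 H hP L.1 (hLL L.1 L.2).1 (hLL L.1 L.2).2 y
  choose s t hs ht hm hz using hper
  have hmu2 : ∃ m, mu p e D y = 2 * m ∧ m ≤ p ^ 2 := by
    have hne : LL.Nonempty := by rw [← Finset.card_pos, hc]; omega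
    obtain ⟨L, hL⟩ := hne
    refine ⟨_, hm ⟨L, hL⟩, ?_⟩
    have h1 := hs ⟨L, hL⟩
    have h2 := ht ⟨L, hL⟩
    calc s ⟨L, hL⟩ * p + (p - s ⟨L, hL⟩) * t ⟨L, hL⟩ ≤
        s ⟨L, hL⟩ * p + (p - s ⟨L, hL⟩) * p :=
          Nat.add_le_add_left (Nat.mul_le_mul_left _ h2) _
      _ = p ^ 2 := by
        rw [← Nat.add_mul, Nat.add_sub_cancel' h1, sq]
  obtain ⟨m, hmm, hmle⟩ := hmu2
  have hsum : ∑ L : {L // L ∈ LL}, zf p e D L.1 y = mu p e D y := by
    rw [Finset.sum_coe_sort LL (fun L => zf p e D L y)]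
    have e1 : ∀ L ∈ LL, zf p e D L y = ∑ x ∈ (D ×ˢ D).filter (fun x => x.1 + x.2 - y ∈ PP G p e ∧
        lam p e x.1 ≠ lam p e x.2), if lam p e x.1 - lam p e x.2 ∈ L then 1 else 0 := by
      intro L _
      unfold zf cnt
      rw [← Finset.card_filter, Finset.filter_filter]
      apply congrArg
      ext x
      simp only [Finset.mem_filter]
      tauto
    rw [Finset.sum_congr rfl e1, Finset.sum_comm]
    have e2 : ∀ x ∈ (D ×ˢ D).filter (fun x => x.1 + x.2 - y ∈ PP G p e ∧
        lam p e x.1 ≠ lam p e x.2), (∑ L ∈ LL, if lam p e x.1 - lam p e x.2 ∈ L then 1 else 0) =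
        1 := by
      intro x hx
      rw [Finset.mem_filter] at hx
      rw [← Finset.card_filter, Finset.card_eq_one]
      obtain ⟨L, ⟨h1, h2⟩, h3⟩ := huniq (lam p e x.1 - lam p e x.2)
        ((PP G p e).sub_mem (lam_mem p e _) (lam_mem p e _)) (sub_ne_zero.mpr hx.2.2)
      refine ⟨L, ?_⟩
      ext L'
      rw [Finset.mem_filter, Finset.mem_singleton]
      constructor
      · intro h
        exact h3 L' h
      · rintro rfl
        exact ⟨h1, h2⟩
    rw [Finset.sum_congr rfl e2, Finset.sum_const, smul_eq_mul, mul_one]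
    unfold mu cnt
    apply congrArg
    ext x
    simp only [Finset.mem_filter]
  have key := hAR p hp h5 {L // L ∈ LL} (by rw [Fintype.card_coe, hc]) m s t hmle hs ht
    (fun L => by
      have := hm L
      omega)
    (by
      have h1 : ∑ L : {L // L ∈ LL}, zf p e D L.1 y = 2 * ∑ L, s L * (p - t L) := by
        rw [Finset.mul_sum]
        exact Finset.sum_congr rfl fun L _ => hz L
      rw [hsum, hmm] at h1
      omega)
  rcases key with ⟨L, hL⟩ | h
  · left
    refine ⟨L.1, (hLL L.1 L.2).1, (hLL L.1 L.2).2, ?_⟩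
    rw [hz L, hL, hmm]
  · right
    rw [hmm]
    exact h

end Pool.Agent.H176RD
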