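import Pool.Agent.H176RD.Defs

set_option autoImplicit false

/-! EN: energy as a sum over translates. -/

namespace Pool.Agent.H176RD

open Finset Classical

namespace ENaux

theorem lam_PP {G : Type} [AddCommGroup G] (p e : ℕ) (he : 2 ≤ e)
    (hexp : ∀ g : G, p ^ e • g = 0) (g : G) (hg : g ∈ PP G p e) : lam p e g = 0 := by
  obtain ⟨x, rfl⟩ := hg
  show p ^ (e - 1) • (p ^ (e - 1) • x) = 0
  rw [← mul_nsmul, ← pow_add]
  obtain ⟨k, hk⟩ : ∃ k, e - 1 + (e - 1) = e + k := ⟨e - 2, by omega⟩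
  rw [hk, pow_add, mul_nsmul, hexp, smul_zero]

theorem p_PP {G : Type} [AddCommGroup G] (p e : ℕ) (he : 2 ≤ e)
    (hexp : ∀ g : G, p ^ e • g = 0) (g : G) (hg : g ∈ PP G p e) : p • g = 0 := by
  obtain ⟨x, rfl⟩ := hg
  show p • (p ^ (e - 1) • x) = 0
  rw [← mul_nsmul, ← pow_succ, Nat.sub_add_cancel (by omega), hexp]

theorem half {G : Type} [AddCommGroup G] (p : ℕ) (hp : Odd p) (L : AddSubgroup G) (u : G)
    (hpu : p • u = 0) (h2 : u + u ∈ L) : u ∈ L := by
  obtain ⟨k, hk⟩ := hp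
  have h3 : (k + 1) • (u + u) = u := by
    have h4 : (k + 1) • (u + u) = p • u + u := by
      rw [hk, ← two_nsmul, ← mul_nsmul]
      rw [show 2 * (k + 1) = 2 * k + 1 + 1 by ring, succ_nsmul]
    rw [h4, hpu, zero_add]
  rw [← h3]
  exact L.nsmul_mem h2 _

theorem key {G : Type} [AddCommGroup G] (p e : ℕ) (he : 2 ≤ e) (hodd : Odd p)
    (hexp : ∀ g : G, p ^ e • g = 0) (L : AddSubgroup G) (x z x' z' : G) :
    ((lam p e x - lam p e z ∈ L ∧ lam p e x' - lam p e z' ∈ L) ∧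
      (x + z) - (x' + z') ∈ PP G p e) ↔
    (lam p e x - lam p e x' ∈ L ∧ lam p e x - lam p e z ∈ L ∧
      lam p e x - lam p e z' ∈ L ∧ x - x' + z - z' ∈ PP G p e) := by
  have e1 : (x + z) - (x' + z') = x - x' + z - z' := by abel
  rw [e1]
  constructor
  · rintro ⟨⟨h1, h2⟩, h3⟩
    have h4 := lam_PP p e he hexp _ h3
    rw [map_sub, map_add, map_sub] at h4
    have hu : lam p e x - lam p e x' ∈ L := by
      refine half p hodd L _ ?_ ?_
      · have : lam p e x - lam p e x' ∈ PP G p e := by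
          rw [← map_sub]
          exact ⟨x - x', rfl⟩
        exact p_PP p e he hexp _ this
      · have h5 : lam p e x - lam p e x' + (lam p e x - lam p e x') =
            (lam p e x - lam p e z) - (lam p e x' - lam p e z') +
              (lam p e x - lam p e x' + lam p e z - lam p e z') := by abel
        rw [h5, h4, add_zero]
        exact L.sub_mem h1 h2
    refine ⟨hu, h1, ?_, h3⟩
    have h6 : lam p e x - lam p e z' = (lam p e x - lam p e x') + (lam p e x' - lam p e z') := by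
      abel
    rw [h6]
    exact L.add_mem hu h2
  · rintro ⟨h1, h2, h3, h4⟩
    refine ⟨⟨h2, ?_⟩, h4⟩
    have h6 : lam p e x' - lam p e z' = (lam p e x - lam p e z') - (lam p e x - lam p e x') := by
      abel
    rw [h6]
    exact L.sub_mem h3 h1

theorem count {G : Type} [AddCommGroup G] [Fintype G] (P : AddSubgroup G) (u v : G) :
    ∑ y : G, (if u - y ∈ P ∧ v - y ∈ P then 1 else 0) =
      (if u - v ∈ P then Nat.card P else 0 : ℕ) := by
  split_ifs with h
  · have h1 : ∀ y : G, (u - y ∈ P ∧ v - y ∈ P) ↔ u - y ∈ P := by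
      intro y
      refine ⟨fun h2 => h2.1, fun h2 => ⟨h2, ?_⟩⟩
      have : v - y = (u - y) - (u - v) := by abel
      rw [this]
      exact P.sub_mem h2 h
    simp only [h1]
    rw [← Finset.card_filter]
    rw [Nat.card_eq_fintype_card, ← Fintype.card_coe]
    refine Fintype.card_congr ⟨fun y => ⟨u - y.1, ?_⟩, fun y => ⟨u - y.1, ?_⟩, ?_, ?_⟩
    · exact (Finset.mem_filter.mp y.2).2
    · refine Finset.mem_filter.mpr ⟨Finset.mem_univ _, ?_⟩
      rw [sub_sub_cancel]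
      exact y.2
    · intro y
      exact Subtype.ext (sub_sub_cancel _ _)
    · intro y
      exact Subtype.ext (sub_sub_cancel _ _)
  · refine Finset.sum_eq_zero fun y _ => ?_
    rw [if_neg]
    rintro ⟨h1, h2⟩
    apply h
    have : u - v = (u - y) - (v - y) := by abel
    rw [this]
    exact P.sub_mem h1 h2

theorem ite_mul' (P Q R : Prop) (i1 : Decidable P) (i2 : Decidable Q) (i3 : Decidable R)
    (h : R ↔ P ∧ Q) : (@ite ℕ P i1 1 0) * (@ite ℕ Q i2 1 0) = @ite ℕ R i3 1 0 := by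
  by_cases hP : P <;> by_cases hQ : Q <;> simp [hP, hQ, h]

end ENaux

open ENaux

theorem EN : S_EN := by
  intro G _ _ p b e N D h L hL
  have hodd : Odd p := h.hp.odd_of_ne_two h.h2
  have h1 : ∀ y : G, Kf p e D L y ^ 2 = ∑ a ∈ D ×ˢ D, ∑ c ∈ D ×ˢ D,
      (if (lam p e a.1 - lam p e a.2 ∈ L ∧ lam p e c.1 - lam p e c.2 ∈ L) ∧
        (a.1 + a.2 - y ∈ PP G p e ∧ c.1 + c.2 - y ∈ PP G p e) then 1 else 0) := by
    intro y
    unfold Kf cnt
    rw [Finset.card_filter, sq, Finset.sum_mul_sum]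
    refine Finset.sum_congr rfl fun a _ => Finset.sum_congr rfl fun c _ => ?_
    exact ite_mul' _ _ _ _ _ _ (by tauto)
  simp only [h1]
  rw [Finset.sum_comm]
  have h2 : ∀ a ∈ D ×ˢ D, ∑ y : G, ∑ c ∈ D ×ˢ D,
      (if (lam p e a.1 - lam p e a.2 ∈ L ∧ lam p e c.1 - lam p e c.2 ∈ L) ∧
        (a.1 + a.2 - y ∈ PP G p e ∧ c.1 + c.2 - y ∈ PP G p e) then 1 else 0) =
      Nat.card (PP G p e) * ∑ c ∈ D ×ˢ D, (if (lam p e a.1 - lam p e c.1 ∈ L ∧
        lam p e a.1 - lam p e a.2 ∈ L ∧ lam p e a.1 - lam p e c.2 ∈ L ∧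
          a.1 - c.1 + a.2 - c.2 ∈ PP G p e) then 1 else 0) := by
    intro a _
    rw [Finset.sum_comm, Finset.mul_sum]
    refine Finset.sum_congr rfl fun c _ => ?_
    have hk := key p e h.he hodd h.exp L a.1 a.2 c.1 c.2
    by_cases hc : lam p e a.1 - lam p e a.2 ∈ L ∧ lam p e c.1 - lam p e c.2 ∈ L
    · have h3 := count (PP G p e) (a.1 + a.2) (c.1 + c.2)
      have h4 : ∀ y : G, (if (lam p e a.1 - lam p e a.2 ∈ L ∧ lam p e c.1 - lam p e c.2 ∈ L) ∧
          (a.1 + a.2 - y ∈ PP G p e ∧ c.1 + c.2 - y ∈ PP G p e) then 1 else 0) =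
          if (a.1 + a.2 - y ∈ PP G p e ∧ c.1 + c.2 - y ∈ PP G p e) then 1 else 0 :=
        fun y => if_congr ⟨fun hq => hq.2, fun hq => ⟨hc, hq⟩⟩ rfl rfl
      rw [Finset.sum_congr rfl fun y _ => h4 y, h3, mul_ite, mul_one, mul_zero]
      exact if_congr ⟨fun hq => hk.mp ⟨hc, hq⟩, fun hq => (hk.mpr hq).2⟩ rfl rfl
    · rw [if_neg (fun hq => hc (hk.mpr hq).1), mul_zero]
      refine Finset.sum_eq_zero fun y _ => if_neg fun hq => hc hq.1
  rw [Finset.sum_congr rfl h2, ← Finset.mul_sum]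
  congr 1
  unfold Rf cnt4
  rw [Finset.card_filter]
  simp only [Finset.sum_product]
  refine Finset.sum_congr rfl fun d1 _ => ?_
  rw [Finset.sum_comm]
  refine Finset.sum_congr rfl fun d2 _ => Finset.sum_congr rfl fun d3 _ =>
    Finset.sum_congr rfl fun d4 _ => ?_
  congr

end Pool.Agent.H176RD
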