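import Pool.Agent.H176RD.Defs

set_option autoImplicit false

namespace Pool.Agent.H176RD

theorem FI : S_FI := by
  intro p n k h hn
  rcases h with ⟨rfl, rfl⟩ | ⟨hp, rfl⟩
  · norm_num at hn ⊢
    nlinarith
  · obtain ⟨q, rfl⟩ : ∃ q : ℤ, p = 7 + q := ⟨p - 7, by ring⟩
    have hq : 0 ≤ q := by linarith
    obtain ⟨A, hA⟩ : ∃ A : ℤ, A = 68524 * q ^ 0 + 100726 * q ^ 1 + 50896 * q ^ 2 + 12506 * q ^ 3 + 1636 * q ^ 4 + 110 * q ^ 5 + 3 * q ^ 6 := ⟨_, rfl⟩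
    obtain ⟨B, hB⟩ : ∃ B : ℤ, B = 9457240 * q ^ 0 + 9578491 * q ^ 1 + 4148566 * q ^ 2 + 996050 * q ^ 3 + 143180 * q ^ 4 + 12323 * q ^ 5 + 588 * q ^ 6 + 12 * q ^ 7 := ⟨_, rfl⟩
    have hA0 : 0 ≤ A := by rw [hA]; positivity
    have hE : A * (7 + q) ^ 3 - B = 14046492 * q ^ 0 + 35043555 * q ^ 1 + 29554488 * q ^ 2 + 12958990 * q ^ 3 + 3425892 * q ^ 4 + 579421 * q ^ 5 + 63473 * q ^ 6 + 4375 * q ^ 7 + 173 * q ^ 8 + 3 * q ^ 9 := by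
      rw [hA, hB]; ring
    have hE0 : 0 ≤ A * (7 + q) ^ 3 - B := by rw [hE]; positivity
    have hn0 : 0 ≤ n := le_trans (by positivity) hn
    have h1 : 0 ≤ A * n - B := by
      have := mul_le_mul_of_nonneg_left hn hA0
      linarith
    have h2 : 0 ≤ n * (A * n - B) := mul_nonneg hn0 h1
    have hC : 0 < ((7 + q) ^ 2 - 1) ^ 2 * (2 * (7 + q) - 1) ^ 2 := by
      have h3 : 0 < (7 + q) ^ 2 - 1 := by nlinarith
      have h4 : 0 < 2 * (7 + q) - 1 := by linarith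
      positivity
    have h5 : (n - 1) ^ 2 * ((7 + q) ^ 2 - 1) ^ 2 * (2 * (7 + q) - 1) ^ 2 -
        (((7 + q) ^ 2 + (2 * (7 + q) - 1)) ^ 2 * (7 + q) ^ 2 * n ^ 2 +
        (2 * (7 + q) - 1) ^ 2 * (7 + q) ^ 2 * (7 + q + 1) *
          (2 * n ^ 2 + n * (3 * (7 + q) ^ 2 - 2 * (7 + q) - 2))) =
        n * (A * n - B) + ((7 + q) ^ 2 - 1) ^ 2 * (2 * (7 + q) - 1) ^ 2 := by
      rw [hA, hB]; ring
    linarith

end Pool.Agent.H176RD
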