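import Pool.Agent.H176RD.Defs

set_option autoImplicit false

namespace Pool.Agent.H176RD

private lemma gt_card {A B : Type} [AddCommGroup A] [AddCommGroup B] (f : A →+ B) :
    Nat.card f.ker * Nat.card f.range = Nat.card A := by
  rw [← AddSubgroup.index_ker]
  exact AddSubgroup.card_mul_index _

private def gtR (G : Type) [AddCommGroup G] (p i : ℕ) : AddSubgroup G :=
  (nsmulAddMonoidHom (p ^ i) : G →+ G).range

private lemma gt_step {G : Type} [AddCommGroup G] [Fintype G] (p e i : ℕ) (hi : i + 1 ≤ e)
    (hexp : ∀ g : G, p ^ e • g = 0) :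
    Nat.card (gtR G p (i + 1)) * Nat.card (PP G p e) ≤ Nat.card (gtR G p i) := by
  let f : gtR G p i →+ G := (nsmulAddMonoidHom (p ^ (e - 1 - i)) : G →+ G).comp (gtR G p i).subtype
  have hf : ∀ x : gtR G p i, f x = p ^ (e - 1 - i) • (x : G) := fun x => rfl
  have hr : f.range = PP G p e := by
    ext g
    constructor
    · rintro ⟨⟨x, y, hy⟩, rfl⟩
      refine ⟨y, ?_⟩
      rw [hf]
      simp only [nsmulAddMonoidHom_apply] at hy
      simp only [lam, nsmulAddMonoidHom_apply]
      rw [← hy, ← mul_smul, ← pow_add]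
      congr 2; omega
    · rintro ⟨y, rfl⟩
      refine ⟨⟨p ^ i • y, y, rfl⟩, ?_⟩
      rw [hf]
      simp only [lam, nsmulAddMonoidHom_apply]
      rw [← mul_smul, ← pow_add]
      congr 2; omega
  have hk : Nat.card (gtR G p (i + 1)) ≤ Nat.card f.ker := by
    have h1 : ∀ x : gtR G p (i + 1), (x : G) ∈ gtR G p i := by
      rintro ⟨x, y, rfl⟩
      refine ⟨p • y, ?_⟩
      simp only [nsmulAddMonoidHom_apply]
      rw [← mul_smul, ← pow_succ]
    have h2 : ∀ x : gtR G p (i + 1), (⟨x, h1 x⟩ : gtR G p i) ∈ f.ker := by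
      rintro ⟨x, y, rfl⟩
      rw [AddMonoidHom.mem_ker, hf]
      simp only [nsmulAddMonoidHom_apply]
      rw [← mul_smul, ← pow_add]
      have : e - 1 - i + (i + 1) = e := by omega
      rw [this]
      exact hexp y
    refine Nat.card_le_card_of_injective (fun x => (⟨⟨x, h1 x⟩, h2 x⟩ : f.ker)) ?_
    intro x y hxy
    have := congrArg (fun z : f.ker => ((z : gtR G p i) : G)) hxy
    exact Subtype.ext this
  rw [← gt_card f, hr]
  exact Nat.mul_le_mul_right _ hk

private lemma gt_pow {G : Type} [AddCommGroup G] [Fintype G] (p e : ℕ)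
    (hexp : ∀ g : G, p ^ e • g = 0) (j : ℕ) : j ≤ e →
    Nat.card (PP G p e) ^ j ≤ Nat.card (gtR G p (e - j)) := by
  induction j with
  | zero =>
    intro _
    rw [pow_zero]
    exact Nat.card_pos
  | succ j ih =>
    intro hj
    have h1 := ih (by omega)
    have h2 := gt_step p e (e - (j + 1)) (by omega) hexp
    have h3 : e - (j + 1) + 1 = e - j := by omega
    rw [h3] at h2
    rw [pow_succ]
    exact (Nat.mul_le_mul_right _ h1).trans h2

theorem GT : S_GT := by
  intro G _ _ p e hp he hexp
  constructor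
  · have h1 := gt_pow p e hexp e le_rfl
    refine h1.trans ?_
    rw [← Nat.card_eq_fintype_card]
    exact Nat.card_le_card_of_injective (fun x : gtR G p (e - e) => (x : G)) Subtype.val_injective
  · rintro rfl
    rw [← Nat.card_eq_fintype_card, ← gt_card (lam (G := G) p 2)]
    have : Nat.card {g : G // p • g = 0} = Nat.card (lam (G := G) p 2).ker := by
      apply Nat.card_congr
      refine Equiv.subtypeEquivRight fun g => ?_
      rw [AddMonoidHom.mem_ker]
      simp [lam]
    rw [this]
    rfl

end Pool.Agent.H176RD
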