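import Mathlib
import Pool.Agent.H176RD.Defs

set_option autoImplicit false

/-! Task M1: the case `|P| = p` is impossible. -/

namespace Pool.Agent.H176RD

open Finset Classical

theorem M1.cnt_mono {G : Type} (D : Finset G) (Q Q' : G → G → Prop)
    (h : ∀ x y, Q x y → Q' x y) : cnt D Q ≤ cnt D Q' := by
  unfold cnt
  apply Finset.card_le_card
  intro x hx
  rw [Finset.mem_filter] at hx ⊢
  exact ⟨hx.1, h _ _ hx.2⟩

theorem M1.cnt4_mono {G : Type} (D : Finset G) (Q Q' : G → G → G → G → Prop)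
    (h : ∀ x y z w, Q x y z w → Q' x y z w) : cnt4 D Q ≤ cnt4 D Q' := by
  unfold cnt4
  apply Finset.card_le_card
  intro x hx
  rw [Finset.mem_filter] at hx ⊢
  exact ⟨hx.1, h _ _ _ _ hx.2⟩

theorem M1.cnt_eq {G : Type} (D : Finset G) (Q : G → G → Prop)
    (h : ∀ x y, Q x y ↔ x = y) : cnt D Q = D.card := by
  have h1 : (D ×ˢ D).filter (fun x => Q x.1 x.2) = D.diag := by
    ext ⟨x, y⟩
    rw [Finset.mem_filter, Finset.mem_product, Finset.mem_diag, h]
    constructor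
    · rintro ⟨⟨hx, _⟩, h⟩
      exact ⟨hx, h⟩
    · rintro ⟨hx, h⟩
      exact ⟨⟨hx, h ▸ hx⟩, h⟩
  unfold cnt
  rw [h1, Finset.diag_card]

theorem M1 (hB1 : S_B1) (hB2 : S_B2) (hB3 : S_B3) (hBF6 : S_BF6) (hBJ : S_BJ) (hGT : S_GT) :
    S_M1 := by
  intro G _ _ p b e N D hyp hP
  have hp := hyp.hp
  have hp3 : 3 ≤ p := by
    have h1 := hp.two_le
    have h2 := hyp.h2
    omega
  have hb := hyp.hb
  rcases Nat.lt_or_ge b 2 with hb2 | hb2
  · -- b = 1
    have hb1 : b = 1 := by omega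
    subst hb1
    obtain ⟨g1, g2⟩ := hGT G p e hp hyp.he hyp.exp
    have hc : Fintype.card G = p ^ 2 := by rw [hyp.card_G]
    rw [hP, hc] at g1
    have he : e = 2 := by
      have h1 := (Nat.pow_le_pow_iff_right hp.one_lt).1 g1
      have h2 := hyp.he
      omega
    have h3 := g2 he
    rw [hP, hc] at h3
    have h4 : Nat.card {g : G // p • g = 0} = p := by
      have h5 : Nat.card {g : G // p • g = 0} * p = p * p := by rw [h3]; ring
      exact Nat.eq_of_mul_eq_mul_right hp.pos h5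
    have h6 := hBJ G p 1 e N D hyp
    rw [h4, pow_one] at h6
    have h7 : 1 * p ≤ (p - 2) * p := Nat.mul_le_mul_right _ (by omega)
    omega
  · -- b ≥ 2
    set n : ℕ := p ^ b with hn
    have hcb : Nat.card (⊥ : AddSubgroup G) = 1 := by simp
    have hPn : Nat.card (PP G p e) = p := hP
    have hb1 := hB1 G p b e N D hyp ⊥ bot_le (by rw [hcb, hPn, mul_one])
    have hb2' := hB2 G p b e N D hyp ⊥ bot_le
    have hb3 := hB3 G p b e N D hyp ⊥ bot_le
    rw [hcb] at hb2' hb3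
    rw [hPn] at hb3
    have q1 : Qf p e D ⊥ ⊥ = n := by
      unfold Qf
      rw [M1.cnt_eq, hyp.card_D]
      intro x y
      constructor
      · rintro ⟨_, h⟩
        exact sub_eq_zero.1 ((AddSubgroup.mem_bot).1 h)
      · intro h
        subst h
        rw [sub_self, sub_self]
        exact ⟨AddSubgroup.zero_mem _, AddSubgroup.zero_mem _⟩
    have q2 : Qf p e D ⊥ (PP G p e) + 1 ≤ n + p := by
      have h1 := hBF6 G p b e N D hyp (PP G p e)
      rw [hPn] at h1
      have h2 : Qf p e D ⊥ (PP G p e) ≤ cnt D (fun x y => x - y ∈ PP G p e) :=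
        M1.cnt_mono D _ _ (fun x y h => h.2)
      have h3 : 1 ≤ Nat.card (PP G p e ⊓ N : AddSubgroup G) := Nat.card_pos
      omega
    have q3 : Rf p e D ⊥ ⊥ ≤ Rf p e D ⊥ (PP G p e) := by
      apply M1.cnt4_mono
      rintro x y z w ⟨h1, h2, h3, h4⟩
      exact ⟨h1, h2, h3, (bot_le : (⊥ : AddSubgroup G) ≤ PP G p e) h4⟩
    have hn2 : p ^ (2 * b) = n * n := by rw [hn, ← pow_add]; congr 1; ring
    have hnp : p * p ≤ n := by
      rw [hn, ← pow_two]
      exact Nat.pow_le_pow_right hp.pos hb2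
    have hcast : (p : ℤ) ^ b = (n : ℤ) := by rw [hn]; push_cast; rfl
    rw [hcast, q1] at hb1
    rw [hn2] at hb3
    rw [← hn] at hb2' hb3
    -- pass to integers
    have z1 : (Rf p e D ⊥ ⊥ : ℤ) ≤ Rf p e D ⊥ (PP G p e) := by exact_mod_cast q3
    have z2 : (Qf p e D ⊥ (PP G p e) : ℤ) + 1 ≤ n + p := by exact_mod_cast q2
    have z3 : (Rf p e D ⊥ ⊥ : ℤ) + n ≤ 2 * N2 p e D ⊥ := by
      have h : (Rf p e D ⊥ ⊥ + 1 * n : ℕ) ≤ (1 + 1) * N2 p e D ⊥ + 2 * n * (1 - 1) := hb2'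
      have h' : Rf p e D ⊥ ⊥ + n ≤ 2 * N2 p e D ⊥ := by simpa using h
      exact_mod_cast h'
    have z4 : (p : ℤ) * N2 p e D ⊥ + n ≤ n * n + p * n := by
      have h' : p * N2 p e D ⊥ + n ≤ n * n + p * n := by simpa using hb3
      exact_mod_cast h'
    have z5 : (p : ℤ) * p ≤ n := by exact_mod_cast hnp
    have z6 : (3 : ℤ) ≤ p := by exact_mod_cast hp3
    have z0 : (0 : ℤ) ≤ n := by positivity
    generalize (Rf p e D ⊥ ⊥ : ℤ) = R at *
    generalize (Rf p e D ⊥ (PP G p e) : ℤ) = R' at *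
    generalize (Qf p e D ⊥ (PP G p e) : ℤ) = Q' at *
    generalize (N2 p e D ⊥ : ℤ) = M at *
    generalize (n : ℤ) = n' at *
    generalize (p : ℤ) = p' at *
    -- (p'-1) R ≥ n' (p' n' - Q') ≥ n' ((p'-1) n' - (p'-1))
    have w1 : (p' - 1) * (n' * (n' - 1)) ≤ (p' - 1) * R := by
      have h1 : n' * (p' * n' - Q') ≥ n' * ((p' - 1) * n' - (p' - 1)) :=
        mul_le_mul_of_nonneg_left (by linarith) z0
      nlinarith
    have w2 : n' * (n' - 1) ≤ R := le_of_mul_le_mul_left w1 (by linarith)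
    have w3 : n' * n' ≤ 2 * M := by nlinarith
    have w4 : p' * (n' * n') + 2 * n' ≤ 2 * (n' * n') + 2 * (p' * n') := by nlinarith
    have hn0 : 0 < n' := by nlinarith
    have w5 : n' * (n' * (p' - 2)) ≤ n' * (2 * (p' - 1)) := by nlinarith
    have w6 : n' * (p' - 2) ≤ 2 * (p' - 1) := le_of_mul_le_mul_left w5 hn0
    have w7 : p' * p' * (p' - 2) ≤ n' * (p' - 2) := mul_le_mul_of_nonneg_right z5 (by linarith)
    nlinarith

end Pool.Agent.H176RD
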