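import Pool.Agent.H176RD.Defs

set_option autoImplicit false

namespace Pool.Agent.H176RD

open Finset Classical

theorem M2_cnt_mono {G : Type} (D : Finset G) (Q R : G → G → Prop)
    (h : ∀ x y, Q x y → R x y) : cnt D Q ≤ cnt D R := by
  unfold cnt
  apply Finset.card_le_card
  intro x hx
  rw [Finset.mem_filter] at hx ⊢
  exact ⟨hx.1, h _ _ hx.2⟩

theorem M2_line {G : Type} [AddCommGroup G] [Fintype G] (p : ℕ) (hp : p.Prime)
    (L L' : AddSubgroup G) (hL : Nat.card L = p) (hL' : Nat.card L' = p) (v : G) (hv0 : v ≠ 0)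
    (hv : v ∈ L) (hv' : v ∈ L') : L = L' := by
  have key : ∀ M : AddSubgroup G, Nat.card M = p → v ∈ M → AddSubgroup.zmultiples v = M := by
    intro M hM hvM
    have hle : AddSubgroup.zmultiples v ≤ M := by
      rw [AddSubgroup.zmultiples_le]; exact hvM
    have hdvd : Nat.card (AddSubgroup.zmultiples v) ∣ p := by
      rw [← hM]; exact AddSubgroup.card_dvd_of_le hle
    have hne : Nat.card (AddSubgroup.zmultiples v) ≠ 1 := by
      intro h1
      have := AddSubgroup.card_eq_one.mp h1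
      exact hv0 (AddSubgroup.zmultiples_eq_bot.mp this)
    have hcard : Nat.card (AddSubgroup.zmultiples v) = p := by
      rcases (Nat.dvd_prime hp).mp hdvd with h | h
      · exact absurd h hne
      · exact h
    apply AddSubgroup.eq_of_le_of_card_ge hle
    rw [hM, hcard]
  rw [← key L hL hv, ← key L' hL' hv']

theorem M2 (hB3 : S_B3) (hB4 : S_B4) (hEN : S_EN) (hTT : S_TT) (hMU : S_MU) (hD4 : S_D4)
    (hFI : S_FI) (hSG : S_SG) (hBJ : S_BJ) (hGT : S_GT) : S_M2 := by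
  intro G _ _ p b e N D H h5 hPc
  have hp := H.hp
  have hp2 : 2 ≤ p := hp.two_le
  have he := H.he
  obtain ⟨hgt1, hgt2⟩ := hGT G p e hp he H.exp
  rw [hPc, H.card_G] at hgt1
  have hpe : 2 * e ≤ 2 * b := by
    rw [← pow_mul] at hgt1
    exact (Nat.pow_le_pow_iff_right hp.one_lt).mp hgt1
  have hbe : 2 ≤ b := by omega
  -- case b = 2
  have hb3 : 3 ≤ b := by
    by_contra hlt
    have hb2 : b = 2 := by omega
    have he2 : e = 2 := by omega
    have h2 := hgt2 he2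
    rw [hPc, H.card_G, hb2] at h2
    have hbj := hBJ G p b e N D H
    rw [hb2] at hbj
    have hpp : 0 < p ^ 2 := by positivity
    have h3 : Nat.card {g : G // p • g = 0} = p ^ 2 := by
      have : p ^ (2 * 2) = p ^ 2 * p ^ 2 := by ring
      rw [this] at h2
      exact Nat.eq_of_mul_eq_mul_right hpp h2
    rw [h3] at hbj
    have h4 : 1 * p ^ 2 ≤ (p - 2) * p ^ 2 := Nat.mul_le_mul_right _ (by omega)
    omega
  -- main case
  set n : ℤ := (p : ℤ) ^ b with hn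
  have hpz : (5 : ℤ) ≤ p := by exact_mod_cast h5
  have hnp : (p : ℤ) ^ 3 ≤ n := by
    rw [hn]
    exact pow_le_pow_right₀ (by linarith) hb3
  have hnpos : (0 : ℤ) < n := by rw [hn]; positivity
  obtain ⟨k, hk⟩ : ∃ k : ℤ, (p : ℤ) = 5 ∧ k = 17 ∨ 7 ≤ (p : ℤ) ∧ k = 2 * p - 1 := by
    by_cases h : p = 5
    · exact ⟨17, Or.inl ⟨by exact_mod_cast h, rfl⟩⟩
    · refine ⟨2 * p - 1, Or.inr ⟨?_, rfl⟩⟩
      have h6 : p ≠ 6 := by
        rintro rfl
        exact absurd hp (by norm_num)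
      have : 7 ≤ p := by omega
      exact_mod_cast this
  have hkpos : (0 : ℤ) < k := by
    rcases hk with ⟨h1, h2⟩ | ⟨h1, h2⟩ <;> linarith
  have hfi := hFI (p : ℤ) n k hk hnp
  -- lines
  have hPexp : ∀ g ∈ PP G p e, p • g = 0 := by
    rintro g ⟨x, rfl⟩
    have : lam (G := G) p e x = p ^ (e - 1) • x := rfl
    rw [this, smul_smul]
    have h1 : p * p ^ (e - 1) = p ^ e := by
      rw [← pow_succ']
      congr 1
      omega
    rw [h1]
    exact H.exp x
  obtain ⟨LL, hLLc, hLL, hLLu⟩ := hSG G p (PP G p e) hp hPc hPexp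
  -- A
  set A : Finset G := Finset.univ.filter (fun y => (p : ℤ) ^ 2 + k ≤ mu p e D y) with hA
  -- bound outside A
  have hout : ∀ y, y ∉ A → ((mu p e D y : ℤ)) ^ 2 ≤ ∑ L ∈ LL, ((Kf p e D L y : ℤ)) ^ 2 := by
    intro y hy
    have hnn : ∀ L ∈ LL, (0 : ℤ) ≤ ((Kf p e D L y : ℤ)) ^ 2 := fun L _ => sq_nonneg _
    by_cases h0 : mu p e D y = 0
    · rw [h0]
      simpa using Finset.sum_nonneg hnn
    rcases hD4 G p b e N D H h5 hPc y with ⟨L, hLP, hLc, hzf⟩ | ⟨h1, h2⟩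
    · have hLne : ∃ v ∈ L, v ≠ 0 := by
        by_contra hcon
        push Not at hcon
        have : L = ⊥ := by
          rw [eq_bot_iff]
          intro v hv
          exact (AddSubgroup.mem_bot).mpr (hcon v hv)
        rw [this] at hLc
        have : Nat.card (⊥ : AddSubgroup G) = 1 := AddSubgroup.card_bot
        omega
      obtain ⟨v, hvL, hv0⟩ := hLne
      obtain ⟨L', ⟨hL'm, hvL'⟩, -⟩ := hLLu v (hLP hvL) hv0
      have hLL' : L = L' := M2_line p hp L L' hLc (hLL L' hL'm).2 v hv0 hvL hvL'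
      have hle : mu p e D y ≤ Kf p e D L' y := by
        rw [← hzf, hLL']
        unfold zf Kf
        apply M2_cnt_mono
        intro x z h
        exact ⟨h.1, h.2.1⟩
      calc ((mu p e D y : ℤ)) ^ 2 ≤ ((Kf p e D L' y : ℤ)) ^ 2 := by
            apply pow_le_pow_left₀ (by positivity)
            exact_mod_cast hle
        _ ≤ ∑ L ∈ LL, ((Kf p e D L y : ℤ)) ^ 2 :=
            Finset.single_le_sum (f := fun L => ((Kf p e D L y : ℤ)) ^ 2) hnn hL'm
    · exfalso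
      apply hy
      rw [hA, Finset.mem_filter]
      refine ⟨Finset.mem_univ _, ?_⟩
      rcases hk with ⟨h3, h4⟩ | ⟨h3, h4⟩
      · have h5' : p = 5 := by exact_mod_cast h3
        have := h2 h5'
        have h42 : (42 : ℤ) ≤ mu p e D y := by exact_mod_cast this
        rw [h3, h4]
        linarith
      · have h1' : (p : ℤ) ^ 2 + 2 * p - 1 ≤ mu p e D y := by
          have : p ^ 2 + 2 * p ≤ mu p e D y + 1 := by omega
          have : (p : ℤ) ^ 2 + 2 * p ≤ mu p e D y + 1 := by exact_mod_cast this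
          linarith
        rw [h4]
        linarith
  -- sum outside A
  have hsum_out : ∑ y ∈ Finset.univ.filter (fun y => y ∉ A), ((mu p e D y : ℤ)) ^ 2 ≤
      (p : ℤ) ^ 2 * (p + 1) * (2 * n ^ 2 + n * (3 * p ^ 2 - 2 * p - 2)) := by
    calc ∑ y ∈ Finset.univ.filter (fun y => y ∉ A), ((mu p e D y : ℤ)) ^ 2
        ≤ ∑ y ∈ Finset.univ.filter (fun y => y ∉ A), ∑ L ∈ LL, ((Kf p e D L y : ℤ)) ^ 2 := by
          apply Finset.sum_le_sum
          intro y hy
          exact hout y (Finset.mem_filter.mp hy).2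
      _ ≤ ∑ y : G, ∑ L ∈ LL, ((Kf p e D L y : ℤ)) ^ 2 := by
          apply Finset.sum_le_sum_of_subset_of_nonneg (Finset.filter_subset _ _)
          intro y _ _
          exact Finset.sum_nonneg (fun L _ => sq_nonneg _)
      _ = ∑ L ∈ LL, ∑ y : G, ((Kf p e D L y : ℤ)) ^ 2 := Finset.sum_comm
      _ ≤ ∑ L ∈ LL, (p : ℤ) ^ 2 * (2 * n ^ 2 + n * (3 * p ^ 2 - 2 * p - 2)) := by
          apply Finset.sum_le_sum
          intro L hL
          obtain ⟨hLP, hLc⟩ := hLL L hL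
          have h1 := hEN G p b e N D H L hLP
          rw [hPc] at h1
          have h2 := hB4 G p b e N D H hPc L hLP hLc
          have h3 : (∑ y : G, ((Kf p e D L y : ℤ)) ^ 2) = (p : ℤ) ^ 2 * Rf p e D L (PP G p e) := by
            have := congrArg (Nat.cast : ℕ → ℤ) h1
            push_cast at this
            exact this
          rw [h3]
          have h4 : (p : ℤ) ^ (2 * b) = n ^ 2 := by rw [hn, ← pow_mul, mul_comm]
          rw [h4] at h2
          exact mul_le_mul_of_nonneg_left h2 (by positivity)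
      _ = (p : ℤ) ^ 2 * (p + 1) * (2 * n ^ 2 + n * (3 * p ^ 2 - 2 * p - 2)) := by
          rw [Finset.sum_const, hLLc, nsmul_eq_mul]
          push_cast
          ring
  -- sum inside A
  have hsum_in : k ^ 2 * ∑ y ∈ A, ((mu p e D y : ℤ)) ^ 2 ≤
      ((p : ℤ) ^ 2 + k) ^ 2 * p ^ 2 * n ^ 2 := by
    have hTT' := hTT G p b e N D H
    rw [hPc] at hTT'
    have h4 : (p : ℤ) ^ (2 * b) = n ^ 2 := by rw [hn, ← pow_mul, mul_comm]
    rw [h4] at hTT'
    push_cast at hTT'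
    rw [Finset.mul_sum]
    calc ∑ y ∈ A, k ^ 2 * ((mu p e D y : ℤ)) ^ 2
        ≤ ∑ y ∈ A, ((p : ℤ) ^ 2 + k) ^ 2 * ((tot p e D y : ℤ) - (p : ℤ) ^ 2) ^ 2 := by
          apply Finset.sum_le_sum
          intro y hy
          have hy' : (p : ℤ) ^ 2 + k ≤ mu p e D y := (Finset.mem_filter.mp hy).2
          have hmt : mu p e D y ≤ tot p e D y := by
            unfold mu tot
            apply M2_cnt_mono
            intro x z h
            exact h.1
          have hmt' : (mu p e D y : ℤ) ≤ tot p e D y := by exact_mod_cast hmt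
          have hmu0 : (0 : ℤ) ≤ mu p e D y := by positivity
          have hstep : k * (mu p e D y : ℤ) ≤ ((p : ℤ) ^ 2 + k) * ((tot p e D y : ℤ) - (p : ℤ) ^ 2) := by
            have hpk : (0 : ℤ) ≤ (p : ℤ) ^ 2 + k := by positivity
            have e1 : k * (mu p e D y : ℤ) ≤ ((p : ℤ) ^ 2 + k) * ((mu p e D y : ℤ) - (p : ℤ) ^ 2) := by
              have : (0 : ℤ) ≤ (p : ℤ) ^ 2 * ((mu p e D y : ℤ) - ((p : ℤ) ^ 2 + k)) :=
                mul_nonneg (by positivity) (by linarith)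
              nlinarith
            have e2 : ((p : ℤ) ^ 2 + k) * ((mu p e D y : ℤ) - (p : ℤ) ^ 2) ≤
                ((p : ℤ) ^ 2 + k) * ((tot p e D y : ℤ) - (p : ℤ) ^ 2) :=
              mul_le_mul_of_nonneg_left (by linarith) hpk
            linarith
          have hpos : (0 : ℤ) ≤ k * (mu p e D y : ℤ) := mul_nonneg hkpos.le hmu0
          have := pow_le_pow_left₀ hpos hstep 2
          rw [mul_pow, mul_pow] at this
          exact this
      _ ≤ ∑ y : G, ((p : ℤ) ^ 2 + k) ^ 2 * ((tot p e D y : ℤ) - (p : ℤ) ^ 2) ^ 2 := by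
          apply Finset.sum_le_sum_of_subset_of_nonneg (Finset.subset_univ _)
          intro y _ _
          positivity
      _ = ((p : ℤ) ^ 2 + k) ^ 2 * ∑ y : G, ((tot p e D y : ℤ) - (p : ℤ) ^ 2) ^ 2 := by
          rw [Finset.mul_sum]
      _ ≤ ((p : ℤ) ^ 2 + k) ^ 2 * ((p : ℤ) ^ 2 * n ^ 2) :=
          mul_le_mul_of_nonneg_left hTT' (by positivity)
      _ = ((p : ℤ) ^ 2 + k) ^ 2 * p ^ 2 * n ^ 2 := by ring
  -- total
  have htotal : ∑ y : G, ((mu p e D y : ℤ)) ^ 2 = ∑ y ∈ A, ((mu p e D y : ℤ)) ^ 2 +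
      ∑ y ∈ Finset.univ.filter (fun y => y ∉ A), ((mu p e D y : ℤ)) ^ 2 := by
    rw [← Finset.sum_filter_add_sum_filter_not Finset.univ (fun y => y ∈ A)]
    congr 1
    apply Finset.sum_congr _ (fun _ _ => rfl)
    ext y
    simp
  -- Cauchy
  have hcs : (∑ y : G, (mu p e D y : ℤ)) ^ 2 ≤ n ^ 2 * ∑ y : G, ((mu p e D y : ℤ)) ^ 2 := by
    have := sq_sum_le_card_mul_sum_sq (s := (Finset.univ : Finset G)) (f := fun y => (mu p e D y : ℤ))
    rw [Finset.card_univ, H.card_G] at this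
    have h4 : ((p ^ (2 * b) : ℕ) : ℤ) = n ^ 2 := by
      push_cast
      rw [hn, ← pow_mul, mul_comm]
    rw [h4] at this
    exact this
  have hmu := hMU G p b e N D H
  have hb3' := hB3 G p b e N D H ⊥ bot_le
  rw [hPc] at hmu hb3'
  have hbot : Nat.card (⊥ : AddSubgroup G) = 1 := AddSubgroup.card_bot
  rw [hbot] at hb3'
  have hmuZ : (∑ y : G, (mu p e D y : ℤ)) + (p : ℤ) ^ 2 * N2 p e D ⊥ = (p : ℤ) ^ 2 * n ^ 2 := by
    have := congrArg (Nat.cast : ℕ → ℤ) hmu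
    push_cast at this
    have h4 : (p : ℤ) ^ (2 * b) = n ^ 2 := by rw [hn, ← pow_mul, mul_comm]
    rw [h4] at this
    exact this
  have hb3Z : (p : ℤ) ^ 2 * N2 p e D ⊥ + n ≤ n ^ 2 + (p : ℤ) ^ 2 * n := by
    have : ((p ^ 2 * N2 p e D ⊥ + 1 * p ^ b : ℕ) : ℤ) ≤ ((1 * p ^ (2 * b) + p ^ 2 * p ^ b : ℕ) : ℤ) := by
      exact_mod_cast hb3'
    push_cast at this
    have h4 : (p : ℤ) ^ (2 * b) = n ^ 2 := by rw [hn, ← pow_mul, mul_comm]
    rw [h4] at this
    linarith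
  have hlow : ((p : ℤ) ^ 2 - 1) * n * (n - 1) ≤ ∑ y : G, (mu p e D y : ℤ) := by
    nlinarith
  have hn1 : (1 : ℤ) ≤ n := by linarith
  have hp21 : (0 : ℤ) ≤ (p : ℤ) ^ 2 - 1 := by nlinarith
  have hlow0 : (0 : ℤ) ≤ ((p : ℤ) ^ 2 - 1) * n * (n - 1) :=
    mul_nonneg (mul_nonneg hp21 (by linarith)) (by linarith)
  have hsq : (((p : ℤ) ^ 2 - 1) * n * (n - 1)) ^ 2 ≤ n ^ 2 * ∑ y : G, ((mu p e D y : ℤ)) ^ 2 :=
    le_trans (pow_le_pow_left₀ hlow0 hlow 2) hcs
  have hfin : ((p : ℤ) ^ 2 - 1) ^ 2 * (n - 1) ^ 2 ≤ ∑ y : G, ((mu p e D y : ℤ)) ^ 2 := by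
    have h1 : (((p : ℤ) ^ 2 - 1) * n * (n - 1)) ^ 2 = n ^ 2 * (((p : ℤ) ^ 2 - 1) ^ 2 * (n - 1) ^ 2) := by
      ring
    rw [h1] at hsq
    exact le_of_mul_le_mul_left hsq (by positivity)
  have hk2 : (0 : ℤ) < k ^ 2 := by positivity
  have h6 : k ^ 2 * (((p : ℤ) ^ 2 - 1) ^ 2 * (n - 1) ^ 2) ≤
      k ^ 2 * ∑ y : G, ((mu p e D y : ℤ)) ^ 2 := mul_le_mul_of_nonneg_left hfin hk2.le
  rw [htotal, mul_add] at h6
  have h7 : k ^ 2 * ∑ y ∈ Finset.univ.filter (fun y => y ∉ A), ((mu p e D y : ℤ)) ^ 2 ≤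
      k ^ 2 * ((p : ℤ) ^ 2 * (p + 1) * (2 * n ^ 2 + n * (3 * p ^ 2 - 2 * p - 2))) :=
    mul_le_mul_of_nonneg_left hsum_out hk2.le
  nlinarith

end Pool.Agent.H176RD
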