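import Pool.Agent.H176RD.Defs

set_option autoImplicit false

namespace Pool.Agent.H176RD

open Finset Classical

theorem MU2 : S_MU := by
  intro G _ _ p b e N D H
  have h1 : ∀ c : G, (univ.filter (fun y : G => c - y ∈ PP G p e)).card = Nat.card (PP G p e) := by
    intro c
    rw [Nat.card_eq_fintype_card, Fintype.card_subtype]
    refine card_bij' (fun y _ => c - y) (fun y _ => c - y) ?_ ?_ ?_ ?_
    · intro y hy; simpa using hy
    · intro y hy; simpa using hy
    · intro y hy; simp
    · intro y hy; simp
  have h2 : ∑ y : G, mu p e D y =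
      Nat.card (PP G p e) * cnt D (fun x z => lam p e x ≠ lam p e z) := by
    unfold mu cnt
    beta_reduce
    have this : ∀ y : G, ((D ×ˢ D).filter (fun x => x.1 + x.2 - y ∈ PP G p e ∧
        lam p e x.1 ≠ lam p e x.2)).card =
        ∑ x ∈ (D ×ˢ D).filter (fun x => lam p e x.1 ≠ lam p e x.2),
          if x.1 + x.2 - y ∈ PP G p e then 1 else 0 := by
      intro y
      rw [card_eq_sum_ones, sum_filter, sum_filter]
      refine sum_congr rfl fun x _ => ?_
      by_cases a : x.1 + x.2 - y ∈ PP G p e <;> by_cases b : lam p e x.1 ≠ lam p e x.2 <;>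
        simp [a, b]
    have e1 : ∑ y : G, ((D ×ˢ D).filter (fun x => x.1 + x.2 - y ∈ PP G p e ∧
        lam p e x.1 ≠ lam p e x.2)).card = ∑ y : G,
        ∑ x ∈ (D ×ˢ D).filter (fun x => lam p e x.1 ≠ lam p e x.2),
          if x.1 + x.2 - y ∈ PP G p e then 1 else 0 := sum_congr rfl fun y _ => this y
    refine Eq.trans ?_ (e1.trans ?_)
    · refine sum_congr rfl fun y _ => ?_
      congr 1
      ext x
      simp
    rw [sum_comm]
    rw [sum_congr rfl (g := fun _ => Nat.card (PP G p e))]
    · rw [sum_const, smul_eq_mul, mul_comm]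
      congr 1
      congr 1
      ext x
      simp
    · intro x _
      rw [← h1 (x.1 + x.2), card_filter]
  have h3 : cnt D (fun x z => lam p e x ≠ lam p e z) + N2 p e D ⊥ = p ^ (2 * b) := by
    unfold N2 cnt
    have : (D ×ˢ D).card = p ^ (2 * b) := by
      rw [card_product, H.card_D, ← pow_add, two_mul]
    rw [← this, ← card_filter_add_card_filter_not (s := D ×ˢ D)
      (fun x : G × G => lam p e x.1 ≠ lam p e x.2)]
    congr 1
    · congr 1
      ext x
      simp
    · congr 1
      ext x
      simp only [mem_filter, AddSubgroup.mem_bot, sub_eq_zero, not_not, ne_eq]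
  rw [h2, ← mul_add, h3]

end Pool.Agent.H176RD
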