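import Mathlib
import Pool.Agent.H176RD.Defs

set_option autoImplicit false

/-! The lines of an elementary abelian group of order `p^2`. -/

namespace Pool.Agent.H176RD

open Finset Classical

theorem SG_card {G : Type} [AddCommGroup G] [Fintype G] (H : AddSubgroup G) :
    (Finset.univ.filter (fun v => v ∈ H)).card = Nat.card H := by
  rw [Nat.card_eq_fintype_card]
  exact (Fintype.card_subtype _).symm

theorem SG_card' {G : Type} [AddCommGroup G] [Fintype G] (H : AddSubgroup G) :
    (Finset.univ.filter (fun v => v ∈ H ∧ v ≠ 0)).card + 1 = Nat.card H := by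
  rw [← SG_card]
  have h : Finset.univ.filter (fun v => v ∈ H ∧ v ≠ 0) =
      (Finset.univ.filter (fun v => v ∈ H)).erase 0 := by
    ext v
    simp only [mem_filter, mem_univ, true_and, mem_erase]
    tauto
  rw [h]
  exact Finset.card_erase_add_one (by simp [H.zero_mem])

theorem SG : S_SG := by
  intro G _ _ p P hp hP hexp
  have hord : ∀ v ∈ P, v ≠ 0 → Nat.card (AddSubgroup.zmultiples v) = p := by
    intro v hv h0
    rw [Nat.card_zmultiples]
    have _ : Fact p.Prime := ⟨hp⟩
    exact addOrderOf_eq_prime (hexp v hv) h0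
  have huniq : ∀ v ∈ P, v ≠ 0 → ∀ w ∈ P, w ≠ 0 → v ∈ AddSubgroup.zmultiples w →
      AddSubgroup.zmultiples v = AddSubgroup.zmultiples w := by
    intro v hv h0 w hw h0' hvw
    refine AddSubgroup.eq_of_le_of_card_ge ?_ ?_
    · rw [AddSubgroup.zmultiples_le]
      exact hvw
    · rw [hord v hv h0, hord w hw h0']
  let S : Finset G := Finset.univ.filter (fun v => v ∈ P ∧ v ≠ 0)
  have hS : ∀ v, v ∈ S ↔ v ∈ P ∧ v ≠ 0 := by
    intro v
    simp [S]
  refine ⟨S.image AddSubgroup.zmultiples, ?_, ?_, ?_⟩
  · have h1 := Finset.card_eq_sum_card_image (fun v : G => AddSubgroup.zmultiples v) S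
    have h2 : ∀ L ∈ S.image (fun v : G => AddSubgroup.zmultiples v),
        (S.filter (fun a => AddSubgroup.zmultiples a = L)).card = p - 1 := by
      intro L hL
      rw [mem_image] at hL
      obtain ⟨w, hw, rfl⟩ := hL
      rw [hS] at hw
      have h3 : S.filter (fun a => AddSubgroup.zmultiples a = AddSubgroup.zmultiples w) =
          Finset.univ.filter (fun v => v ∈ AddSubgroup.zmultiples w ∧ v ≠ 0) := by
        ext v
        simp only [mem_filter, hS, mem_univ, true_and]
        constructor
        · rintro ⟨⟨_, h0⟩, h⟩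
          refine ⟨?_, h0⟩
          rw [← h]
          exact AddSubgroup.mem_zmultiples v
        · rintro ⟨h, h0⟩
          have hvP : v ∈ P := (AddSubgroup.zmultiples_le.2 hw.1) h
          exact ⟨⟨hvP, h0⟩, huniq v hvP h0 w hw.1 hw.2 h⟩
      rw [h3]
      have h4 := SG_card' (AddSubgroup.zmultiples w)
      rw [hord w hw.1 hw.2] at h4
      omega
    rw [Finset.sum_congr rfl h2, Finset.sum_const, smul_eq_mul] at h1
    have h5 : S.card + 1 = p ^ 2 := by
      rw [← hP]
      exact SG_card' P
    have h6 : p ^ 2 = (p + 1) * (p - 1) + 1 := by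
      obtain ⟨q, rfl⟩ : ∃ q, p = q + 1 := ⟨p - 1, by have := hp.two_le; omega⟩
      simp only [Nat.add_sub_cancel]
      ring
    have h7 : (S.image (fun v : G => AddSubgroup.zmultiples v)).card * (p - 1) =
        (p + 1) * (p - 1) := by omega
    exact Nat.eq_of_mul_eq_mul_right (by have := hp.two_le; omega) h7
  · intro L hL
    rw [mem_image] at hL
    obtain ⟨w, hw, rfl⟩ := hL
    rw [hS] at hw
    exact ⟨AddSubgroup.zmultiples_le.2 hw.1, hord w hw.1 hw.2⟩
  · intro v hv h0
    refine ⟨AddSubgroup.zmultiples v, ⟨?_, AddSubgroup.mem_zmultiples v⟩, ?_⟩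
    · exact mem_image_of_mem _ ((hS v).2 ⟨hv, h0⟩)
    · rintro L ⟨hL, hvL⟩
      rw [mem_image] at hL
      obtain ⟨w, hw, rfl⟩ := hL
      rw [hS] at hw
      exact (huniq v hv h0 w hw.1 hw.2 hvL).symm

end Pool.Agent.H176RD
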