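import Pool.Agent.H176RD.Defs

set_option autoImplicit false

/-! SL: slices of the character sums -/

namespace Pool.Agent.H176RD

open Finset Classical

namespace SLh

theorem geom {p : ℕ} {w : ℂ} (hw : w ^ p = 1) :
    ∑ s ∈ range p, w ^ s = if w = 1 then (p : ℂ) else 0 := by
  split_ifs with h
  · subst h; simp
  · rw [geom_sum_eq h, hw, sub_self, zero_div]

theorem inv {ι : Type} {p : ℕ} (hp : p ≠ 0) (D : Finset ι) (x c : ι → ℂ)
    (hc : ∀ d ∈ D, c d ^ p = 1) {z : ℂ} (hz : z ^ p = 1) :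
    ∑ d ∈ D.filter (fun d => c d = z), x d =
      1 / (p : ℂ) * ∑ s ∈ range p, (z⁻¹) ^ s * ∑ d ∈ D, x d * c d ^ s := by
  have hz0 : z ≠ 0 := by
    rintro rfl
    rw [zero_pow hp] at hz
    exact zero_ne_one hz
  have hp' : (p : ℂ) ≠ 0 := by exact_mod_cast hp
  have h1 : ∀ d ∈ D, (if c d = z then x d else 0) =
      1 / (p : ℂ) * ∑ s ∈ range p, (z⁻¹) ^ s * (x d * c d ^ s) := by
    intro d hd
    have h2 : ∑ s ∈ range p, (z⁻¹) ^ s * (x d * c d ^ s) =
        x d * ∑ s ∈ range p, (c d / z) ^ s := by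
      rw [Finset.mul_sum]
      refine Finset.sum_congr rfl fun s _ => ?_
      rw [div_eq_mul_inv, mul_pow]; ring
    have h3 : (c d / z) ^ p = 1 := by rw [div_pow, hc d hd, hz, div_one]
    rw [h2, geom h3]
    by_cases h : c d = z
    · rw [if_pos h, if_pos (by rw [h, div_self hz0])]
      field_simp
    · rw [if_neg h, if_neg (by rw [div_eq_one_iff_eq hz0]; exact h)]
      simp
  rw [Finset.sum_filter, Finset.sum_congr rfl h1, ← Finset.mul_sum, Finset.sum_comm]
  congr 1
  refine Finset.sum_congr rfl fun s _ => ?_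
  rw [Finset.mul_sum]

theorem empty {ι : Type} {p : ℕ} (D : Finset ι) (x c : ι → ℂ)
    (hc : ∀ d ∈ D, c d ^ p = 1) {z : ℂ} (hz : z ^ p ≠ 1) :
    ∑ d ∈ D.filter (fun d => c d = z), x d = 0 := by
  apply Finset.sum_eq_zero
  intro d hd
  rw [Finset.mem_filter] at hd
  exact absurd (hd.2 ▸ hc d hd.1) hz

end SLh

open SLh

theorem SL (hA2 : S_A2) (hBF2 : S_BF2) : S_SL := by
  intro G _ _ p b e N D hyp χ
  have hp0 : p ≠ 0 := hyp.hp.ne_zero
  have he : 2 ≤ e := hyp.he
  have hpe : ∀ g : G, p • lam p e g = 0 := by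
    intro g
    show p • (p ^ (e - 1) • g) = 0
    rw [smul_smul, ← pow_succ', Nat.sub_add_cancel (by omega)]
    exact hyp.exp g
  have hll : ∀ g : G, lam p e (lam p e g) = 0 := by
    intro g
    show p ^ (e - 1) • lam p e g = 0
    obtain ⟨k, hk⟩ : ∃ k, e - 1 = k + 1 := ⟨e - 2, by omega⟩
    rw [hk, pow_succ, mul_smul, hpe, smul_zero]
  have hc : ∀ d ∈ D, χ (lam p e d) ^ p = 1 := by
    intro d _
    rw [← AddChar.map_nsmul_eq_pow, hpe, AddChar.map_zero_eq_one]
  have hT : ∀ s : ℕ, ∑ d ∈ D, χ d * χ (lam p e d) ^ s = ∑ d ∈ D, χ (d + s • lam p e d) := by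
    intro s
    refine Finset.sum_congr rfl fun d _ => ?_
    rw [AddChar.map_add_eq_mul, AddChar.map_nsmul_eq_pow]
  constructor
  · intro hN
    obtain ⟨u, hu, hus⟩ := hA2 G p b e N D hyp χ hN
    refine ⟨u, hu, fun z => ?_⟩
    by_cases hz : z ^ p = 1
    · rw [SLh.inv hp0 D (fun d => χ d) (fun d => χ (lam p e d)) hc hz]
      have hz0 : z ≠ 0 := by
        rintro rfl
        rw [zero_pow hp0] at hz
        exact zero_ne_one hz
      have hp' : (p : ℂ) ≠ 0 := by exact_mod_cast hp0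
      have h2 : ∀ s ∈ range p, (z⁻¹) ^ s * ∑ d ∈ D, χ d * χ (lam p e d) ^ s =
          (u / z) ^ s * ∑ d ∈ D, χ d := by
        intro s _
        rw [hT, hus, div_eq_mul_inv, mul_pow]; ring
      rw [Finset.sum_congr rfl h2, ← Finset.sum_mul, geom (by rw [div_pow, hu, hz, div_one])]
      by_cases h : z = u
      · rw [if_pos h, if_pos (by rw [h, div_self (h ▸ hz0)])]
        field_simp
      · rw [if_neg h, if_neg (by rw [div_eq_one_iff_eq hz0]; exact fun h' => h h'.symm)]
        simp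
    · rw [SLh.empty D (fun d => χ d) (fun d => χ (lam p e d)) hc hz, if_neg]
      rintro rfl
      exact hz hu
  · intro hN hnt z
    have hT0 : ∀ s : ℕ, ∑ d ∈ D, χ (d + s • lam p e d) = 0 := by
      intro s
      have h := hBF2 G p b e N D hyp
        (χ.compAddMonoidHom (AddMonoidHom.id G + s • lam p e : G →+ G)) ?_ ?_
      · simpa using h
      · intro g hg
        rw [AddChar.compAddMonoidHom_apply]
        apply hN
        have : (AddMonoidHom.id G + s • lam p e : G →+ G) g = g + s • (p ^ (e - 1) • g) := rfl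
        rw [this]
        exact N.add_mem hg (N.nsmul_mem (N.nsmul_mem hg _) _)
      · obtain ⟨g0, hg0⟩ := hnt
        refine ⟨g0 - s • lam p e g0, ?_⟩
        rw [AddChar.compAddMonoidHom_apply]
        have : (AddMonoidHom.id G + s • lam p e : G →+ G) (g0 - s • lam p e g0) = g0 := by
          show (g0 - s • lam p e g0) + s • lam p e (g0 - s • lam p e g0) = g0
          rw [map_sub, map_nsmul, hll, smul_zero, sub_zero, sub_add_cancel]
        rw [this]
        exact hg0
    by_cases hz : z ^ p = 1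
    · rw [SLh.inv hp0 D (fun d => χ d) (fun d => χ (lam p e d)) hc hz]
      have h2 : ∀ s ∈ range p, (z⁻¹) ^ s * ∑ d ∈ D, χ d * χ (lam p e d) ^ s = 0 := by
        intro s _
        rw [hT, hT0, mul_zero]
      rw [Finset.sum_eq_zero h2, mul_zero]
    · exact SLh.empty D (fun d => χ d) (fun d => χ (lam p e d)) hc hz

end Pool.Agent.H176RD
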