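import Mathlib
import Pool.Agent.H176RD.Defs

set_option autoImplicit false

/-! Task T2: planar functions. -/

namespace Pool.Agent.H176RD

open Finset Classical

theorem T2_split {H K : Type} [AddCommGroup H] [AddCommGroup K] {p : ℕ}
    (h : ∀ g : H × K, p • g = 0) : (∀ h : H, p • h = 0) ∧ (∀ k : K, p • k = 0) :=
  ⟨fun a => congrArg Prod.fst (h (a, 0)), fun a => congrArg Prod.snd (h (0, a))⟩

theorem T2 (hT1 : S_T1) : S_T2 := by
  intro p r hp hodd hr H K _ _ _ _ hH hK f hf
  have cardG : Fintype.card (H × K) = p ^ (2 * r) := by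
    rw [Fintype.card_prod, hH, hK, ← pow_add]
    congr 1
    omega
  set N : AddSubgroup (H × K) := AddSubgroup.prod ⊥ ⊤ with hN
  have memN : ∀ g : H × K, g ∈ N ↔ g.1 = 0 := by
    intro g
    rw [hN, AddSubgroup.mem_prod, AddSubgroup.mem_bot]
    simp
  have cardN : Nat.card N = p ^ r := by
    have e : N ≃ K :=
      { toFun := fun g => g.1.2
        invFun := fun k => ⟨(0, k), (memN _).2 rfl⟩
        left_inv := by
          rintro ⟨⟨a, b⟩, hg⟩
          have ha : a = 0 := (memN _).1 hg
          subst ha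
          rfl
        right_inv := fun k => rfl }
    rw [Nat.card_congr e, Nat.card_eq_fintype_card, hK]
  set D : Finset (H × K) := univ.image (fun x : H => (x, f x)) with hD
  have memD : ∀ g : H × K, g ∈ D ↔ g.2 = f g.1 := by
    intro g
    rw [hD, mem_image]
    constructor
    · rintro ⟨x, -, rfl⟩
      rfl
    · intro h
      exact ⟨g.1, mem_univ _, Prod.ext rfl h.symm⟩
  have cardD : D.card = p ^ r := by
    rw [hD, card_image_of_injective _ (fun x y h => congrArg Prod.fst h), card_univ, hH]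
  have one : ∀ g : H × K, g ∉ N → ((D ×ˢ D).filter (fun x => x.1 - x.2 = g)).card = 1 := by
    intro g hg
    have hh : g.1 ≠ 0 := fun h => hg ((memN g).2 h)
    obtain ⟨x, hx, hxu⟩ := (hf g.1 hh).existsUnique g.2
    rw [card_eq_one]
    refine ⟨((g.1 + x, f (g.1 + x)), (x, f x)), ?_⟩
    ext ⟨⟨a, b⟩, ⟨c, d⟩⟩
    rw [mem_filter, mem_product, memD, memD, mem_singleton]
    simp only
    constructor
    · rintro ⟨⟨h1, h2⟩, h3⟩
      have e1 : a - c = g.1 := congrArg Prod.fst h3
      have e2 : b - d = g.2 := congrArg Prod.snd h3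
      have e3 : a = g.1 + c := by rw [← e1]; abel
      have e4 : c = x := hxu c (by
        simp only
        rw [← e3, ← h1, ← h2, e2])
      rw [h1, h2, e3, e4]
    · intro h
      simp only [Prod.mk.injEq] at h
      obtain ⟨⟨rfl, rfl⟩, ⟨rfl, rfl⟩⟩ := h
      refine ⟨⟨rfl, rfl⟩, ?_⟩
      ext
      · simp
      · simpa using hx
  have zero : ∀ g : H × K, g ∈ N → g ≠ 0 →
      ((D ×ˢ D).filter (fun x => x.1 - x.2 = g)).card = 0 := by
    intro g hg hg0
    rw [card_eq_zero, filter_eq_empty_iff]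
    rintro ⟨⟨a, b⟩, ⟨c, d⟩⟩ hm h3
    rw [mem_product, memD, memD] at hm
    simp only at hm
    have e0 := (memN g).1 hg
    have e1 : a - c = g.1 := congrArg Prod.fst h3
    have e2 : b - d = g.2 := congrArg Prod.snd h3
    rw [e0] at e1
    have e3 : a = c := sub_eq_zero.1 e1
    apply hg0
    refine Prod.ext e0 ?_
    rw [← e2, hm.1, hm.2, e3, sub_self]
    rfl
  obtain ⟨h1, h2⟩ := hT1 p r hp hodd hr (H × K) cardG N cardN D cardD one zero
  refine ⟨?_, fun h5 h3 => T2_split (h2 h5 h3)⟩
  rcases h1 with h1 | h1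
  · exact Or.inl (T2_split h1)
  · exact Or.inr h1

end Pool.Agent.H176RD
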