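import Pool.Agent.H176RD.Defs

set_option autoImplicit false

/-! TT: variance of the number of sums in a coset of `P`. -/

namespace Pool.Agent.H176RD

open Finset Classical

namespace TTh

variable {G : Type} [AddCommGroup G] [Fintype G]

theorem norm_sq_eq (z : ℂ) : ((‖z‖ ^ 2 : ℝ) : ℂ) = z * (starRingEnd ℂ) z := by
  rw [Complex.mul_conj, Complex.normSq_eq_norm_sq]

theorem sum_char (P : AddSubgroup G) [Fintype (G ⧸ P)] (ψ ψ' : AddChar (G ⧸ P) ℂ) :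
    ∑ y : G, ψ (-(QuotientAddGroup.mk' P y)) * (starRingEnd ℂ) (ψ' (-(QuotientAddGroup.mk' P y))) =
      if ψ = ψ' then (Fintype.card G : ℂ) else 0 := by
  have h1 : ∀ y : G, ψ (-(QuotientAddGroup.mk' P y)) *
      (starRingEnd ℂ) (ψ' (-(QuotientAddGroup.mk' P y))) =
      (AddChar.compAddMonoidHom (ψ' - ψ) (QuotientAddGroup.mk' P)) y := by
    intro y
    rw [AddChar.compAddMonoidHom_apply, AddChar.sub_apply, ← AddChar.map_neg_eq_conj, neg_neg,
      mul_comm, AddChar.map_neg_eq_inv]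
  rw [Finset.sum_congr rfl fun y _ => h1 y, AddChar.sum_eq_ite]
  have h2 : AddChar.compAddMonoidHom (ψ' - ψ) (QuotientAddGroup.mk' P) = 0 ↔ ψ = ψ' := by
    constructor
    · intro h
      have : ψ' - ψ = 0 := by
        ext q
        obtain ⟨y, rfl⟩ := QuotientAddGroup.mk'_surjective P q
        have := DFunLike.congr_fun h y
        rw [AddChar.compAddMonoidHom_apply] at this
        exact this
      exact (sub_eq_zero.1 this).symm
    · rintro rfl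
      ext y
      rw [AddChar.compAddMonoidHom_apply, sub_self]
      rfl
  by_cases h : ψ = ψ'
  · rw [if_pos h, if_pos (h2.2 h)]
  · rw [if_neg h, if_neg (fun h' => h (h2.1 h'))]

theorem parseval (P : AddSubgroup G) [Fintype (G ⧸ P)] (c : AddChar (G ⧸ P) ℂ → ℂ) :
    ∑ y : G, ‖∑ ψ : AddChar (G ⧸ P) ℂ, c ψ * ψ (-(QuotientAddGroup.mk' P y))‖ ^ 2 =
      (Fintype.card G : ℝ) * ∑ ψ : AddChar (G ⧸ P) ℂ, ‖c ψ‖ ^ 2 := by
  have key : ((∑ y : G, ‖∑ ψ : AddChar (G ⧸ P) ℂ, c ψ * ψ (-(QuotientAddGroup.mk' P y))‖ ^ 2 : ℝ) : ℂ)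
      = (((Fintype.card G : ℝ) * ∑ ψ : AddChar (G ⧸ P) ℂ, ‖c ψ‖ ^ 2 : ℝ) : ℂ) := by
    rw [Complex.ofReal_sum]
    have e1 : ∀ y : G, ((‖∑ ψ : AddChar (G ⧸ P) ℂ, c ψ * ψ (-(QuotientAddGroup.mk' P y))‖ ^ 2 : ℝ) : ℂ)
        = ∑ ψ : AddChar (G ⧸ P) ℂ, ∑ ψ' : AddChar (G ⧸ P) ℂ, (c ψ * (starRingEnd ℂ) (c ψ')) *
          (ψ (-(QuotientAddGroup.mk' P y)) * (starRingEnd ℂ) (ψ' (-(QuotientAddGroup.mk' P y)))) := by
      intro y
      rw [norm_sq_eq, map_sum, Finset.sum_mul_sum]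
      refine Finset.sum_congr rfl fun ψ _ => Finset.sum_congr rfl fun ψ' _ => ?_
      rw [map_mul]; ring
    rw [Finset.sum_congr rfl fun y _ => e1 y, Finset.sum_comm]
    have e2 : ∀ ψ : AddChar (G ⧸ P) ℂ, ∑ y : G, ∑ ψ' : AddChar (G ⧸ P) ℂ,
        (c ψ * (starRingEnd ℂ) (c ψ')) * (ψ (-(QuotientAddGroup.mk' P y)) *
          (starRingEnd ℂ) (ψ' (-(QuotientAddGroup.mk' P y)))) =
        ((‖c ψ‖ ^ 2 : ℝ) : ℂ) * (Fintype.card G : ℂ) := by
      intro ψ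
      rw [Finset.sum_comm]
      have e3 : ∀ ψ' : AddChar (G ⧸ P) ℂ, ∑ y : G, (c ψ * (starRingEnd ℂ) (c ψ')) *
          (ψ (-(QuotientAddGroup.mk' P y)) * (starRingEnd ℂ) (ψ' (-(QuotientAddGroup.mk' P y)))) =
          if ψ = ψ' then (c ψ * (starRingEnd ℂ) (c ψ')) * (Fintype.card G : ℂ) else 0 := by
        intro ψ'
        rw [← Finset.mul_sum, sum_char]
        split_ifs <;> simp
      rw [Finset.sum_congr rfl fun ψ' _ => e3 ψ', Finset.sum_ite_eq]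
      rw [if_pos (Finset.mem_univ _), norm_sq_eq]
    rw [Finset.sum_congr rfl fun ψ _ => e2 ψ, ← Finset.sum_mul, mul_comm, Complex.ofReal_mul,
      Complex.ofReal_sum, Complex.ofReal_natCast]
  exact_mod_cast key

end TTh

open TTh in
theorem TT (hBF1 : S_BF1) (hBF2 : S_BF2) : S_TT := by
  intro G _ _ p b e N D hH
  set P := PP G p e with hP
  haveI : Fintype (G ⧸ P) := Fintype.ofFinite _
  set π := QuotientAddGroup.mk' P with hπd
  have hπ : ∀ g, π g = 0 ↔ g ∈ P := fun g => QuotientAddGroup.eq_zero_iff g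
  set X : AddChar (G ⧸ P) ℂ → ℂ := fun ψ => ∑ d ∈ D, ψ (π d) with hX
  have hcard : (Fintype.card G : ℕ) = Fintype.card (G ⧸ P) * Nat.card P := by
    have := AddSubgroup.card_eq_card_quotient_mul_card_addSubgroup P
    rw [Nat.card_eq_fintype_card, Nat.card_eq_fintype_card] at this
    exact this
  have hp0 : 0 < p := hH.hp.pos
  have hX0 : X 0 = (p : ℂ) ^ b := by
    rw [hX]
    simp only [AddChar.zero_apply, Finset.sum_const, hH.card_D]
    simp
  -- bound for the other characters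
  have hXb : ∀ ψ : AddChar (G ⧸ P) ℂ, ψ ≠ 0 → ‖X ψ ^ 2‖ ^ 2 ≤ (p : ℝ) ^ (2 * b) := by
    intro ψ hψ
    set χ : AddChar G ℂ := AddChar.compAddMonoidHom ψ π with hχ
    have hχe : ∑ d ∈ D, χ d = X ψ := rfl
    by_cases hN : ∃ g ∈ N, χ g ≠ 1
    · have h1 := hBF1 G p b e N D hH χ hN
      rw [hχe] at h1
      rw [norm_pow, h1, ← pow_mul, mul_comm b 2]
    · push Not at hN
      have h1 := hBF2 G p b e N D hH χ hN (by
        by_contra hcon
        push Not at hcon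
        apply hψ
        ext q
        obtain ⟨y, rfl⟩ := QuotientAddGroup.mk'_surjective P q
        exact hcon y)
      rw [hχe] at h1
      rw [h1]
      have : (0 : ℝ) ≤ (p : ℝ) ^ (2 * b) := by positivity
      simpa using this
  -- the sum over all characters
  have hsum : ∀ y : G, ∑ ψ : AddChar (G ⧸ P) ℂ, X ψ ^ 2 * ψ (-(π y)) =
      (Fintype.card (G ⧸ P) : ℂ) * (tot p e D y : ℂ) := by
    intro y
    have e1 : ∀ ψ : AddChar (G ⧸ P) ℂ, X ψ ^ 2 * ψ (-(π y)) =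
        ∑ x ∈ D ×ˢ D, ψ (π (x.1 + x.2 - y)) := by
      intro ψ
      rw [sq, hX]
      simp only
      rw [Finset.sum_mul_sum, ← Finset.sum_product', Finset.sum_mul]
      refine Finset.sum_congr rfl fun x _ => ?_
      rw [map_sub, map_add, sub_eq_add_neg, AddChar.map_add_eq_mul, AddChar.map_add_eq_mul]
    rw [Finset.sum_congr rfl fun ψ _ => e1 ψ, Finset.sum_comm]
    have e2 : ∀ x : G × G, ∑ ψ : AddChar (G ⧸ P) ℂ, ψ (π (x.1 + x.2 - y)) =
        if x.1 + x.2 - y ∈ P then (Fintype.card (G ⧸ P) : ℂ) else 0 := by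
      intro x
      rw [AddChar.sum_apply_eq_ite]
      by_cases h : x.1 + x.2 - y ∈ P
      · rw [if_pos h, if_pos ((hπ _).2 h)]
      · rw [if_neg h, if_neg (fun h' => h ((hπ _).1 h'))]
    rw [Finset.sum_congr rfl fun x _ => e2 x, ← Finset.sum_filter, Finset.sum_const, nsmul_eq_mul,
      mul_comm]
    rfl
  set c : AddChar (G ⧸ P) ℂ → ℂ := fun ψ => if ψ = 0 then 0 else X ψ ^ 2 with hc
  have hT : ∀ y : G, ∑ ψ : AddChar (G ⧸ P) ℂ, c ψ * ψ (-(π y)) =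
      (((Fintype.card (G ⧸ P) : ℝ) * (((tot p e D y : ℤ) - Nat.card P : ℤ) : ℝ) : ℝ) : ℂ) := by
    intro y
    have e1 : ∀ ψ : AddChar (G ⧸ P) ℂ, c ψ * ψ (-(π y)) = X ψ ^ 2 * ψ (-(π y)) -
        if ψ = 0 then X ψ ^ 2 * ψ (-(π y)) else 0 := by
      intro ψ
      rw [hc]
      simp only
      split_ifs <;> simp
    rw [Finset.sum_congr rfl fun ψ _ => e1 ψ, Finset.sum_sub_distrib, hsum, Finset.sum_ite_eq',
      if_pos (Finset.mem_univ _), hX0, AddChar.zero_apply, mul_one, ← pow_mul]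
    have e2 : (p : ℂ) ^ (b * 2) = (Fintype.card (G ⧸ P) : ℂ) * (Nat.card P : ℂ) := by
      rw [mul_comm b 2, ← Nat.cast_pow, ← hH.card_G, hcard, Nat.cast_mul]
    rw [e2]
    push_cast
    ring
  have hpar := parseval P c
  have hl : ∀ y : G, ‖∑ ψ : AddChar (G ⧸ P) ℂ, c ψ * ψ (-(π y))‖ ^ 2 =
      (Fintype.card (G ⧸ P) : ℝ) ^ 2 * (((((tot p e D y : ℤ) - Nat.card P) ^ 2 : ℤ)) : ℝ) := by
    intro y
    rw [hT, Complex.norm_real, Real.norm_eq_abs, sq_abs, mul_pow]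
    push_cast
    ring
  rw [Finset.sum_congr rfl fun y _ => hl y, ← Finset.mul_sum] at hpar
  have hcb : ∑ ψ : AddChar (G ⧸ P) ℂ, ‖c ψ‖ ^ 2 ≤ (Fintype.card (G ⧸ P) : ℝ) * (p : ℝ) ^ (2 * b) := by
    have h1 : ∀ ψ ∈ (Finset.univ : Finset (AddChar (G ⧸ P) ℂ)), ‖c ψ‖ ^ 2 ≤ (p : ℝ) ^ (2 * b) := by
      intro ψ _
      rw [hc]
      simp only
      split_ifs with h
      · have : (0 : ℝ) ≤ (p : ℝ) ^ (2 * b) := by positivity
        simpa using this
      · exact hXb ψ h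
    have h2 := Finset.sum_le_card_nsmul _ _ _ h1
    rw [nsmul_eq_mul, Finset.card_univ, AddChar.card_eq] at h2
    exact h2
  have hQ : (0 : ℝ) < (Fintype.card (G ⧸ P) : ℝ) := by exact_mod_cast Fintype.card_pos
  have hGr : (Fintype.card G : ℝ) = (Fintype.card (G ⧸ P) : ℝ) * (Nat.card P : ℝ) := by
    exact_mod_cast hcard
  have hfin : (((∑ y : G, ((tot p e D y : ℤ) - Nat.card P) ^ 2 : ℤ)) : ℝ) ≤
      (((Nat.card P : ℤ) * (p : ℤ) ^ (2 * b) : ℤ) : ℝ) := by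
    rw [Int.cast_sum]
    have h1 : (Fintype.card (G ⧸ P) : ℝ) ^ 2 *
        ∑ y : G, ((((tot p e D y : ℤ) - Nat.card P) ^ 2 : ℤ) : ℝ) ≤
        (Fintype.card (G ⧸ P) : ℝ) ^ 2 * ((Nat.card P : ℝ) * (p : ℝ) ^ (2 * b)) := by
      rw [hpar, hGr]
      calc _ ≤ (Fintype.card (G ⧸ P) : ℝ) * (Nat.card P : ℝ) *
            ((Fintype.card (G ⧸ P) : ℝ) * (p : ℝ) ^ (2 * b)) :=
            mul_le_mul_of_nonneg_left hcb (by positivity)
        _ = _ := by ring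
    have h2 := le_of_mul_le_mul_left h1 (by positivity)
    push_cast at h2 ⊢
    exact h2
  exact_mod_cast hfin

end Pool.Agent.H176RD
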