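import Pool.Agent.H176RD.T1
import Pool.Agent.H176RD.T2
import Pool.Agent.H176RD.M1
import Pool.Agent.H176RD.M2
import Pool.Agent.H176RD.D4
import Pool.Agent.H176RD.A1
import Pool.Agent.H176RD.A2
import Pool.Agent.H176RD.SL
import Pool.Agent.H176RD.C1
import Pool.Agent.H176RD.B1
import Pool.Agent.H176RD.B2
import Pool.Agent.H176RD.B3
import Pool.Agent.H176RD.B4
import Pool.Agent.H176RD.BF
import Pool.Agent.H176RD.BJ
import Pool.Agent.H176RD.D13
import Pool.Agent.H176RD.D2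
import Pool.Agent.H176RD.EN
import Pool.Agent.H176RD.FI
import Pool.Agent.H176RD.GT
import Pool.Agent.H176RD.SG
import Pool.Agent.H176RD.TT
import Pool.Agent.H176RD.AR
import Pool.Agent.H176RD.MU2

set_option autoImplicit false

/-! Assembly of the theorem on relative difference sets in abelian groups. -/

namespace Pool.Agent.H176RD

theorem mA2 : S_A2 := A2 A1 BF1
theorem mSL : S_SL := SL mA2 BF2
theorem mC1 : S_C1 := C1 mA2 BF2
theorem mB1 : S_B1 := B1 mSL BF1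
theorem mB2 : S_B2 := B2 BF3 BF6
theorem mB3 : S_B3 := B3 BF6
theorem mB4 : S_B4 := B4 mB1 mB2 mB3 BF6
theorem mBJ : S_BJ := BJ BF3 BF6
theorem mTT : S_TT := TT BF1 BF2
theorem mD4 : S_D4 := D4 (D1 mC1) (D2 mC1) (D3 BF3) AR SG
theorem mM1 : S_M1 := M1 mB1 mB2 mB3 BF6 mBJ GT
theorem mM2 : S_M2 := M2 mB3 mB4 EN mTT MU2 mD4 FI SG mBJ GT
theorem mT1 : S_T1 := T1 mM1 mM2 mBJ GT
theorem mT2 : S_T2 := T2 mT1

end Pool.Agent.H176RD
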