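import Pool.Agent.H176RD.Defs

set_option autoImplicit false

namespace Pool.Agent.H176RD

open Finset

theorem T1_aux (hM1 : S_M1) (hM2 : S_M2) (p b : ℕ) (hp : p.Prime) (hodd : Odd p) (hb : 1 ≤ b)
    (G : Type) [AddCommGroup G] [Fintype G] [DecidableEq G] (hG : Fintype.card G = p ^ (2 * b))
    (N : AddSubgroup G) (hN : Nat.card N = p ^ b) (D : Finset G) (hD : D.card = p ^ b)
    (h1 : ∀ g : G, g ∉ N → ((D ×ˢ D).filter (fun x => x.1 - x.2 = g)).card = 1)
    (h0 : ∀ g : G, g ∈ N → g ≠ 0 → ((D ×ˢ D).filter (fun x => x.1 - x.2 = g)).card = 0)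
    (hne : ¬ ∀ g : G, p • g = 0) :
    ∃ e m : ℕ, AddMonoid.exponent G = p ^ e ∧ Hyp p b e N D ∧
      Nat.card (PP G p e) = p ^ m ∧ 2 ≤ m ∧ (5 ≤ p → 3 ≤ m) := by
  have hex : AddMonoid.exponent G ∣ p ^ (2 * b) := by
    have := AddGroup.exponent_dvd_card (G := G)
    rwa [hG] at this
  obtain ⟨e, -, he⟩ := (Nat.dvd_prime_pow hp).1 hex
  have hexp : ∀ g : G, p ^ e • g = 0 := by
    intro g
    rw [← he]
    exact AddMonoid.exponent_nsmul_eq_zero g
  have he2 : 2 ≤ e := by
    by_contra hc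
    apply hne
    intro g
    have : p ^ e ∣ p := by
      calc p ^ e ∣ p ^ 1 := pow_dvd_pow p (by omega)
        _ = p := pow_one p
    obtain ⟨k, hk⟩ := this
    calc p • g = (p ^ e * k) • g := by rw [← hk]
      _ = 0 := by rw [mul_comm, mul_nsmul', hexp, nsmul_zero]
  have hyp : Hyp p b e N D := by
    refine ⟨hp, ?_, he2, hb, hG, hN, hD, hexp, ?_, ?_⟩
    · rintro rfl
      exact absurd hodd (by decide)
    · intro g hg
      have := h1 g hg
      unfold cnt
      convert this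
    · intro g hg hg0
      have := h0 g hg hg0
      unfold cnt
      convert this
  have hcard : Nat.card (PP G p e) ∣ p ^ (2 * b) := by
    have := AddSubgroup.card_addSubgroup_dvd_card (PP G p e)
    rwa [Nat.card_eq_fintype_card (α := G), hG] at this
  obtain ⟨m, -, hm⟩ := (Nat.dvd_prime_pow hp).1 hcard
  have hm0 : m ≠ 0 := by
    rintro rfl
    rw [pow_zero] at hm
    have hbot : PP G p e = ⊥ := AddSubgroup.card_eq_one.1 hm
    have hz : ∀ g : G, p ^ (e - 1) • g = 0 := by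
      intro g
      have : lam p e g ∈ PP G p e := ⟨g, rfl⟩
      rw [hbot, AddSubgroup.mem_bot] at this
      exact this
    have hd : AddMonoid.exponent G ∣ p ^ (e - 1) :=
      AddMonoid.exponent_dvd_of_forall_nsmul_eq_zero hz
    rw [he] at hd
    have := (Nat.pow_dvd_pow_iff_le_right hp.one_lt).1 hd
    omega
  have hm1 : m ≠ 1 := by
    rintro rfl
    rw [pow_one] at hm
    exact hM1 G p b e N D hyp hm
  refine ⟨e, m, he, hyp, hm, by omega, fun h5 => ?_⟩
  have hm2 : m ≠ 2 := by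
    rintro rfl
    exact hM2 G p b e N D hyp h5 hm
  omega

theorem T1 (hM1 : S_M1) (hM2 : S_M2) (hBJ : S_BJ) (hGT : S_GT) : S_T1 := by
  intro p b hp hodd hb G _ _ _ hG N hN D hD h1 h0
  refine ⟨?_, ?_⟩
  · by_cases hne : ∀ g : G, p • g = 0
    · exact Or.inl hne
    · right
      obtain ⟨e, m, he, hyp, hm, hm2, hm3⟩ := T1_aux hM1 hM2 p b hp hodd hb G hG N hN D hD h1 h0 hne
      have hm' : Nat.card (nsmulAddMonoidHom (p ^ (e - 1)) : G →+ G).range = p ^ m := hm
      refine ⟨e, hyp.he, he, ?_, fun h5 => ?_⟩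
      · rw [hm']
        exact Nat.pow_le_pow_right hp.pos hm2
      · rw [hm']
        exact Nat.pow_le_pow_right hp.pos (hm3 h5)
  · intro h5 hb3
    by_contra hne
    obtain ⟨e, m, he, hyp, hm, hm2, hm3⟩ := T1_aux hM1 hM2 p b hp hodd hb G hG N hN D hD h1 h0 hne
    have hm3 := hm3 h5
    obtain ⟨g1, g2⟩ := hGT G p e hp hyp.he hyp.exp
    rw [hm, hG, ← pow_mul] at g1
    have g3 := (Nat.pow_le_pow_iff_right hp.one_lt).1 g1
    have he2 := hyp.he
    have hee : e = 2 := by nlinarith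
    have hmm : m = 3 := by
      subst hee; omega
    have hbb : b = 3 := by
      subst hee; omega
    have g4 := g2 hee
    rw [hm, hG, hmm, hbb] at g4
    have g5 : Nat.card {g : G // p • g = 0} = p ^ 3 := by
      have : p ^ (2 * 3) = p ^ 3 * p ^ 3 := by ring
      rw [this] at g4
      exact Nat.eq_of_mul_eq_mul_right (pow_pos hp.pos 3) g4
    have g6 := hBJ G p b e N D hyp
    rw [g5, hbb] at g6
    have g7 : 1 * p ^ 3 ≤ (p - 2) * p ^ 3 := Nat.mul_le_mul_right _ (by omega)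
    omega

end Pool.Agent.H176RD
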